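import Pool.Agent.Y394.TM.Model

/-! Consequences of a model. -/

set_option autoImplicit false

namespace Pool.Agent.Y394.TM

variable {W V : Type} {H : SimpleGraph W} {G : SimpleGraph V} {b : W → V} {ℓ : Sym2 W → ℕ}
    {p : Sym2 W → ℕ → V}

namespace Mdl

lemma ends' (h : Mdl H G b ℓ p) {u v : W} (huv : H.Adj u v) :
    (p s(u, v) 0 = b u ∧ p s(u, v) (ℓ s(u, v)) = b v) ∨
      (p s(u, v) 0 = b v ∧ p s(u, v) (ℓ s(u, v)) = b u) := by
  obtain ⟨_, h2⟩ := h.ends s(u, v) huv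
  rw [Sym2.map_mk] at h2
  exact Sym2.eq_iff.1 h2

open Classical in
/-- the neighbour of `b u` on the path towards `b v` -/
noncomputable def nx (b : W → V) (ℓ : Sym2 W → ℕ) (p : Sym2 W → ℕ → V) (u v : W) : V :=
  if p s(u, v) 0 = b u then p s(u, v) 1 else p s(u, v) (ℓ s(u, v) - 1)

lemma nx_adj (h : Mdl H G b ℓ p) {u v : W} (huv : H.Adj u v) : G.Adj (b u) (nx b ℓ p u v) := by
  have h1 := (h.ends s(u, v) huv).1
  unfold nx
  split_ifs with h0
  · rw [← h0]; exact h.adj _ huv 0 (by omega)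
  · rcases h.ends' huv with ⟨h2, _⟩ | ⟨_, h2⟩
    · exact absurd h2 h0
    · have := h.adj s(u, v) huv (ℓ s(u, v) - 1) (by omega)
      rw [Nat.sub_add_cancel h1, h2] at this
      exact this.symm

lemma nx_cases (h : Mdl H G b ℓ p) {u v : W} (huv : H.Adj u v) :
    nx b ℓ p u v = b v ∨ ∃ i, 0 < i ∧ i < ℓ s(u, v) ∧ nx b ℓ p u v = p s(u, v) i := by
  have h1 := (h.ends s(u, v) huv).1
  have huv' : b u ≠ b v := fun hh => huv.ne (h.inj hh)
  unfold nx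
  rcases Nat.lt_or_ge 1 (ℓ s(u, v)) with h3 | h3
  · right
    split_ifs with h0
    · exact ⟨1, by omega, h3, rfl⟩
    · exact ⟨_, by omega, by omega, rfl⟩
  · left
    have h4 : ℓ s(u, v) = 1 := by omega
    rcases h.ends' huv with ⟨h2, h5⟩ | ⟨h2, h5⟩
    · rw [if_pos h2, ← h5, h4]
    · rw [if_neg (fun hh => huv' (hh.symm.trans h2)), h4]
      exact h2

lemma used_b (u : W) : Used H b ℓ p (b u) := Or.inl ⟨u, rfl⟩

lemma used_p {e : Sym2 W} (he : e ∈ H.edgeSet) {i : ℕ} (hi : 0 < i) (hi' : i < ℓ e) :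
    Used H b ℓ p (p e i) := Or.inr ⟨e, he, i, hi, hi', rfl⟩

/-- a vertex of a path is a branch vertex or an interior vertex -/
lemma pos_cases (h : Mdl H G b ℓ p) {e : Sym2 W} (he : e ∈ H.edgeSet) {i : ℕ} (hi : i ≤ ℓ e) :
    (0 < i ∧ i < ℓ e) ∨ ((i = 0 ∨ i = ℓ e) ∧ ∃ w ∈ e, p e i = b w) := by
  by_cases h1 : 0 < i ∧ i < ℓ e
  · exact Or.inl h1
  · right
    have h2 : i = 0 ∨ i = ℓ e := by omega
    refine ⟨h2, ?_⟩
    obtain ⟨_, h3⟩ := h.ends e he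
    induction e using Sym2.ind with
    | _ u v =>
      rw [Sym2.map_mk] at h3
      rcases h2 with rfl | rfl
      · rcases Sym2.eq_iff.1 h3 with ⟨h4, _⟩ | ⟨h4, _⟩
        · exact ⟨u, Sym2.mem_mk_left _ _, h4⟩
        · exact ⟨v, Sym2.mem_mk_right _ _, h4⟩
      · rcases Sym2.eq_iff.1 h3 with ⟨_, h4⟩ | ⟨_, h4⟩
        · exact ⟨v, Sym2.mem_mk_right _ _, h4⟩
        · exact ⟨u, Sym2.mem_mk_left _ _, h4⟩

lemma adj_bb (h : Mdl H G b ℓ p) {u v : W} (huv : G.Adj (b u) (b v)) : H.Adj u v := by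
  obtain ⟨e, he, i, hi, hs⟩ := h.ind _ _ (used_b u) (used_b v) huv
  have hno : ∀ j, 0 < j → j < ℓ e → p e j ≠ b u ∧ p e j ≠ b v := fun j hj hj' =>
    ⟨h.new e he j hj hj' u, h.new e he j hj hj' v⟩
  have hi0 : i = 0 := by
    by_contra h0
    have := hno i (by omega) hi
    rcases Sym2.eq_iff.1 hs with ⟨h1, _⟩ | ⟨_, h1⟩
    · exact this.1 h1.symm
    · exact this.2 h1.symm
  subst hi0
  have hl : ℓ e = 0 + 1 := by
    by_contra h0
    have := hno (0 + 1) (by omega) (by omega)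
    rcases Sym2.eq_iff.1 hs with ⟨_, h1⟩ | ⟨h1, _⟩
    · exact this.2 h1.symm
    · exact this.1 h1.symm
  obtain ⟨_, h3⟩ := h.ends e he
  rw [hl] at h3
  rw [h3] at hs
  have : s(u, v) = e := Sym2.map.injective h.inj (by rw [Sym2.map_mk]; exact hs)
  rw [← this] at he
  exact he

lemma adj_int (h : Mdl H G b ℓ p) {e : Sym2 W} (he : e ∈ H.edgeSet) {i : ℕ} (hi : 0 < i)
    (hi' : i < ℓ e) {y : V} (hy : Used H b ℓ p y) (hxy : G.Adj (p e i) y) :
    ∃ j ≤ ℓ e, y = p e j := by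
  obtain ⟨e', he', j, hj, hs⟩ := h.ind _ _ (used_p he hi hi') hy hxy
  have key : ∀ t ≤ ℓ e', p e i = p e' t → e' = e := by
    intro t ht hpt
    rcases h.pos_cases he' ht with ⟨h1, h2⟩ | ⟨_, w, _, hw⟩
    · exact (h.dis e' he' e he t i h1 h2 hi hi' hpt.symm).1
    · exact absurd (hpt.trans hw) (h.new e he i hi hi' w)
  rcases Sym2.eq_iff.1 hs with ⟨h1, h2⟩ | ⟨h1, h2⟩
  · have := key j hj.le h1
    subst this
    exact ⟨j + 1, hj, h2⟩
  · have := key (j + 1) hj h1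
    subst this
    exact ⟨j, hj.le, h2⟩

lemma b_on (h : Mdl H G b ℓ p) {e : Sym2 W} (he : e ∈ H.edgeSet) {j : ℕ} (hj : j ≤ ℓ e) {w : W}
    (hw : b w = p e j) : w ∈ e := by
  rcases h.pos_cases he hj with ⟨h1, h2⟩ | ⟨_, w', hw', h1⟩
  · exact absurd hw.symm (h.new e he j h1 h2 w)
  · have := h.inj (hw.trans h1)
    subst this; exact hw'

lemma adj_int_b (h : Mdl H G b ℓ p) {e : Sym2 W} (he : e ∈ H.edgeSet) {i : ℕ} (hi : 0 < i)
    (hi' : i < ℓ e) {w : W} (hxy : G.Adj (p e i) (b w)) : w ∈ e := by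
  obtain ⟨j, hj, hw⟩ := h.adj_int he hi hi' (used_b w) hxy
  exact h.b_on he hj hw

lemma adj_int_int (h : Mdl H G b ℓ p) {e e' : Sym2 W} (he : e ∈ H.edgeSet) (he' : e' ∈ H.edgeSet)
    {i j : ℕ} (hi : 0 < i) (hi' : i < ℓ e) (hj : 0 < j) (hj' : j < ℓ e')
    (hxy : G.Adj (p e i) (p e' j)) : e = e' := by
  obtain ⟨t, ht, hw⟩ := h.adj_int he hi hi' (used_p he' hj hj') hxy
  rcases h.pos_cases he ht with ⟨h1, h2⟩ | ⟨_, w, _, h1⟩
  · exact (h.dis e' he' e he j t hj hj' h1 h2 hw).1.symm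
  · exact absurd (hw.trans h1) (h.new e' he' j hj hj' w)

lemma nx_inj (h : Mdl H G b ℓ p) {u v w : W} (huv : H.Adj u v) (huw : H.Adj u w)
    (hh : nx b ℓ p u v = nx b ℓ p u w) : v = w := by
  rcases h.nx_cases huv with h1 | ⟨i, hi, hi', h1⟩
  · rcases h.nx_cases huw with h2 | ⟨j, hj, hj', h2⟩
    · exact h.inj (h1.symm.trans (hh.trans h2))
    · exact absurd (h2.symm.trans (hh.symm.trans h1)) (h.new _ huw j hj hj' v)
  · rcases h.nx_cases huw with h2 | ⟨j, hj, hj', h2⟩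
    · exact absurd (h1.symm.trans (hh.trans h2)) (h.new _ huv i hi hi' w)
    · have := (h.dis _ huv _ huw i j hi hi' hj hj' (h1.symm.trans (hh.trans h2))).1
      rcases Sym2.eq_iff.1 this with ⟨_, h3⟩ | ⟨h3, h4⟩
      · exact h3
      · rw [h4, h3]

lemma nx_nx_adj (h : Mdl H G b ℓ p) {u v w : W} (huv : H.Adj u v) (huw : H.Adj u w) (hvw : v ≠ w)
    (hh : G.Adj (nx b ℓ p u v) (nx b ℓ p u w)) :
    nx b ℓ p u v = b v ∧ nx b ℓ p u w = b w ∧ H.Adj v w := by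
  rcases h.nx_cases huv with h1 | ⟨i, hi, hi', h1⟩
  · rcases h.nx_cases huw with h2 | ⟨j, hj, hj', h2⟩
    · rw [h1, h2] at hh
      exact ⟨h1, h2, h.adj_bb hh⟩
    · rw [h1, h2] at hh
      have := h.adj_int_b huw hj hj' hh.symm
      rcases Sym2.mem_iff.1 this with h3 | h3
      · exact absurd h3.symm huv.ne
      · exact absurd h3 hvw
  · rcases h.nx_cases huw with h2 | ⟨j, hj, hj', h2⟩
    · rw [h1, h2] at hh
      have := h.adj_int_b huv hi hi' hh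
      rcases Sym2.mem_iff.1 this with h3 | h3
      · exact absurd h3.symm huw.ne
      · exact absurd h3.symm hvw
    · rw [h1, h2] at hh
      have := h.adj_int_int huv huw hi hi' hj hj' hh
      rcases Sym2.eq_iff.1 this with ⟨_, h3⟩ | ⟨h3, h4⟩
      · exact absurd h3 hvw
      · exact absurd h3 huw.ne

/-- a vertex far from an edge -/
lemma far_b (h : Mdl H G b ℓ p) {u v w : W} (huv : H.Adj u v) (h1 : w ≠ u) (h2 : w ≠ v)
    (h4 : ¬ H.Adj w v) : b w ≠ nx b ℓ p u v ∧ ¬ G.Adj (b w) (nx b ℓ p u v) := by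
  rcases h.nx_cases huv with h5 | ⟨i, hi, hi', h5⟩
  · rw [h5]
    exact ⟨fun hh => h2 (h.inj hh), fun hh => h4 (h.adj_bb hh)⟩
  · rw [h5]
    refine ⟨fun hh => h.new _ huv i hi hi' w hh.symm, fun hh => ?_⟩
    have := h.adj_int_b huv hi hi' hh.symm
    rcases Sym2.mem_iff.1 this with h3 | h3
    · exact h1 h3
    · exact h2 h3

/-- two edges at distance at least two -/
lemma far_nx (h : Mdl H G b ℓ p) {u v u' v' : W} (huv : H.Adj u v) (huv' : H.Adj u' v')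
    (h1 : u ≠ v') (h2 : v ≠ u') (h3 : v ≠ v') (h4 : ¬ H.Adj v v') :
    nx b ℓ p u v ≠ nx b ℓ p u' v' ∧ ¬ G.Adj (nx b ℓ p u v) (nx b ℓ p u' v') := by
  rcases h.nx_cases huv with h5 | ⟨i, hi, hi', h5⟩
  · rw [h5]
    exact h.far_b huv' h2 h3 h4
  · rcases h.nx_cases huv' with h6 | ⟨j, hj, hj', h6⟩
    · rw [h6]
      have := h.far_b huv (Ne.symm h1) (Ne.symm h3) (fun hh => h4 hh.symm)
      exact ⟨this.1.symm, fun hh => this.2 hh.symm⟩
    · rw [h5, h6]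
      refine ⟨fun hh => ?_, fun hh => ?_⟩
      · have := (h.dis _ huv _ huv' i j hi hi' hj hj' hh).1
        rcases Sym2.eq_iff.1 this with ⟨_, h7⟩ | ⟨h7, _⟩
        · exact h3 h7
        · exact h1 h7
      · have := h.adj_int_int huv huv' hi hi' hj hj' hh
        rcases Sym2.eq_iff.1 this with ⟨_, h7⟩ | ⟨h7, _⟩
        · exact h3 h7
        · exact h1 h7

end Mdl

end Pool.Agent.Y394.TM
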