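import Pool.Agent.Y394.TM.Nec

/-! The finite classification. -/

set_option autoImplicit false
namespace Pool.Agent.Y394.TM
open Pool.Agent.H175R2
variable {W : Type} {H : SimpleGraph W}

lemma no_five (h : Good H) (a b c d e : W) (nab : a ≠ b) (nac : a ≠ c) (nad : a ≠ d) (nae : a ≠ e) (nbc : b ≠ c) (nbd : b ≠ d) (nbe : b ≠ e) (ncd : c ≠ d) (nce : c ≠ e) (nde : d ≠ e) : False := by
  have F0 : H.Adj a b ∨ H.Adj a c ∨ H.Adj b c := h.alpha a b c nab nac nbc
  have F1 : H.Adj a b ∨ H.Adj a d ∨ H.Adj b d := h.alpha a b d nab nad nbd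
  have F2 : H.Adj a b ∨ H.Adj a e ∨ H.Adj b e := h.alpha a b e nab nae nbe
  have F3 : H.Adj a c ∨ H.Adj a d ∨ H.Adj c d := h.alpha a c d nac nad ncd
  have F4 : H.Adj a c ∨ H.Adj a e ∨ H.Adj c e := h.alpha a c e nac nae nce
  have F5 : H.Adj a d ∨ H.Adj a e ∨ H.Adj d e := h.alpha a d e nad nae nde
  have F6 : H.Adj b c ∨ H.Adj b d ∨ H.Adj c d := h.alpha b c d nbc nbd ncd
  have F7 : H.Adj b c ∨ H.Adj b e ∨ H.Adj c e := h.alpha b c e nbc nbe nce
  have F8 : H.Adj b d ∨ H.Adj b e ∨ H.Adj d e := h.alpha b d e nbd nbe nde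
  have F9 : H.Adj c d ∨ H.Adj c e ∨ H.Adj d e := h.alpha c d e ncd nce nde
  have F10 : ¬ (H.Adj a b ∧ H.Adj a c ∧ H.Adj a d ∧ H.Adj b c ∧ H.Adj b d ∧ H.Adj c d) := fun ⟨e0, e1, e2, e3, e4, e5⟩ => h.k4 a b c d e0 e1 e2 e3 e4 e5
  have F11 : ¬ (H.Adj a b ∧ H.Adj a c ∧ H.Adj a e ∧ H.Adj b c ∧ H.Adj b e ∧ H.Adj c e) := fun ⟨e0, e1, e2, e3, e4, e5⟩ => h.k4 a b c e e0 e1 e2 e3 e4 e5
  have F12 : ¬ (H.Adj a b ∧ H.Adj a d ∧ H.Adj a e ∧ H.Adj b d ∧ H.Adj b e ∧ H.Adj d e) := fun ⟨e0, e1, e2, e3, e4, e5⟩ => h.k4 a b d e e0 e1 e2 e3 e4 e5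
  have F13 : ¬ (H.Adj a c ∧ H.Adj a d ∧ H.Adj a e ∧ H.Adj c d ∧ H.Adj c e ∧ H.Adj d e) := fun ⟨e0, e1, e2, e3, e4, e5⟩ => h.k4 a c d e e0 e1 e2 e3 e4 e5
  have F14 : ¬ (H.Adj b c ∧ H.Adj b d ∧ H.Adj b e ∧ H.Adj c d ∧ H.Adj c e ∧ H.Adj d e) := fun ⟨e0, e1, e2, e3, e4, e5⟩ => h.k4 b c d e e0 e1 e2 e3 e4 e5
  have F15 : ¬ (H.Adj a b ∧ H.Adj a c ∧ H.Adj a d ∧ H.Adj a e) := fun ⟨e0, e1, e2, e3⟩ => h.deg a b c d e e0 e1 e2 e3 nbc nbd nbe ncd nce nde
  have F16 : ¬ (H.Adj a b ∧ H.Adj b c ∧ H.Adj b d ∧ H.Adj b e) := fun ⟨e0, e1, e2, e3⟩ => h.deg b a c d e e0.symm e1 e2 e3 nac nad nae ncd nce nde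
  have F17 : ¬ (H.Adj a c ∧ H.Adj b c ∧ H.Adj c d ∧ H.Adj c e) := fun ⟨e0, e1, e2, e3⟩ => h.deg c a b d e e0.symm e1.symm e2 e3 nab nad nae nbd nbe nde
  have F18 : ¬ (H.Adj a d ∧ H.Adj b d ∧ H.Adj c d ∧ H.Adj d e) := fun ⟨e0, e1, e2, e3⟩ => h.deg d a b c e e0.symm e1.symm e2.symm e3 nab nac nae nbc nbe nce
  have F19 : ¬ (H.Adj a e ∧ H.Adj b e ∧ H.Adj c e ∧ H.Adj d e) := fun ⟨e0, e1, e2, e3⟩ => h.deg e a b c d e0.symm e1.symm e2.symm e3.symm nab nac nad nbc nbd ncd
  have F20 : H.Adj a b → H.Adj c d → H.Adj a c ∨ H.Adj a d ∨ H.Adj b c ∨ H.Adj b d := fun e0 e1 => (h.two a b c d e0 e1 nac nad nbc nbd).imp id (Or.imp id (Or.imp id id))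
  have F21 : H.Adj a c → H.Adj b d → H.Adj a b ∨ H.Adj a d ∨ H.Adj b c ∨ H.Adj c d := fun e0 e1 => (h.two a c b d e0 e1 nab nad (Ne.symm nbc) ncd).imp id (Or.imp id (Or.imp SimpleGraph.Adj.symm id))
  have F22 : H.Adj a d → H.Adj b c → H.Adj a b ∨ H.Adj a c ∨ H.Adj b d ∨ H.Adj c d := fun e0 e1 => (h.two a d b c e0 e1 nab nac (Ne.symm nbd) (Ne.symm ncd)).imp id (Or.imp id (Or.imp SimpleGraph.Adj.symm SimpleGraph.Adj.symm))
  have F23 : H.Adj a b → H.Adj c e → H.Adj a c ∨ H.Adj a e ∨ H.Adj b c ∨ H.Adj b e := fun e0 e1 => (h.two a b c e e0 e1 nac nae nbc nbe).imp id (Or.imp id (Or.imp id id))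
  have F24 : H.Adj a c → H.Adj b e → H.Adj a b ∨ H.Adj a e ∨ H.Adj b c ∨ H.Adj c e := fun e0 e1 => (h.two a c b e e0 e1 nab nae (Ne.symm nbc) nce).imp id (Or.imp id (Or.imp SimpleGraph.Adj.symm id))
  have F25 : H.Adj a e → H.Adj b c → H.Adj a b ∨ H.Adj a c ∨ H.Adj b e ∨ H.Adj c e := fun e0 e1 => (h.two a e b c e0 e1 nab nac (Ne.symm nbe) (Ne.symm nce)).imp id (Or.imp id (Or.imp SimpleGraph.Adj.symm SimpleGraph.Adj.symm))
  have F26 : H.Adj a b → H.Adj d e → H.Adj a d ∨ H.Adj a e ∨ H.Adj b d ∨ H.Adj b e := fun e0 e1 => (h.two a b d e e0 e1 nad nae nbd nbe).imp id (Or.imp id (Or.imp id id))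
  have F27 : H.Adj a d → H.Adj b e → H.Adj a b ∨ H.Adj a e ∨ H.Adj b d ∨ H.Adj d e := fun e0 e1 => (h.two a d b e e0 e1 nab nae (Ne.symm nbd) nde).imp id (Or.imp id (Or.imp SimpleGraph.Adj.symm id))
  have F28 : H.Adj a e → H.Adj b d → H.Adj a b ∨ H.Adj a d ∨ H.Adj b e ∨ H.Adj d e := fun e0 e1 => (h.two a e b d e0 e1 nab nad (Ne.symm nbe) (Ne.symm nde)).imp id (Or.imp id (Or.imp SimpleGraph.Adj.symm SimpleGraph.Adj.symm))
  have F29 : H.Adj a c → H.Adj d e → H.Adj a d ∨ H.Adj a e ∨ H.Adj c d ∨ H.Adj c e := fun e0 e1 => (h.two a c d e e0 e1 nad nae ncd nce).imp id (Or.imp id (Or.imp id id))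
  have F30 : H.Adj a d → H.Adj c e → H.Adj a c ∨ H.Adj a e ∨ H.Adj c d ∨ H.Adj d e := fun e0 e1 => (h.two a d c e e0 e1 nac nae (Ne.symm ncd) nde).imp id (Or.imp id (Or.imp SimpleGraph.Adj.symm id))
  have F31 : H.Adj a e → H.Adj c d → H.Adj a c ∨ H.Adj a d ∨ H.Adj c e ∨ H.Adj d e := fun e0 e1 => (h.two a e c d e0 e1 nac nad (Ne.symm nce) (Ne.symm nde)).imp id (Or.imp id (Or.imp SimpleGraph.Adj.symm SimpleGraph.Adj.symm))
  have F32 : H.Adj b c → H.Adj d e → H.Adj b d ∨ H.Adj b e ∨ H.Adj c d ∨ H.Adj c e := fun e0 e1 => (h.two b c d e e0 e1 nbd nbe ncd nce).imp id (Or.imp id (Or.imp id id))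
  have F33 : H.Adj b d → H.Adj c e → H.Adj b c ∨ H.Adj b e ∨ H.Adj c d ∨ H.Adj d e := fun e0 e1 => (h.two b d c e e0 e1 nbc nbe (Ne.symm ncd) nde).imp id (Or.imp id (Or.imp SimpleGraph.Adj.symm id))
  have F34 : H.Adj b e → H.Adj c d → H.Adj b c ∨ H.Adj b d ∨ H.Adj c e ∨ H.Adj d e := fun e0 e1 => (h.two b e c d e0 e1 nbc nbd (Ne.symm nce) (Ne.symm nde)).imp id (Or.imp id (Or.imp SimpleGraph.Adj.symm SimpleGraph.Adj.symm))
  have F35 : H.Adj a c → H.Adj b c → H.Adj b d → H.Adj a d → ¬ H.Adj c d → H.Adj a b := fun e0 e1 e2 e3 e4 => h.cen a c d b c d e0 e3 ncd e4 e1 e2 ncd e4 nab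
  have F36 : H.Adj a b → H.Adj b c → H.Adj c d → H.Adj a d → ¬ H.Adj b d → H.Adj a c := fun e0 e1 e2 e3 e4 => h.cen a b d c b d e0 e3 nbd e4 e1.symm e2 nbd e4 nac
  have F37 : H.Adj a b → H.Adj b d → H.Adj c d → H.Adj a c → ¬ H.Adj b c → H.Adj a d := fun e0 e1 e2 e3 e4 => h.cen a b c d b c e0 e3 nbc e4 e1.symm e2.symm nbc e4 nad
  have F38 : H.Adj a c → H.Adj b c → H.Adj b e → H.Adj a e → ¬ H.Adj c e → H.Adj a b := fun e0 e1 e2 e3 e4 => h.cen a c e b c e e0 e3 nce e4 e1 e2 nce e4 nab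
  have F39 : H.Adj a b → H.Adj b c → H.Adj c e → H.Adj a e → ¬ H.Adj b e → H.Adj a c := fun e0 e1 e2 e3 e4 => h.cen a b e c b e e0 e3 nbe e4 e1.symm e2 nbe e4 nac
  have F40 : H.Adj a b → H.Adj b e → H.Adj c e → H.Adj a c → ¬ H.Adj b c → H.Adj a e := fun e0 e1 e2 e3 e4 => h.cen a b c e b c e0 e3 nbc e4 e1.symm e2.symm nbc e4 nae
  have F41 : H.Adj a d → H.Adj b d → H.Adj b e → H.Adj a e → ¬ H.Adj d e → H.Adj a b := fun e0 e1 e2 e3 e4 => h.cen a d e b d e e0 e3 nde e4 e1 e2 nde e4 nab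
  have F42 : H.Adj a b → H.Adj b d → H.Adj d e → H.Adj a e → ¬ H.Adj b e → H.Adj a d := fun e0 e1 e2 e3 e4 => h.cen a b e d b e e0 e3 nbe e4 e1.symm e2 nbe e4 nad
  have F43 : H.Adj a b → H.Adj b e → H.Adj d e → H.Adj a d → ¬ H.Adj b d → H.Adj a e := fun e0 e1 e2 e3 e4 => h.cen a b d e b d e0 e3 nbd e4 e1.symm e2.symm nbd e4 nae
  have F44 : H.Adj a d → H.Adj c d → H.Adj c e → H.Adj a e → ¬ H.Adj d e → H.Adj a c := fun e0 e1 e2 e3 e4 => h.cen a d e c d e e0 e3 nde e4 e1 e2 nde e4 nac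
  have F45 : H.Adj a c → H.Adj c d → H.Adj d e → H.Adj a e → ¬ H.Adj c e → H.Adj a d := fun e0 e1 e2 e3 e4 => h.cen a c e d c e e0 e3 nce e4 e1.symm e2 nce e4 nad
  have F46 : H.Adj a c → H.Adj c e → H.Adj d e → H.Adj a d → ¬ H.Adj c d → H.Adj a e := fun e0 e1 e2 e3 e4 => h.cen a c d e c d e0 e3 ncd e4 e1.symm e2.symm ncd e4 nae
  have F47 : H.Adj b d → H.Adj c d → H.Adj c e → H.Adj b e → ¬ H.Adj d e → H.Adj b c := fun e0 e1 e2 e3 e4 => h.cen b d e c d e e0 e3 nde e4 e1 e2 nde e4 nbc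
  have F48 : H.Adj b c → H.Adj c d → H.Adj d e → H.Adj b e → ¬ H.Adj c e → H.Adj b d := fun e0 e1 e2 e3 e4 => h.cen b c e d c e e0 e3 nce e4 e1.symm e2 nce e4 nbd
  have F49 : H.Adj b c → H.Adj c e → H.Adj d e → H.Adj b d → ¬ H.Adj c d → H.Adj b e := fun e0 e1 e2 e3 e4 => h.cen b c d e c d e0 e3 ncd e4 e1.symm e2.symm ncd e4 nbe
  have F50 : H.Adj a b → H.Adj a c → H.Adj b c → H.Adj a d ∨ H.Adj b d ∨ H.Adj c d := fun e0 e1 e2 => (h.k31 d a b c e0 e1 e2 (Ne.symm nad) (Ne.symm nbd) (Ne.symm ncd)).imp SimpleGraph.Adj.symm (Or.imp SimpleGraph.Adj.symm SimpleGraph.Adj.symm)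
  have F51 : H.Adj a b → H.Adj a c → H.Adj b c → H.Adj a e ∨ H.Adj b e ∨ H.Adj c e := fun e0 e1 e2 => (h.k31 e a b c e0 e1 e2 (Ne.symm nae) (Ne.symm nbe) (Ne.symm nce)).imp SimpleGraph.Adj.symm (Or.imp SimpleGraph.Adj.symm SimpleGraph.Adj.symm)
  have F52 : H.Adj a b → H.Adj a d → H.Adj b d → H.Adj a c ∨ H.Adj b c ∨ H.Adj c d := fun e0 e1 e2 => (h.k31 c a b d e0 e1 e2 (Ne.symm nac) (Ne.symm nbc) ncd).imp SimpleGraph.Adj.symm (Or.imp SimpleGraph.Adj.symm id)
  have F53 : H.Adj a b → H.Adj a d → H.Adj b d → H.Adj a e ∨ H.Adj b e ∨ H.Adj d e := fun e0 e1 e2 => (h.k31 e a b d e0 e1 e2 (Ne.symm nae) (Ne.symm nbe) (Ne.symm nde)).imp SimpleGraph.Adj.symm (Or.imp SimpleGraph.Adj.symm SimpleGraph.Adj.symm)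
  have F54 : H.Adj a b → H.Adj a e → H.Adj b e → H.Adj a c ∨ H.Adj b c ∨ H.Adj c e := fun e0 e1 e2 => (h.k31 c a b e e0 e1 e2 (Ne.symm nac) (Ne.symm nbc) nce).imp SimpleGraph.Adj.symm (Or.imp SimpleGraph.Adj.symm id)
  have F55 : H.Adj a b → H.Adj a e → H.Adj b e → H.Adj a d ∨ H.Adj b d ∨ H.Adj d e := fun e0 e1 e2 => (h.k31 d a b e e0 e1 e2 (Ne.symm nad) (Ne.symm nbd) nde).imp SimpleGraph.Adj.symm (Or.imp SimpleGraph.Adj.symm id)
  have F56 : H.Adj a c → H.Adj a d → H.Adj c d → H.Adj a b ∨ H.Adj b c ∨ H.Adj b d := fun e0 e1 e2 => (h.k31 b a c d e0 e1 e2 (Ne.symm nab) nbc nbd).imp SimpleGraph.Adj.symm (Or.imp id id)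
  have F57 : H.Adj a c → H.Adj a d → H.Adj c d → H.Adj a e ∨ H.Adj c e ∨ H.Adj d e := fun e0 e1 e2 => (h.k31 e a c d e0 e1 e2 (Ne.symm nae) (Ne.symm nce) (Ne.symm nde)).imp SimpleGraph.Adj.symm (Or.imp SimpleGraph.Adj.symm SimpleGraph.Adj.symm)
  have F58 : H.Adj a c → H.Adj a e → H.Adj c e → H.Adj a b ∨ H.Adj b c ∨ H.Adj b e := fun e0 e1 e2 => (h.k31 b a c e e0 e1 e2 (Ne.symm nab) nbc nbe).imp SimpleGraph.Adj.symm (Or.imp id id)
  have F59 : H.Adj a c → H.Adj a e → H.Adj c e → H.Adj a d ∨ H.Adj c d ∨ H.Adj d e := fun e0 e1 e2 => (h.k31 d a c e e0 e1 e2 (Ne.symm nad) (Ne.symm ncd) nde).imp SimpleGraph.Adj.symm (Or.imp SimpleGraph.Adj.symm id)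
  have F60 : H.Adj a d → H.Adj a e → H.Adj d e → H.Adj a b ∨ H.Adj b d ∨ H.Adj b e := fun e0 e1 e2 => (h.k31 b a d e e0 e1 e2 (Ne.symm nab) nbd nbe).imp SimpleGraph.Adj.symm (Or.imp id id)
  have F61 : H.Adj a d → H.Adj a e → H.Adj d e → H.Adj a c ∨ H.Adj c d ∨ H.Adj c e := fun e0 e1 e2 => (h.k31 c a d e e0 e1 e2 (Ne.symm nac) ncd nce).imp SimpleGraph.Adj.symm (Or.imp id id)
  have F62 : H.Adj b c → H.Adj b d → H.Adj c d → H.Adj a b ∨ H.Adj a c ∨ H.Adj a d := fun e0 e1 e2 => (h.k31 a b c d e0 e1 e2 nab nac nad).imp id (Or.imp id id)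
  have F63 : H.Adj b c → H.Adj b d → H.Adj c d → H.Adj b e ∨ H.Adj c e ∨ H.Adj d e := fun e0 e1 e2 => (h.k31 e b c d e0 e1 e2 (Ne.symm nbe) (Ne.symm nce) (Ne.symm nde)).imp SimpleGraph.Adj.symm (Or.imp SimpleGraph.Adj.symm SimpleGraph.Adj.symm)
  have F64 : H.Adj b c → H.Adj b e → H.Adj c e → H.Adj a b ∨ H.Adj a c ∨ H.Adj a e := fun e0 e1 e2 => (h.k31 a b c e e0 e1 e2 nab nac nae).imp id (Or.imp id id)
  have F65 : H.Adj b c → H.Adj b e → H.Adj c e → H.Adj b d ∨ H.Adj c d ∨ H.Adj d e := fun e0 e1 e2 => (h.k31 d b c e e0 e1 e2 (Ne.symm nbd) (Ne.symm ncd) nde).imp SimpleGraph.Adj.symm (Or.imp SimpleGraph.Adj.symm id)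
  have F66 : H.Adj b d → H.Adj b e → H.Adj d e → H.Adj a b ∨ H.Adj a d ∨ H.Adj a e := fun e0 e1 e2 => (h.k31 a b d e e0 e1 e2 nab nad nae).imp id (Or.imp id id)
  have F67 : H.Adj b d → H.Adj b e → H.Adj d e → H.Adj b c ∨ H.Adj c d ∨ H.Adj c e := fun e0 e1 e2 => (h.k31 c b d e e0 e1 e2 (Ne.symm nbc) ncd nce).imp SimpleGraph.Adj.symm (Or.imp id id)
  have F68 : H.Adj c d → H.Adj c e → H.Adj d e → H.Adj a c ∨ H.Adj a d ∨ H.Adj a e := fun e0 e1 e2 => (h.k31 a c d e e0 e1 e2 nac nad nae).imp id (Or.imp id id)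
  have F69 : H.Adj c d → H.Adj c e → H.Adj d e → H.Adj b c ∨ H.Adj b d ∨ H.Adj b e := fun e0 e1 e2 => (h.k31 b c d e e0 e1 e2 nbc nbd nbe).imp id (Or.imp id id)
  have F70 : H.Adj a b → H.Adj b c → H.Adj c d → H.Adj a e → ¬ H.Adj b e → ¬ H.Adj b d → H.Adj a c := fun e0 e1 e2 e3 f0 f1 => h.cen a b e c b d e0 e3 nbe f0 e1.symm e2 nbd f1 nac
  have F71 : H.Adj a b → H.Adj b c → H.Adj c e → H.Adj a d → ¬ H.Adj b d → ¬ H.Adj b e → H.Adj a c := fun e0 e1 e2 e3 f0 f1 => h.cen a b d c b e e0 e3 nbd f0 e1.symm e2 nbe f1 nac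
  have F72 : H.Adj a b → H.Adj b d → H.Adj c d → H.Adj a e → ¬ H.Adj b e → ¬ H.Adj b c → H.Adj a d := fun e0 e1 e2 e3 f0 f1 => h.cen a b e d b c e0 e3 nbe f0 e1.symm e2.symm nbc f1 nad
  have F73 : H.Adj a b → H.Adj b d → H.Adj d e → H.Adj a c → ¬ H.Adj b c → ¬ H.Adj b e → H.Adj a d := fun e0 e1 e2 e3 f0 f1 => h.cen a b c d b e e0 e3 nbc f0 e1.symm e2 nbe f1 nad
  have F74 : H.Adj a b → H.Adj b e → H.Adj c e → H.Adj a d → ¬ H.Adj b d → ¬ H.Adj b c → H.Adj a e := fun e0 e1 e2 e3 f0 f1 => h.cen a b d e b c e0 e3 nbd f0 e1.symm e2.symm nbc f1 nae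
  have F75 : H.Adj a b → H.Adj b e → H.Adj d e → H.Adj a c → ¬ H.Adj b c → ¬ H.Adj b d → H.Adj a e := fun e0 e1 e2 e3 f0 f1 => h.cen a b c e b d e0 e3 nbc f0 e1.symm e2.symm nbd f1 nae
  have F76 : H.Adj a c → H.Adj b c → H.Adj b d → H.Adj a e → ¬ H.Adj c e → ¬ H.Adj c d → H.Adj a b := fun e0 e1 e2 e3 f0 f1 => h.cen a c e b c d e0 e3 nce f0 e1 e2 ncd f1 nab
  have F77 : H.Adj a c → H.Adj b c → H.Adj b e → H.Adj a d → ¬ H.Adj c d → ¬ H.Adj c e → H.Adj a b := fun e0 e1 e2 e3 f0 f1 => h.cen a c d b c e e0 e3 ncd f0 e1 e2 nce f1 nab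
  have F78 : H.Adj a c → H.Adj c d → H.Adj b d → H.Adj a e → ¬ H.Adj c e → ¬ H.Adj b c → H.Adj a d := fun e0 e1 e2 e3 f0 f1 => h.cen a c e d c b e0 e3 nce f0 e1.symm e2.symm (Ne.symm nbc) (fun hh => f1 hh.symm) nad
  have F79 : H.Adj a c → H.Adj c e → H.Adj b e → H.Adj a d → ¬ H.Adj c d → ¬ H.Adj b c → H.Adj a e := fun e0 e1 e2 e3 f0 f1 => h.cen a c d e c b e0 e3 ncd f0 e1.symm e2.symm (Ne.symm nbc) (fun hh => f1 hh.symm) nae
  have F80 : H.Adj a d → H.Adj b d → H.Adj b c → H.Adj a e → ¬ H.Adj d e → ¬ H.Adj c d → H.Adj a b := fun e0 e1 e2 e3 f0 f1 => h.cen a d e b d c e0 e3 nde f0 e1 e2 (Ne.symm ncd) (fun hh => f1 hh.symm) nab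
  have F81 : H.Adj a d → H.Adj c d → H.Adj b c → H.Adj a e → ¬ H.Adj d e → ¬ H.Adj b d → H.Adj a c := fun e0 e1 e2 e3 f0 f1 => h.cen a d e c d b e0 e3 nde f0 e1 e2.symm (Ne.symm nbd) (fun hh => f1 hh.symm) nac
  clear h
  generalize H.Adj a b = x1 at *
  generalize H.Adj a c = x2 at *
  generalize H.Adj a d = x3 at *
  generalize H.Adj a e = x4 at *
  generalize H.Adj b c = x5 at *
  generalize H.Adj b d = x6 at *
  generalize H.Adj b e = x7 at *
  generalize H.Adj c d = x8 at *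
  generalize H.Adj c e = x9 at *
  generalize H.Adj d e = x10 at *
  grind (splits := 50)


/-- adjacency of `P₄` -/
def p4B (i j : Fin 4) : Bool := i.val + 1 == j.val || j.val + 1 == i.val
/-- adjacency of the paw -/
def pawB (i j : Fin 4) : Bool := i != j && (i == 0 || j == 0 || (i == 1 && j == 2) || (i == 2 && j == 1))
/-- adjacency of the diamond -/
def diaB (i j : Fin 4) : Bool := i != j && (i == 0 || j == 0 || i == 1 || j == 1)

lemma p4B_adj (i j : Fin 4) : (SimpleGraph.pathGraph 4).Adj i j ↔ p4B i j = true := by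
  rw [SimpleGraph.pathGraph_adj]; simp [p4B]

lemma pawB_adj (i j : Fin 4) : paw.Adj i j ↔ pawB i j = true := by
  unfold paw
  rw [SimpleGraph.fromRel_adj]
  revert i j
  decide

lemma diaB_adj (i j : Fin 4) : diamond.Adj i j ↔ diaB i j = true := by
  unfold diamond
  rw [SimpleGraph.fromRel_adj]
  revert i j
  decide

lemma embN {n : ℕ} (T : SimpleGraph (Fin 4)) (E : W ≃ Fin n) (g : Fin n → Fin 4)
    (hg : Function.Injective g)
    (hadj : ∀ i j, i < j → (H.Adj (E.symm i) (E.symm j) ↔ T.Adj (g i) (g j))) :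
    H.IsIndContained T := by
  refine ⟨⟨⟨fun w => g (E w), hg.comp E.injective⟩, ?_⟩⟩
  intro x y
  simp only [Function.Embedding.coeFn_mk]
  rcases lt_trichotomy (E x) (E y) with h | h | h
  · have := hadj _ _ h
    simp only [Equiv.symm_apply_apply] at this
    exact this.symm
  · have hxy : x = y := E.injective h
    subst hxy
    exact iff_of_false (SimpleGraph.irrefl _) (SimpleGraph.irrefl _)
  · have := hadj _ _ h
    simp only [Equiv.symm_apply_apply] at this
    rw [T.adj_comm, H.adj_comm]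
    exact this.symm

lemma emb4 (T : SimpleGraph (Fin 4)) (TB : Fin 4 → Fin 4 → Bool)
    (hT : ∀ i j, T.Adj i j ↔ TB i j = true) (E : W ≃ Fin 4) (g : Fin 4 → Fin 4)
    (hg : Function.Injective g)
    (h01 : H.Adj (E.symm 0) (E.symm 1) ↔ TB (g 0) (g 1) = true)
    (h02 : H.Adj (E.symm 0) (E.symm 2) ↔ TB (g 0) (g 2) = true)
    (h03 : H.Adj (E.symm 0) (E.symm 3) ↔ TB (g 0) (g 3) = true)
    (h12 : H.Adj (E.symm 1) (E.symm 2) ↔ TB (g 1) (g 2) = true)
    (h13 : H.Adj (E.symm 1) (E.symm 3) ↔ TB (g 1) (g 3) = true)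
    (h23 : H.Adj (E.symm 2) (E.symm 3) ↔ TB (g 2) (g 3) = true) : H.IsIndContained T := by
  apply embN T E g hg
  intro i j hij
  rw [hT]
  fin_cases i <;> fin_cases j <;> first | (exfalso; revert hij; decide) | assumption

lemma emb3 (T : SimpleGraph (Fin 4)) (TB : Fin 4 → Fin 4 → Bool)
    (hT : ∀ i j, T.Adj i j ↔ TB i j = true) (E : W ≃ Fin 3) (g : Fin 3 → Fin 4)
    (hg : Function.Injective g)
    (h01 : H.Adj (E.symm 0) (E.symm 1) ↔ TB (g 0) (g 1) = true)
    (h02 : H.Adj (E.symm 0) (E.symm 2) ↔ TB (g 0) (g 2) = true)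
    (h12 : H.Adj (E.symm 1) (E.symm 2) ↔ TB (g 1) (g 2) = true) : H.IsIndContained T := by
  apply embN T E g hg
  intro i j hij
  rw [hT]
  fin_cases i <;> fin_cases j <;> first | (exfalso; revert hij; decide) | assumption

lemma emb2 (T : SimpleGraph (Fin 4)) (TB : Fin 4 → Fin 4 → Bool)
    (hT : ∀ i j, T.Adj i j ↔ TB i j = true) (E : W ≃ Fin 2) (g : Fin 2 → Fin 4)
    (hg : Function.Injective g)
    (h01 : H.Adj (E.symm 0) (E.symm 1) ↔ TB (g 0) (g 1) = true) : H.IsIndContained T := by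
  apply embN T E g hg
  intro i j hij
  rw [hT]
  fin_cases i <;> fin_cases j <;> first | (exfalso; revert hij; decide) | assumption

/-- the three maximal graphs -/
def Three (H : SimpleGraph W) : Prop :=
  H.IsIndContained (SimpleGraph.pathGraph 4) ∨ H.IsIndContained paw ∨ H.IsIndContained diamond

lemma four (h : Good H) (E : W ≃ Fin 4) : Three H := by
  have hne : ∀ i j : Fin 4, i ≠ j → E.symm i ≠ E.symm j := fun i j hij hh => hij (E.symm.injective hh)
  have F0 : H.Adj (E.symm 0) (E.symm 1) ∨ H.Adj (E.symm 0) (E.symm 2) ∨ H.Adj (E.symm 1) (E.symm 2) := h.alpha _ _ _ (hne 0 1 (by decide)) (hne 0 2 (by decide)) (hne 1 2 (by decide))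
  have F1 : H.Adj (E.symm 0) (E.symm 1) ∨ H.Adj (E.symm 0) (E.symm 3) ∨ H.Adj (E.symm 1) (E.symm 3) := h.alpha _ _ _ (hne 0 1 (by decide)) (hne 0 3 (by decide)) (hne 1 3 (by decide))
  have F2 : H.Adj (E.symm 0) (E.symm 2) ∨ H.Adj (E.symm 0) (E.symm 3) ∨ H.Adj (E.symm 2) (E.symm 3) := h.alpha _ _ _ (hne 0 2 (by decide)) (hne 0 3 (by decide)) (hne 2 3 (by decide))
  have F3 : H.Adj (E.symm 1) (E.symm 2) ∨ H.Adj (E.symm 1) (E.symm 3) ∨ H.Adj (E.symm 2) (E.symm 3) := h.alpha _ _ _ (hne 1 2 (by decide)) (hne 1 3 (by decide)) (hne 2 3 (by decide))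
  have F4 : ¬ (H.Adj (E.symm 0) (E.symm 1) ∧ H.Adj (E.symm 0) (E.symm 2) ∧ H.Adj (E.symm 0) (E.symm 3) ∧ H.Adj (E.symm 1) (E.symm 2) ∧ H.Adj (E.symm 1) (E.symm 3) ∧ H.Adj (E.symm 2) (E.symm 3)) := fun ⟨e0, e1, e2, e3, e4, e5⟩ => h.k4 _ _ _ _ e0 e1 e2 e3 e4 e5
  have F5 : H.Adj (E.symm 0) (E.symm 1) → H.Adj (E.symm 2) (E.symm 3) → H.Adj (E.symm 0) (E.symm 2) ∨ H.Adj (E.symm 0) (E.symm 3) ∨ H.Adj (E.symm 1) (E.symm 2) ∨ H.Adj (E.symm 1) (E.symm 3) := fun e0 e1 => (h.two _ _ _ _ e0 e1 (hne 0 2 (by decide)) (hne 0 3 (by decide)) (hne 1 2 (by decide)) (hne 1 3 (by decide))).imp id (Or.imp id (Or.imp id id))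
  have F6 : H.Adj (E.symm 0) (E.symm 2) → H.Adj (E.symm 1) (E.symm 3) → H.Adj (E.symm 0) (E.symm 1) ∨ H.Adj (E.symm 0) (E.symm 3) ∨ H.Adj (E.symm 1) (E.symm 2) ∨ H.Adj (E.symm 2) (E.symm 3) := fun e0 e1 => (h.two _ _ _ _ e0 e1 (hne 0 1 (by decide)) (hne 0 3 (by decide)) (hne 2 1 (by decide)) (hne 2 3 (by decide))).imp id (Or.imp id (Or.imp SimpleGraph.Adj.symm id))
  have F7 : H.Adj (E.symm 0) (E.symm 3) → H.Adj (E.symm 1) (E.symm 2) → H.Adj (E.symm 0) (E.symm 1) ∨ H.Adj (E.symm 0) (E.symm 2) ∨ H.Adj (E.symm 1) (E.symm 3) ∨ H.Adj (E.symm 2) (E.symm 3) := fun e0 e1 => (h.two _ _ _ _ e0 e1 (hne 0 1 (by decide)) (hne 0 2 (by decide)) (hne 3 1 (by decide)) (hne 3 2 (by decide))).imp id (Or.imp id (Or.imp SimpleGraph.Adj.symm SimpleGraph.Adj.symm))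
  have F8 : H.Adj (E.symm 0) (E.symm 2) → H.Adj (E.symm 1) (E.symm 2) → H.Adj (E.symm 1) (E.symm 3) → H.Adj (E.symm 0) (E.symm 3) → ¬ H.Adj (E.symm 2) (E.symm 3) → H.Adj (E.symm 0) (E.symm 1) := fun e0 e1 e2 e3 e4 => h.cen _ _ _ _ _ _ e0 e3 (hne 2 3 (by decide)) e4 e1 e2 (hne 2 3 (by decide)) e4 (hne 0 1 (by decide))
  have F9 : H.Adj (E.symm 0) (E.symm 1) → H.Adj (E.symm 1) (E.symm 2) → H.Adj (E.symm 2) (E.symm 3) → H.Adj (E.symm 0) (E.symm 3) → ¬ H.Adj (E.symm 1) (E.symm 3) → H.Adj (E.symm 0) (E.symm 2) := fun e0 e1 e2 e3 e4 => h.cen _ _ _ _ _ _ e0 e3 (hne 1 3 (by decide)) e4 e1.symm e2 (hne 1 3 (by decide)) e4 (hne 0 2 (by decide))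
  have F10 : H.Adj (E.symm 0) (E.symm 1) → H.Adj (E.symm 1) (E.symm 3) → H.Adj (E.symm 2) (E.symm 3) → H.Adj (E.symm 0) (E.symm 2) → ¬ H.Adj (E.symm 1) (E.symm 2) → H.Adj (E.symm 0) (E.symm 3) := fun e0 e1 e2 e3 e4 => h.cen _ _ _ _ _ _ e0 e3 (hne 1 2 (by decide)) e4 e1.symm e2.symm (hne 1 2 (by decide)) e4 (hne 0 3 (by decide))
  have F11 : H.Adj (E.symm 0) (E.symm 1) → H.Adj (E.symm 0) (E.symm 2) → H.Adj (E.symm 1) (E.symm 2) → H.Adj (E.symm 0) (E.symm 3) ∨ H.Adj (E.symm 1) (E.symm 3) ∨ H.Adj (E.symm 2) (E.symm 3) := fun e0 e1 e2 => (h.k31 _ _ _ _ e0 e1 e2 (hne 3 0 (by decide)) (hne 3 1 (by decide)) (hne 3 2 (by decide))).imp SimpleGraph.Adj.symm (Or.imp SimpleGraph.Adj.symm SimpleGraph.Adj.symm)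
  have F12 : H.Adj (E.symm 0) (E.symm 1) → H.Adj (E.symm 0) (E.symm 3) → H.Adj (E.symm 1) (E.symm 3) → H.Adj (E.symm 0) (E.symm 2) ∨ H.Adj (E.symm 1) (E.symm 2) ∨ H.Adj (E.symm 2) (E.symm 3) := fun e0 e1 e2 => (h.k31 _ _ _ _ e0 e1 e2 (hne 2 0 (by decide)) (hne 2 1 (by decide)) (hne 2 3 (by decide))).imp SimpleGraph.Adj.symm (Or.imp SimpleGraph.Adj.symm id)
  have F13 : H.Adj (E.symm 0) (E.symm 2) → H.Adj (E.symm 0) (E.symm 3) → H.Adj (E.symm 2) (E.symm 3) → H.Adj (E.symm 0) (E.symm 1) ∨ H.Adj (E.symm 1) (E.symm 2) ∨ H.Adj (E.symm 1) (E.symm 3) := fun e0 e1 e2 => (h.k31 _ _ _ _ e0 e1 e2 (hne 1 0 (by decide)) (hne 1 2 (by decide)) (hne 1 3 (by decide))).imp SimpleGraph.Adj.symm (Or.imp id id)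
  have F14 : H.Adj (E.symm 1) (E.symm 2) → H.Adj (E.symm 1) (E.symm 3) → H.Adj (E.symm 2) (E.symm 3) → H.Adj (E.symm 0) (E.symm 1) ∨ H.Adj (E.symm 0) (E.symm 2) ∨ H.Adj (E.symm 0) (E.symm 3) := fun e0 e1 e2 => (h.k31 _ _ _ _ e0 e1 e2 (hne 0 1 (by decide)) (hne 0 2 (by decide)) (hne 0 3 (by decide))).imp id (Or.imp id id)
  by_cases x01 : H.Adj (E.symm 0) (E.symm 1)
  · by_cases x02 : H.Adj (E.symm 0) (E.symm 2)
    · by_cases x03 : H.Adj (E.symm 0) (E.symm 3)
      · by_cases x12 : H.Adj (E.symm 1) (E.symm 2)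
        · by_cases x13 : H.Adj (E.symm 1) (E.symm 3)
          · by_cases x23 : H.Adj (E.symm 2) (E.symm 3)
            · exfalso; clear h hne; grind
            · exact Or.inr <| Or.inr (emb4 diamond diaB diaB_adj E ![0, 1, 2, 3] (by decide)
                (iff_of_true x01 (by decide)) (iff_of_true x02 (by decide)) (iff_of_true x03 (by decide)) (iff_of_true x12 (by decide)) (iff_of_true x13 (by decide)) (iff_of_false x23 (by decide)))
          · by_cases x23 : H.Adj (E.symm 2) (E.symm 3)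
            · exact Or.inr <| Or.inr (emb4 diamond diaB diaB_adj E ![0, 2, 1, 3] (by decide)
                (iff_of_true x01 (by decide)) (iff_of_true x02 (by decide)) (iff_of_true x03 (by decide)) (iff_of_true x12 (by decide)) (iff_of_false x13 (by decide)) (iff_of_true x23 (by decide)))
            · exact Or.inr <| Or.inl (emb4 paw pawB pawB_adj E ![0, 1, 2, 3] (by decide)
                (iff_of_true x01 (by decide)) (iff_of_true x02 (by decide)) (iff_of_true x03 (by decide)) (iff_of_true x12 (by decide)) (iff_of_false x13 (by decide)) (iff_of_false x23 (by decide)))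
        · by_cases x13 : H.Adj (E.symm 1) (E.symm 3)
          · by_cases x23 : H.Adj (E.symm 2) (E.symm 3)
            · exact Or.inr <| Or.inr (emb4 diamond diaB diaB_adj E ![0, 2, 3, 1] (by decide)
                (iff_of_true x01 (by decide)) (iff_of_true x02 (by decide)) (iff_of_true x03 (by decide)) (iff_of_false x12 (by decide)) (iff_of_true x13 (by decide)) (iff_of_true x23 (by decide)))
            · exact Or.inr <| Or.inl (emb4 paw pawB pawB_adj E ![0, 1, 3, 2] (by decide)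
                (iff_of_true x01 (by decide)) (iff_of_true x02 (by decide)) (iff_of_true x03 (by decide)) (iff_of_false x12 (by decide)) (iff_of_true x13 (by decide)) (iff_of_false x23 (by decide)))
          · by_cases x23 : H.Adj (E.symm 2) (E.symm 3)
            · exact Or.inr <| Or.inl (emb4 paw pawB pawB_adj E ![0, 3, 1, 2] (by decide)
                (iff_of_true x01 (by decide)) (iff_of_true x02 (by decide)) (iff_of_true x03 (by decide)) (iff_of_false x12 (by decide)) (iff_of_false x13 (by decide)) (iff_of_true x23 (by decide)))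
            · exfalso; clear h hne; grind
      · by_cases x12 : H.Adj (E.symm 1) (E.symm 2)
        · by_cases x13 : H.Adj (E.symm 1) (E.symm 3)
          · by_cases x23 : H.Adj (E.symm 2) (E.symm 3)
            · exact Or.inr <| Or.inr (emb4 diamond diaB diaB_adj E ![2, 0, 1, 3] (by decide)
                (iff_of_true x01 (by decide)) (iff_of_true x02 (by decide)) (iff_of_false x03 (by decide)) (iff_of_true x12 (by decide)) (iff_of_true x13 (by decide)) (iff_of_true x23 (by decide)))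
            · exact Or.inr <| Or.inl (emb4 paw pawB pawB_adj E ![1, 0, 2, 3] (by decide)
                (iff_of_true x01 (by decide)) (iff_of_true x02 (by decide)) (iff_of_false x03 (by decide)) (iff_of_true x12 (by decide)) (iff_of_true x13 (by decide)) (iff_of_false x23 (by decide)))
          · by_cases x23 : H.Adj (E.symm 2) (E.symm 3)
            · exact Or.inr <| Or.inl (emb4 paw pawB pawB_adj E ![1, 2, 0, 3] (by decide)
                (iff_of_true x01 (by decide)) (iff_of_true x02 (by decide)) (iff_of_false x03 (by decide)) (iff_of_true x12 (by decide)) (iff_of_false x13 (by decide)) (iff_of_true x23 (by decide)))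
            · exfalso; clear h hne; grind
        · by_cases x13 : H.Adj (E.symm 1) (E.symm 3)
          · by_cases x23 : H.Adj (E.symm 2) (E.symm 3)
            · exfalso; clear h hne; grind
            · exact Or.inl (emb4 (SimpleGraph.pathGraph 4) p4B p4B_adj E ![1, 2, 0, 3] (by decide)
                (iff_of_true x01 (by decide)) (iff_of_true x02 (by decide)) (iff_of_false x03 (by decide)) (iff_of_false x12 (by decide)) (iff_of_true x13 (by decide)) (iff_of_false x23 (by decide)))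
          · by_cases x23 : H.Adj (E.symm 2) (E.symm 3)
            · exact Or.inl (emb4 (SimpleGraph.pathGraph 4) p4B p4B_adj E ![1, 0, 2, 3] (by decide)
                (iff_of_true x01 (by decide)) (iff_of_true x02 (by decide)) (iff_of_false x03 (by decide)) (iff_of_false x12 (by decide)) (iff_of_false x13 (by decide)) (iff_of_true x23 (by decide)))
            · exfalso; clear h hne; grind
    · by_cases x03 : H.Adj (E.symm 0) (E.symm 3)
      · by_cases x12 : H.Adj (E.symm 1) (E.symm 2)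
        · by_cases x13 : H.Adj (E.symm 1) (E.symm 3)
          · by_cases x23 : H.Adj (E.symm 2) (E.symm 3)
            · exact Or.inr <| Or.inr (emb4 diamond diaB diaB_adj E ![2, 0, 3, 1] (by decide)
                (iff_of_true x01 (by decide)) (iff_of_false x02 (by decide)) (iff_of_true x03 (by decide)) (iff_of_true x12 (by decide)) (iff_of_true x13 (by decide)) (iff_of_true x23 (by decide)))
            · exact Or.inr <| Or.inl (emb4 paw pawB pawB_adj E ![1, 0, 3, 2] (by decide)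
                (iff_of_true x01 (by decide)) (iff_of_false x02 (by decide)) (iff_of_true x03 (by decide)) (iff_of_true x12 (by decide)) (iff_of_true x13 (by decide)) (iff_of_false x23 (by decide)))
          · by_cases x23 : H.Adj (E.symm 2) (E.symm 3)
            · exfalso; clear h hne; grind
            · exact Or.inl (emb4 (SimpleGraph.pathGraph 4) p4B p4B_adj E ![1, 2, 3, 0] (by decide)
                (iff_of_true x01 (by decide)) (iff_of_false x02 (by decide)) (iff_of_true x03 (by decide)) (iff_of_true x12 (by decide)) (iff_of_false x13 (by decide)) (iff_of_false x23 (by decide)))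
        · by_cases x13 : H.Adj (E.symm 1) (E.symm 3)
          · by_cases x23 : H.Adj (E.symm 2) (E.symm 3)
            · exact Or.inr <| Or.inl (emb4 paw pawB pawB_adj E ![1, 2, 3, 0] (by decide)
                (iff_of_true x01 (by decide)) (iff_of_false x02 (by decide)) (iff_of_true x03 (by decide)) (iff_of_false x12 (by decide)) (iff_of_true x13 (by decide)) (iff_of_true x23 (by decide)))
            · exfalso; clear h hne; grind
          · by_cases x23 : H.Adj (E.symm 2) (E.symm 3)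
            · exact Or.inl (emb4 (SimpleGraph.pathGraph 4) p4B p4B_adj E ![1, 0, 3, 2] (by decide)
                (iff_of_true x01 (by decide)) (iff_of_false x02 (by decide)) (iff_of_true x03 (by decide)) (iff_of_false x12 (by decide)) (iff_of_false x13 (by decide)) (iff_of_true x23 (by decide)))
            · exfalso; clear h hne; grind
      · by_cases x12 : H.Adj (E.symm 1) (E.symm 2)
        · by_cases x13 : H.Adj (E.symm 1) (E.symm 3)
          · by_cases x23 : H.Adj (E.symm 2) (E.symm 3)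
            · exact Or.inr <| Or.inl (emb4 paw pawB pawB_adj E ![3, 0, 1, 2] (by decide)
                (iff_of_true x01 (by decide)) (iff_of_false x02 (by decide)) (iff_of_false x03 (by decide)) (iff_of_true x12 (by decide)) (iff_of_true x13 (by decide)) (iff_of_true x23 (by decide)))
            · exfalso; clear h hne; grind
          · by_cases x23 : H.Adj (E.symm 2) (E.symm 3)
            · exact Or.inl (emb4 (SimpleGraph.pathGraph 4) p4B p4B_adj E ![0, 1, 2, 3] (by decide)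
                (iff_of_true x01 (by decide)) (iff_of_false x02 (by decide)) (iff_of_false x03 (by decide)) (iff_of_true x12 (by decide)) (iff_of_false x13 (by decide)) (iff_of_true x23 (by decide)))
            · exfalso; clear h hne; grind
        · by_cases x13 : H.Adj (E.symm 1) (E.symm 3)
          · by_cases x23 : H.Adj (E.symm 2) (E.symm 3)
            · exact Or.inl (emb4 (SimpleGraph.pathGraph 4) p4B p4B_adj E ![0, 1, 3, 2] (by decide)
                (iff_of_true x01 (by decide)) (iff_of_false x02 (by decide)) (iff_of_false x03 (by decide)) (iff_of_false x12 (by decide)) (iff_of_true x13 (by decide)) (iff_of_true x23 (by decide)))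
            · exfalso; clear h hne; grind
          · by_cases x23 : H.Adj (E.symm 2) (E.symm 3)
            · exfalso; clear h hne; grind
            · exfalso; clear h hne; grind
  · by_cases x02 : H.Adj (E.symm 0) (E.symm 2)
    · by_cases x03 : H.Adj (E.symm 0) (E.symm 3)
      · by_cases x12 : H.Adj (E.symm 1) (E.symm 2)
        · by_cases x13 : H.Adj (E.symm 1) (E.symm 3)
          · by_cases x23 : H.Adj (E.symm 2) (E.symm 3)
            · exact Or.inr <| Or.inr (emb4 diamond diaB diaB_adj E ![2, 3, 0, 1] (by decide)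
                (iff_of_false x01 (by decide)) (iff_of_true x02 (by decide)) (iff_of_true x03 (by decide)) (iff_of_true x12 (by decide)) (iff_of_true x13 (by decide)) (iff_of_true x23 (by decide)))
            · exfalso; clear h hne; grind
          · by_cases x23 : H.Adj (E.symm 2) (E.symm 3)
            · exact Or.inr <| Or.inl (emb4 paw pawB pawB_adj E ![1, 3, 0, 2] (by decide)
                (iff_of_false x01 (by decide)) (iff_of_true x02 (by decide)) (iff_of_true x03 (by decide)) (iff_of_true x12 (by decide)) (iff_of_false x13 (by decide)) (iff_of_true x23 (by decide)))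
            · exact Or.inl (emb4 (SimpleGraph.pathGraph 4) p4B p4B_adj E ![1, 3, 2, 0] (by decide)
                (iff_of_false x01 (by decide)) (iff_of_true x02 (by decide)) (iff_of_true x03 (by decide)) (iff_of_true x12 (by decide)) (iff_of_false x13 (by decide)) (iff_of_false x23 (by decide)))
        · by_cases x13 : H.Adj (E.symm 1) (E.symm 3)
          · by_cases x23 : H.Adj (E.symm 2) (E.symm 3)
            · exact Or.inr <| Or.inl (emb4 paw pawB pawB_adj E ![1, 3, 2, 0] (by decide)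
                (iff_of_false x01 (by decide)) (iff_of_true x02 (by decide)) (iff_of_true x03 (by decide)) (iff_of_false x12 (by decide)) (iff_of_true x13 (by decide)) (iff_of_true x23 (by decide)))
            · exact Or.inl (emb4 (SimpleGraph.pathGraph 4) p4B p4B_adj E ![1, 3, 0, 2] (by decide)
                (iff_of_false x01 (by decide)) (iff_of_true x02 (by decide)) (iff_of_true x03 (by decide)) (iff_of_false x12 (by decide)) (iff_of_true x13 (by decide)) (iff_of_false x23 (by decide)))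
          · by_cases x23 : H.Adj (E.symm 2) (E.symm 3)
            · exfalso; clear h hne; grind
            · exfalso; clear h hne; grind
      · by_cases x12 : H.Adj (E.symm 1) (E.symm 2)
        · by_cases x13 : H.Adj (E.symm 1) (E.symm 3)
          · by_cases x23 : H.Adj (E.symm 2) (E.symm 3)
            · exact Or.inr <| Or.inl (emb4 paw pawB pawB_adj E ![3, 1, 0, 2] (by decide)
                (iff_of_false x01 (by decide)) (iff_of_true x02 (by decide)) (iff_of_false x03 (by decide)) (iff_of_true x12 (by decide)) (iff_of_true x13 (by decide)) (iff_of_true x23 (by decide)))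
            · exact Or.inl (emb4 (SimpleGraph.pathGraph 4) p4B p4B_adj E ![0, 2, 1, 3] (by decide)
                (iff_of_false x01 (by decide)) (iff_of_true x02 (by decide)) (iff_of_false x03 (by decide)) (iff_of_true x12 (by decide)) (iff_of_true x13 (by decide)) (iff_of_false x23 (by decide)))
          · by_cases x23 : H.Adj (E.symm 2) (E.symm 3)
            · exfalso; clear h hne; grind
            · exfalso; clear h hne; grind
        · by_cases x13 : H.Adj (E.symm 1) (E.symm 3)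
          · by_cases x23 : H.Adj (E.symm 2) (E.symm 3)
            · exact Or.inl (emb4 (SimpleGraph.pathGraph 4) p4B p4B_adj E ![0, 3, 1, 2] (by decide)
                (iff_of_false x01 (by decide)) (iff_of_true x02 (by decide)) (iff_of_false x03 (by decide)) (iff_of_false x12 (by decide)) (iff_of_true x13 (by decide)) (iff_of_true x23 (by decide)))
            · exfalso; clear h hne; grind
          · by_cases x23 : H.Adj (E.symm 2) (E.symm 3)
            · exfalso; clear h hne; grind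
            · exfalso; clear h hne; grind
    · by_cases x03 : H.Adj (E.symm 0) (E.symm 3)
      · by_cases x12 : H.Adj (E.symm 1) (E.symm 2)
        · by_cases x13 : H.Adj (E.symm 1) (E.symm 3)
          · by_cases x23 : H.Adj (E.symm 2) (E.symm 3)
            · exact Or.inr <| Or.inl (emb4 paw pawB pawB_adj E ![3, 1, 2, 0] (by decide)
                (iff_of_false x01 (by decide)) (iff_of_false x02 (by decide)) (iff_of_true x03 (by decide)) (iff_of_true x12 (by decide)) (iff_of_true x13 (by decide)) (iff_of_true x23 (by decide)))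
            · exact Or.inl (emb4 (SimpleGraph.pathGraph 4) p4B p4B_adj E ![0, 2, 3, 1] (by decide)
                (iff_of_false x01 (by decide)) (iff_of_false x02 (by decide)) (iff_of_true x03 (by decide)) (iff_of_true x12 (by decide)) (iff_of_true x13 (by decide)) (iff_of_false x23 (by decide)))
          · by_cases x23 : H.Adj (E.symm 2) (E.symm 3)
            · exact Or.inl (emb4 (SimpleGraph.pathGraph 4) p4B p4B_adj E ![0, 3, 2, 1] (by decide)
                (iff_of_false x01 (by decide)) (iff_of_false x02 (by decide)) (iff_of_true x03 (by decide)) (iff_of_true x12 (by decide)) (iff_of_false x13 (by decide)) (iff_of_true x23 (by decide)))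
            · exfalso; clear h hne; grind
        · by_cases x13 : H.Adj (E.symm 1) (E.symm 3)
          · by_cases x23 : H.Adj (E.symm 2) (E.symm 3)
            · exfalso; clear h hne; grind
            · exfalso; clear h hne; grind
          · by_cases x23 : H.Adj (E.symm 2) (E.symm 3)
            · exfalso; clear h hne; grind
            · exfalso; clear h hne; grind
      · by_cases x12 : H.Adj (E.symm 1) (E.symm 2)
        · by_cases x13 : H.Adj (E.symm 1) (E.symm 3)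
          · by_cases x23 : H.Adj (E.symm 2) (E.symm 3)
            · exfalso; clear h hne; grind
            · exfalso; clear h hne; grind
          · by_cases x23 : H.Adj (E.symm 2) (E.symm 3)
            · exfalso; clear h hne; grind
            · exfalso; clear h hne; grind
        · by_cases x13 : H.Adj (E.symm 1) (E.symm 3)
          · by_cases x23 : H.Adj (E.symm 2) (E.symm 3)
            · exfalso; clear h hne; grind
            · exfalso; clear h hne; grind
          · by_cases x23 : H.Adj (E.symm 2) (E.symm 3)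
            · exfalso; clear h hne; grind
            · exfalso; clear h hne; grind

lemma three (h : Good H) (E : W ≃ Fin 3) : Three H := by
  have hne : ∀ i j : Fin 3, i ≠ j → E.symm i ≠ E.symm j := fun i j hij hh => hij (E.symm.injective hh)
  have F0 : H.Adj (E.symm 0) (E.symm 1) ∨ H.Adj (E.symm 0) (E.symm 2) ∨ H.Adj (E.symm 1) (E.symm 2) := h.alpha _ _ _ (hne 0 1 (by decide)) (hne 0 2 (by decide)) (hne 1 2 (by decide))
  by_cases x01 : H.Adj (E.symm 0) (E.symm 1)
  · by_cases x02 : H.Adj (E.symm 0) (E.symm 2)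
    · by_cases x12 : H.Adj (E.symm 1) (E.symm 2)
      · exact Or.inr <| Or.inl (emb3 paw pawB pawB_adj E ![0, 1, 2] (by decide)
          (iff_of_true x01 (by decide)) (iff_of_true x02 (by decide)) (iff_of_true x12 (by decide)))
      · exact Or.inl (emb3 (SimpleGraph.pathGraph 4) p4B p4B_adj E ![1, 0, 2] (by decide)
          (iff_of_true x01 (by decide)) (iff_of_true x02 (by decide)) (iff_of_false x12 (by decide)))
    · by_cases x12 : H.Adj (E.symm 1) (E.symm 2)
      · exact Or.inl (emb3 (SimpleGraph.pathGraph 4) p4B p4B_adj E ![0, 1, 2] (by decide)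
          (iff_of_true x01 (by decide)) (iff_of_false x02 (by decide)) (iff_of_true x12 (by decide)))
      · exact Or.inl (emb3 (SimpleGraph.pathGraph 4) p4B p4B_adj E ![0, 1, 3] (by decide)
          (iff_of_true x01 (by decide)) (iff_of_false x02 (by decide)) (iff_of_false x12 (by decide)))
  · by_cases x02 : H.Adj (E.symm 0) (E.symm 2)
    · by_cases x12 : H.Adj (E.symm 1) (E.symm 2)
      · exact Or.inl (emb3 (SimpleGraph.pathGraph 4) p4B p4B_adj E ![0, 2, 1] (by decide)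
          (iff_of_false x01 (by decide)) (iff_of_true x02 (by decide)) (iff_of_true x12 (by decide)))
      · exact Or.inl (emb3 (SimpleGraph.pathGraph 4) p4B p4B_adj E ![0, 3, 1] (by decide)
          (iff_of_false x01 (by decide)) (iff_of_true x02 (by decide)) (iff_of_false x12 (by decide)))
    · by_cases x12 : H.Adj (E.symm 1) (E.symm 2)
      · exact Or.inl (emb3 (SimpleGraph.pathGraph 4) p4B p4B_adj E ![0, 2, 3] (by decide)
          (iff_of_false x01 (by decide)) (iff_of_false x02 (by decide)) (iff_of_true x12 (by decide)))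
      · exfalso; rcases F0 with F0 | F0 | F0 <;> contradiction

lemma two' (E : W ≃ Fin 2) : Three H := by
  by_cases x01 : H.Adj (E.symm 0) (E.symm 1)
  · exact Or.inl (emb2 (SimpleGraph.pathGraph 4) p4B p4B_adj E ![0, 1] (by decide)
      (iff_of_true x01 (by decide)))
  · exact Or.inl (emb2 (SimpleGraph.pathGraph 4) p4B p4B_adj E ![0, 2] (by decide)
      (iff_of_false x01 (by decide)))

lemma one' (E : W ≃ Fin 1) : Three H := by
  refine Or.inl (embN _ E ![0] (by decide) ?_)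
  intro i j hij
  exfalso; omega

lemma zero' (E : W ≃ Fin 0) : Three H := by
  refine Or.inl (embN _ E ![] (by decide) ?_)
  intro i j hij
  exact i.elim0

theorem three_of_good [Finite W] (h : Good H) : Three H := by
  have : Fintype W := Fintype.ofFinite W
  by_cases h5 : 5 ≤ Fintype.card W
  · exfalso
    obtain ⟨f⟩ : Nonempty (Fin 5 ↪ W) := Function.Embedding.nonempty_of_card_le (by simpa using h5)
    have hne : ∀ i j : Fin 5, i ≠ j → f i ≠ f j := fun i j hij hh => hij (f.injective hh)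
    exact no_five h (f 0) (f 1) (f 2) (f 3) (f 4) (hne _ _ (by decide)) (hne _ _ (by decide))
      (hne _ _ (by decide)) (hne _ _ (by decide)) (hne _ _ (by decide)) (hne _ _ (by decide))
      (hne _ _ (by decide)) (hne _ _ (by decide)) (hne _ _ (by decide)) (hne _ _ (by decide))
  · have hlt : Fintype.card W < 5 := by omega
    obtain ⟨n, hn⟩ : ∃ n, Fintype.card W = n := ⟨_, rfl⟩
    have E : W ≃ Fin n := Fintype.equivFinOfCardEq hn
    rw [hn] at hlt
    interval_cases n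
    · exact zero' E
    · exact one' E
    · exact two' E
    · exact three h E
    · exact four h E

end Pool.Agent.Y394.TM
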