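import Pool.Agent.H175R2.Defs

/-! Definitions for MP_d0d08e_co: induced topological minors and clique-width. -/

set_option autoImplicit false

namespace Pool.Agent.Y394.TM

open Pool.Agent.H175R2

/-- `K` is (isomorphic to) a subdivision of `H`: every edge `e` of `H` has been replaced by a path
`p e 0, p e 1, …, p e (ℓ e)` with `ℓ e ≥ 1` edges joining the two (images under the injection `b` of
the) ends of `e`; the interior vertices of these paths are new and the paths are internally
vertex-disjoint; `K` has no further vertices and no further edges. -/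
def IsSubdivision {W U : Type} (H : SimpleGraph W) (K : SimpleGraph U) : Prop :=
  ∃ (b : W → U) (ℓ : Sym2 W → ℕ) (p : Sym2 W → ℕ → U),
    Function.Injective b ∧
    (∀ e ∈ H.edgeSet, 1 ≤ ℓ e ∧ s(p e 0, p e (ℓ e)) = e.map b) ∧
    (∀ e ∈ H.edgeSet, ∀ i, 0 < i → i < ℓ e → ∀ w, p e i ≠ b w) ∧
    (∀ e ∈ H.edgeSet, ∀ e' ∈ H.edgeSet, ∀ i j, 0 < i → i < ℓ e → 0 < j → j < ℓ e' →
      p e i = p e' j → e = e' ∧ i = j) ∧
    (∀ x, (∃ w, x = b w) ∨ ∃ e ∈ H.edgeSet, ∃ i, 0 < i ∧ i < ℓ e ∧ x = p e i) ∧
    (∀ x y, K.Adj x y ↔ ∃ e ∈ H.edgeSet, ∃ i < ℓ e, s(x, y) = s(p e i, p e (i + 1)))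

/-- `H` is an induced topological minor of `G`: some induced subgraph of `G` is a subdivision
of `H`. -/
def IsITM {W V : Type} (H : SimpleGraph W) (G : SimpleGraph V) : Prop :=
  ∃ S : Set V, IsSubdivision H (G.induce S)

/-- Clique-width is bounded on the class of finite graphs that do not contain `H` as an induced
topological minor. -/
def BddCwITM {W : Type} (H : SimpleGraph W) : Prop :=
  ∃ c : ℕ, ∀ (V : Type) [Finite V] (G : SimpleGraph V), ¬ IsITM H G → cliqueWidth G ≤ c

end Pool.Agent.Y394.TM
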