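import Pool.Agent.Y394.TM.Struct

/-! 2-connected graphs without the diamond as an induced topological minor. -/

set_option autoImplicit false

namespace Pool.Agent.Y394.TM

open Finset Classical Pool.Agent.H175R2

variable {V : Type} {G : SimpleGraph V}

lemma le0 {P : ℕ → Prop} (h0 : P 0) : ∀ i ≤ 0, P i := by
  intro i hi; interval_cases i; assumption

lemma ip1 (z : V) : IP G 0 (fun _ => z) := by
  refine ⟨fun i hi j hj _ => by omega, fun i hi j hj => ?_⟩
  exact iff_of_false (SimpleGraph.irrefl _) (by omega)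

lemma no_dia (hno : ¬ IsITM diamond G) {x y u z : V} (hxy : G.Adj x y) (hxu : G.Adj x u)
    (hxz : G.Adj x z) (hyu : G.Adj y u) (hyz : G.Adj y z) (huz : u ≠ z) : G.Adj u z := by
  by_contra hcon
  apply hno
  refine theta_itm (m := 1) (k := 0) (a := 1) (p := pt2 u y) (q := fun _ => z) (v := x) le_rfl
    (ip2 hyu.symm) (ip1 z) ?_ ?_ ?_ ?_ ?_ ?_ le_rfl
  · exact le1 hxu.ne hxy.ne
  · exact le0 hxz.ne
  · exact le1 (le0 huz) (le0 hyz.ne)
  · exact le1 (by simp [pt2, hxu]) (by simp [pt2, hxy])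
  · exact le0 (by simp [hxz])
  · exact le1 (le0 (by simp [pt2, hcon])) (le0 (by simp [pt2, hyz]))

/-- a vertex with exactly two neighbours on a cycle -/
lemma two_on_cycle {m : ℕ} {p : ℕ → V} {v w : V} (hp : IP G m p)
    (hvp : ∀ i ≤ m, v ≠ p i) (avp : ∀ i ≤ m, (G.Adj v (p i) ↔ (i = 0 ∨ i = m)))
    (hwp : ∀ i ≤ m, p i ≠ w) (hvw : v ≠ w) (avw : ¬ G.Adj v w) {a b : ℕ} (hab : a < b)
    (hb : b ≤ m) (hN : ∀ i ≤ m, (G.Adj w (p i) ↔ (i = a ∨ i = b))) : IsITM diamond G := by
  set P : ℕ → V := fun t => if t < b - a then p (a + 1 + t) else w with hP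
  set Q : ℕ → V := fun t => if t < a then p (a - 1 - t) else if t = a then v else
    p (m - (t - a - 1)) with hQ
  have P1 : ∀ t, t < b - a → P t = p (a + 1 + t) := fun t ht => by rw [hP]; simp only; rw [if_pos ht]
  have P2 : ∀ t, ¬ t < b - a → P t = w := fun t ht => by rw [hP]; simp only; rw [if_neg ht]
  have Q1 : ∀ t, t < a → Q t = p (a - 1 - t) := fun t ht => by rw [hQ]; simp only; rw [if_pos ht]
  have Q2 : Q a = v := by rw [hQ]; simp
  have Q3 : ∀ t, a < t → Q t = p (m - (t - a - 1)) := fun t ht => by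
    rw [hQ]; simp only; rw [if_neg (by omega), if_neg (by omega)]
  have A : ∀ i ≤ m, ∀ j ≤ m, (G.Adj (p i) (p j) ↔ (i + 1 = j ∨ j + 1 = i)) := hp.adj
  have B : ∀ i ≤ m, ∀ j ≤ m, (p i = p j ↔ i = j) := fun i hi j hj =>
    ⟨hp.inj i hi j hj, fun h => by rw [h]⟩
  have avp' : ∀ i ≤ m, (G.Adj (p i) v ↔ (i = 0 ∨ i = m)) := fun i hi => by
    rw [G.adj_comm]; exact avp i hi
  have hN' : ∀ i ≤ m, (G.Adj (p i) w ↔ (i = a ∨ i = b)) := fun i hi => by
    rw [G.adj_comm]; exact hN i hi
  have hPip : IP G (b - a) P := by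
    constructor
    · intro i hi j hj hij
      by_cases h1 : i < b - a <;> by_cases h2 : j < b - a
      · rw [P1 i h1, P1 j h2, B _ (by omega) _ (by omega)] at hij; omega
      · rw [P1 i h1, P2 j h2] at hij; exact absurd hij (hwp _ (by omega))
      · rw [P2 i h1, P1 j h2] at hij; exact absurd hij.symm (hwp _ (by omega))
      · omega
    · intro i hi j hj
      by_cases h1 : i < b - a <;> by_cases h2 : j < b - a
      · rw [P1 i h1, P1 j h2, A _ (by omega) _ (by omega)]; omega
      · rw [P1 i h1, P2 j h2, hN' _ (by omega)]; omega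
      · rw [P2 i h1, P1 j h2, hN _ (by omega)]; omega
      · rw [P2 i h1, P2 j h2]
        exact iff_of_false (SimpleGraph.irrefl _) (by omega)
  have hQip : IP G (a + (m - b)) Q := by
    constructor
    · intro i hi j hj hij
      rcases lt_trichotomy i a with h1 | h1 | h1 <;> rcases lt_trichotomy j a with h2 | h2 | h2
      · rw [Q1 i h1, Q1 j h2, B _ (by omega) _ (by omega)] at hij; omega
      · rw [Q1 i h1, h2, Q2] at hij; exact absurd hij.symm (hvp _ (by omega))
      · rw [Q1 i h1, Q3 j h2, B _ (by omega) _ (by omega)] at hij; omega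
      · rw [h1, Q2, Q1 j h2] at hij; exact absurd hij (hvp _ (by omega))
      · omega
      · rw [h1, Q2, Q3 j h2] at hij; exact absurd hij (hvp _ (by omega))
      · rw [Q3 i h1, Q1 j h2, B _ (by omega) _ (by omega)] at hij; omega
      · rw [Q3 i h1, h2, Q2] at hij; exact absurd hij.symm (hvp _ (by omega))
      · rw [Q3 i h1, Q3 j h2, B _ (by omega) _ (by omega)] at hij; omega
    · intro i hi j hj
      rcases lt_trichotomy i a with h1 | h1 | h1 <;> rcases lt_trichotomy j a with h2 | h2 | h2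
      · rw [Q1 i h1, Q1 j h2, A _ (by omega) _ (by omega)]; omega
      · rw [Q1 i h1, h2, Q2, avp' _ (by omega)]; omega
      · rw [Q1 i h1, Q3 j h2, A _ (by omega) _ (by omega)]; omega
      · rw [h1, Q2, Q1 j h2, avp _ (by omega)]; omega
      · rw [h1, h2]; exact iff_of_false (SimpleGraph.irrefl _) (by omega)
      · rw [h1, Q2, Q3 j h2, avp _ (by omega)]; omega
      · rw [Q3 i h1, Q1 j h2, A _ (by omega) _ (by omega)]; omega
      · rw [Q3 i h1, h2, Q2, avp' _ (by omega)]; omega
      · rw [Q3 i h1, Q3 j h2, A _ (by omega) _ (by omega)]; omega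
  refine theta_itm (m := b - a) (k := a + (m - b)) (a := b - a - 1) (p := P) (q := Q) (v := p a)
    (by omega) hPip hQip ?_ ?_ ?_ ?_ ?_ ?_ (by omega)
  · intro i hi
    by_cases h1 : i < b - a
    · rw [P1 i h1, Ne, B _ (by omega) _ (by omega)]; omega
    · rw [P2 i h1]; exact hwp _ (by omega)
  · intro i hi
    rcases lt_trichotomy i a with h1 | h1 | h1
    · rw [Q1 i h1, Ne, B _ (by omega) _ (by omega)]; omega
    · rw [h1, Q2]; exact (hvp _ (by omega)).symm
    · rw [Q3 i h1, Ne, B _ (by omega) _ (by omega)]; omega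
  · intro i hi j hj
    by_cases h1 : i < b - a
    · rw [P1 i h1]
      rcases lt_trichotomy j a with h2 | h2 | h2
      · rw [Q1 j h2, Ne, B _ (by omega) _ (by omega)]; omega
      · rw [h2, Q2]; exact (hvp _ (by omega)).symm
      · rw [Q3 j h2, Ne, B _ (by omega) _ (by omega)]; omega
    · rw [P2 i h1]
      rcases lt_trichotomy j a with h2 | h2 | h2
      · rw [Q1 j h2]; exact (hwp _ (by omega)).symm
      · rw [h2, Q2]; exact hvw.symm
      · rw [Q3 j h2]; exact (hwp _ (by omega)).symm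
  · intro i hi
    by_cases h1 : i < b - a
    · rw [P1 i h1, A _ (by omega) _ (by omega)]; omega
    · rw [P2 i h1, hN' _ (by omega)]; omega
  · intro i hi
    rcases lt_trichotomy i a with h1 | h1 | h1
    · rw [Q1 i h1, A _ (by omega) _ (by omega)]; omega
    · rw [h1, Q2, avp' _ (by omega)]; omega
    · rw [Q3 i h1, A _ (by omega) _ (by omega)]; omega
  · intro i hi j hj
    by_cases h1 : i < b - a
    · rw [P1 i h1]
      rcases lt_trichotomy j a with h2 | h2 | h2
      · rw [Q1 j h2, A _ (by omega) _ (by omega)]; omega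
      · rw [h2, Q2, avp' _ (by omega)]; omega
      · rw [Q3 j h2, A _ (by omega) _ (by omega)]; omega
    · rw [P2 i h1]
      rcases lt_trichotomy j a with h2 | h2 | h2
      · rw [Q1 j h2, hN _ (by omega)]; omega
      · rw [h2, Q2]
        exact iff_of_false (fun h => avw h.symm) (by omega)
      · rw [Q3 j h2, hN _ (by omega)]; omega

/-- a vertex with three consecutive neighbours on an induced path -/
lemma three_on_path {m : ℕ} {p : ℕ → V} {w : V} (hp : IP G m p) (hwp : ∀ i ≤ m, p i ≠ w)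
    {a b c : ℕ} (hab : a < b) (hbc : b < c) (hc : c ≤ m) (ha : G.Adj w (p a))
    (hb : G.Adj w (p b)) (hcw : G.Adj w (p c)) (h1 : ∀ i, a < i → i < b → ¬ G.Adj w (p i))
    (h2 : ∀ i, b < i → i < c → ¬ G.Adj w (p i)) : IsITM diamond G := by
  have A : ∀ i ≤ m, ∀ j ≤ m, (G.Adj (p i) (p j) ↔ (i + 1 = j ∨ j + 1 = i)) := hp.adj
  have B : ∀ i ≤ m, ∀ j ≤ m, (p i = p j ↔ i = j) := fun i hi j hj =>
    ⟨hp.inj i hi j hj, fun h => by rw [h]⟩
  refine theta_itm (m := b - a) (k := c - b - 1) (a := b - a) (p := fun t => p (a + t))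
    (q := fun t => p (c - t)) (v := w) (by omega) ⟨fun i hi j hj hij => ?_, fun i hi j hj => ?_⟩
    ⟨fun i hi j hj hij => ?_, fun i hi j hj => ?_⟩ ?_ ?_ ?_ ?_ ?_ ?_ le_rfl
  · rw [B _ (by omega) _ (by omega)] at hij; omega
  · rw [A _ (by omega) _ (by omega)]; omega
  · rw [B _ (by omega) _ (by omega)] at hij; omega
  · rw [A _ (by omega) _ (by omega)]; omega
  · exact fun i hi => (hwp _ (by omega)).symm
  · exact fun i hi => (hwp _ (by omega)).symm
  · intro i hi j hj
    rw [Ne, B _ (by omega) _ (by omega)]; omega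
  · intro i hi
    constructor
    · intro h
      by_contra hcon
      push Not at hcon
      exact h1 (a + i) (by omega) (by omega) h
    · rintro (rfl | rfl)
      · exact ha
      · have : a + (b - a) = b := by omega
        rw [this]; exact hb
  · intro i hi
    constructor
    · intro h
      by_contra hcon
      exact h2 (c - i) (by omega) (by omega) h
    · rintro rfl
      exact hcw
  · intro i hi j hj
    rw [A _ (by omega) _ (by omega)]; omega

theorem dia_no_triangle [Fintype V] (h2 : TwoConn G) (hno : ¬ IsITM diamond G) {v : V}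
    (hd : 2 < (univ.filter (fun y => G.Adj v y)).card) :
    ∃ x y, G.Adj v x ∧ G.Adj v y ∧ G.Adj x y := by
  by_contra htri
  push Not at htri
  obtain ⟨x, hx⟩ : (univ.filter (fun y => G.Adj v y)).Nonempty := card_pos.1 (by omega)
  rw [mem_filter] at hx
  obtain ⟨y, hy, hyx, _⟩ := third hd x x
  obtain ⟨m, p, hm, hip, hvp, avp, hz, _⟩ := first_step h2 hx.2 hy hyx.symm
  have hv0 : G.Adj v (p 0) := (avp 0 (by omega)).2 (Or.inl rfl)
  have hvm : G.Adj v (p m) := (avp m le_rfl).2 (Or.inr rfl)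
  have hm2 : 2 ≤ m := by
    by_contra h
    have : m = 1 := by omega
    subst this
    exact htri _ _ hv0 hvm ((hip.adj 0 (by omega) 1 le_rfl).2 (Or.inl rfl))
  -- further neighbours of `v` see nothing on the path
  have hnz : ∀ z, G.Adj v z → (∀ i ≤ m, z ≠ p i) → ∀ i ≤ m, ¬ G.Adj z (p i) := by
    intro z hvz hzp i hi hadj
    have h1 := hz z hvz hzp i hi hadj
    have hm' : m = 2 := by omega
    subst hm'
    have hi1 : i = 1 := by omega
    subst hi1
    apply hno
    refine theta_itm (m := 2) (k := 0) (a := 1) (p := p) (q := fun _ => z) (v := v) hm hip (ip1 z)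
      hvp (le0 hvz.ne) (fun j hj => le0 (hzp j hj).symm) avp (le0 (by simp [hvz])) ?_ (by omega)
    intro j hj
    refine le0 ?_
    constructor
    · intro h
      have := hz z hvz hzp j hj h.symm
      omega
    · rintro ⟨rfl, _⟩
      exact hadj.symm
  obtain ⟨z, hvz, hz0, hzm⟩ := third hd (p 0) (p m)
  have hzp : ∀ i ≤ m, z ≠ p i := by
    intro i hi hh
    subst hh
    rcases (avp i hi).1 hvz with h | h
    · subst h; exact hz0 rfl
    · subst h; exact hzm rfl
  -- a path from the neighbours of `v` to the path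
  set S' : Set V := {x | x ≠ v ∧ ∀ i ≤ m, x ≠ p i} with hS'
  set R : V → V → Prop := fun a b => G.Adj v a ∧ ∃ j ≤ m, G.Adj b (p j) with hR
  obtain ⟨n, r, hr, hr0, hrn⟩ := cn_sq (h2.del v) (mem_erase.2 ⟨hvz.ne.symm, mem_univ z⟩)
    (mem_erase.2 ⟨(hvp 0 (by omega)).symm, mem_univ (p 0)⟩)
  have hex : ∃ t, t ≤ n ∧ ∃ i ≤ m, r t = p i := ⟨n, le_rfl, 0, by omega, hrn⟩
  obtain ⟨ht1, i0, hi0, ht2⟩ := Nat.find_spec hex
  set t := Nat.find hex with ht
  have htmin : ∀ s < t, ∀ i ≤ m, r s ≠ p i := fun s hs i hi hh =>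
    Nat.find_min hex hs ⟨by omega, i, hi, hh⟩
  have ht0 : t ≠ 0 := by
    intro h0
    rw [h0, hr0] at ht2
    exact hzp i0 hi0 ht2
  obtain ⟨k, q, hq, hRq, hmin⟩ := exists_min (G := G) (S := S') R ⟨t - 1, r, ⟨fun i hi => by
      refine ⟨?_, htmin i (by omega)⟩
      have := hr.mem i (by omega)
      rw [mem_coe, mem_erase] at this
      exact this.1, fun i hi => hr.adj i (by omega)⟩, by
      refine ⟨by rw [hr0]; exact hvz, i0, hi0, ?_⟩
      have := hr.adj (t - 1) (by omega)
      rw [Nat.sub_add_cancel (by omega), ht2] at this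
      exact this⟩
  have hqip := min_ip hq hRq hmin
  have hvq : ∀ i ≤ k, v ≠ q i := fun i hi => (hq.mem i hi).1.symm
  have hpq : ∀ i ≤ m, ∀ j ≤ k, p i ≠ q j := fun i hi j hj => ((hq.mem j hj).2 i hi).symm
  have avq : ∀ i ≤ k, (G.Adj v (q i) ↔ i = 0) := by
    intro i hi
    constructor
    · intro h
      exact (min_rel hq hmin hi le_rfl ⟨h, hRq.2⟩).1
    · rintro rfl
      exact hRq.1
  have onlyk : ∀ j ≤ k, (∃ i ≤ m, G.Adj (q j) (p i)) → j = k := fun j hj h =>
    (min_rel hq hmin (Nat.zero_le j) hj ⟨hRq.1, h⟩).2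
  have hk0 : ¬ G.Adj v (q k) := by
    intro h
    obtain ⟨j, hj, h'⟩ := hRq.2
    exact hnz (q k) h (fun i hi => (hpq i hi k le_rfl).symm) j hj h'
  have hwp : ∀ i ≤ m, p i ≠ q k := fun i hi => hpq i hi k le_rfl
  -- the neighbours of `q k`
  have hexa : ∃ a, a ≤ m ∧ G.Adj (q k) (p a) := by
    obtain ⟨j, hj, h'⟩ := hRq.2
    exact ⟨j, hj, h'⟩
  obtain ⟨ha1, ha2⟩ := Nat.find_spec hexa
  set a := Nat.find hexa with hadef
  have hamin : ∀ s < a, ¬ G.Adj (q k) (p s) := fun s hs h =>
    Nat.find_min hexa hs ⟨by omega, h⟩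
  by_cases hexb : ∃ b, a < b ∧ b ≤ m ∧ G.Adj (q k) (p b)
  · obtain ⟨hb0, hb1, hb2⟩ := Nat.find_spec hexb
    set b := Nat.find hexb with hbdef
    have hbmin : ∀ s, a < s → s < b → ¬ G.Adj (q k) (p s) := fun s hs0 hs h =>
      Nat.find_min hexb hs ⟨hs0, by omega, h⟩
    by_cases hexc : ∃ c, b < c ∧ c ≤ m ∧ G.Adj (q k) (p c)
    · obtain ⟨hc0, hc1, hc2⟩ := Nat.find_spec hexc
      set c := Nat.find hexc with hcdef
      have hcmin : ∀ s, b < s → s < c → ¬ G.Adj (q k) (p s) := fun s hs0 hs h =>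
        Nat.find_min hexc hs ⟨hs0, by omega, h⟩
      exact hno (three_on_path hip hwp hb0 hc0 hc1 ha2 hb2 hc2 hbmin hcmin)
    · push Not at hexc
      refine hno (two_on_cycle hip hvp avp hwp (hvq k le_rfl) hk0 hb0 hb1 ?_)
      intro i hi
      constructor
      · intro h
        by_contra hcon
        push Not at hcon
        rcases Nat.lt_or_ge i a with h1 | h1
        · exact hamin i h1 h
        · rcases Nat.lt_or_ge i b with h3 | h3
          · exact hbmin i (by omega) h3 h
          · exact hexc i (by omega) hi h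
      · rintro (h | h)
        · rw [h]; exact ha2
        · rw [h]; exact hb2
  · push Not at hexb
    refine hno (theta_itm hm hip hqip hvp hvq hpq avp avq (a := a) ?_ ha1)
    intro i hi j hj
    constructor
    · intro h
      have hjk := onlyk j hj ⟨i, hi, h.symm⟩
      refine ⟨?_, hjk⟩
      rw [hjk] at h
      by_contra hcon
      rcases Nat.lt_or_ge i a with h1 | h1
      · exact hamin i h1 h.symm
      · exact hexb i (by omega) hi h.symm
    · rintro ⟨rfl, rfl⟩
      exact ha2.symm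

theorem dia_clique [Fintype V] (h2 : TwoConn G) (hno : ¬ IsITM diamond G) {v x y : V}
    (hvx : G.Adj v x) (hvy : G.Adj v y) (hxy : G.Adj x y) : P4Free G univ := by
  -- a maximum clique containing the triangle
  set F : Finset (Finset V) := univ.filter (fun K => v ∈ K ∧ x ∈ K ∧ y ∈ K ∧
    ∀ a ∈ K, ∀ b ∈ K, a ≠ b → G.Adj a b) with hF
  have hFne : F.Nonempty := by
    refine ⟨{v, x, y}, ?_⟩
    rw [hF, mem_filter]
    refine ⟨mem_univ _, by simp, by simp, by simp, ?_⟩
    intro a ha b hb hab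
    simp only [mem_insert, mem_singleton] at ha hb
    rcases ha with rfl | rfl | rfl <;> rcases hb with rfl | rfl | rfl
    · exact absurd rfl hab
    · exact hvx
    · exact hvy
    · exact hvx.symm
    · exact absurd rfl hab
    · exact hxy
    · exact hvy.symm
    · exact hxy.symm
    · exact absurd rfl hab
  obtain ⟨K, hK, hmax⟩ := exists_max_image F Finset.card hFne
  rw [hF, mem_filter] at hK
  obtain ⟨_, hvK, hxK, hyK, hcl⟩ := hK
  have hnon : ∀ u, u ∉ K → ∃ z ∈ K, ¬ G.Adj u z := by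
    intro u hu
    by_contra hcon
    push Not at hcon
    have := hmax (insert u K) (by
      rw [hF, mem_filter]
      refine ⟨mem_univ _, mem_insert_of_mem hvK, mem_insert_of_mem hxK, mem_insert_of_mem hyK, ?_⟩
      intro a ha b hb hab
      rcases mem_insert.1 ha with ha' | ha'
      · rcases mem_insert.1 hb with hb' | hb'
        · exact absurd (ha'.trans hb'.symm) hab
        · rw [ha']; exact hcon b hb'
      · rcases mem_insert.1 hb with hb' | hb'
        · rw [hb']; exact (hcon a ha').symm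
        · exact hcl a ha' b hb' hab)
    rw [card_insert_of_notMem hu] at this
    omega
  have hone : ∀ u, u ∉ K → ∀ a ∈ K, ∀ b ∈ K, G.Adj u a → G.Adj u b → a = b := by
    intro u hu a ha b hb hua hub
    by_contra hab
    obtain ⟨z, hz, huz⟩ := hnon u hu
    have haz : a ≠ z := by rintro rfl; exact huz hua
    have hbz : b ≠ z := by rintro rfl; exact huz hub
    have huz' : u ≠ z := by rintro rfl; exact hu hz
    exact huz (no_dia hno (hcl a ha b hb hab) hua.symm (hcl a ha z hz haz) hub.symm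
      (hcl b hb z hz hbz) huz')
  by_cases hall : ∀ u, u ∈ K
  · intro a _ b _ c _ d _ hac had hbd _ _ _
    exact Or.inl (hcl a (hall a) c (hall c) hac)
  exfalso
  push Not at hall
  obtain ⟨u0, hu0⟩ := hall
  obtain ⟨c, hc, u, hu, hcu⟩ := h2.conn.2 K (subset_univ _) ⟨v, hvK⟩
    ⟨u0, mem_sdiff.2 ⟨mem_univ _, hu0⟩⟩
  have huK : u ∉ K := (mem_sdiff.1 hu).2
  have huc : u ≠ c := by rintro rfl; exact huK hc
  have hK2 : ∀ a b : V, ∃ d ∈ K, d ≠ a ∧ d ≠ b := by
    intro a b
    by_contra hcon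
    push Not at hcon
    have e1 : v = a ∨ v = b := by
      by_cases h : v = a
      · exact Or.inl h
      · exact Or.inr (hcon v hvK h)
    have e2 : x = a ∨ x = b := by
      by_cases h : x = a
      · exact Or.inl h
      · exact Or.inr (hcon x hxK h)
    have e3 : y = a ∨ y = b := by
      by_cases h : y = a
      · exact Or.inl h
      · exact Or.inr (hcon y hyK h)
    have n1 := hvx.ne
    have n2 := hvy.ne
    have n3 := hxy.ne
    rcases e1 with e1 | e1 <;> rcases e2 with e2 | e2 <;> rcases e3 with e3 | e3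
    · exact n1 (e1.trans e2.symm)
    · exact n1 (e1.trans e2.symm)
    · exact n2 (e1.trans e3.symm)
    · exact n3 (e2.trans e3.symm)
    · exact n3 (e2.trans e3.symm)
    · exact n2 (e1.trans e3.symm)
    · exact n1 (e1.trans e2.symm)
    · exact n1 (e1.trans e2.symm)
  obtain ⟨c1, hc1, hc1c, _⟩ := hK2 c c
  set S' : Set V := {x | x ∉ K} with hS'
  set R : V → V → Prop := fun a b => G.Adj c a ∧ ∃ d ∈ K, d ≠ c ∧ G.Adj b d with hR
  obtain ⟨n, r, hr, hr0, hrn⟩ := cn_sq (h2.del c) (mem_erase.2 ⟨huc, mem_univ u⟩)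
    (mem_erase.2 ⟨hc1c, mem_univ c1⟩)
  have hex : ∃ t, t ≤ n ∧ r t ∈ K := ⟨n, le_rfl, by rw [hrn]; exact hc1⟩
  obtain ⟨ht1, ht2⟩ := Nat.find_spec hex
  set t := Nat.find hex with ht
  have htmin : ∀ s < t, r s ∉ K := fun s hs hh =>
    Nat.find_min hex hs ⟨by omega, hh⟩
  have ht0 : t ≠ 0 := by
    intro h0
    rw [h0, hr0] at ht2
    exact huK ht2
  obtain ⟨k, q, hq, hRq, hmin⟩ := exists_min (G := G) (S := S') R ⟨t - 1, r, ⟨fun i hi =>
      htmin i (by omega), fun i hi => hr.adj i (by omega)⟩, by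
      refine ⟨by rw [hr0]; exact hcu, r t, ht2, ?_, ?_⟩
      · have := hr.mem t ht1
        rw [mem_coe, mem_erase] at this
        exact this.1
      · have := hr.adj (t - 1) (by omega)
        rw [Nat.sub_add_cancel (by omega)] at this
        exact this⟩
  have hqip := min_ip hq hRq hmin
  obtain ⟨hRq1, c', hc', hc'c, hadj'⟩ := hRq
  obtain ⟨c2, hc2, hc2c, hc2c'⟩ := hK2 c c'
  have hqK : ∀ i ≤ k, q i ∉ K := fun i hi => hq.mem i hi
  have onlyk : ∀ j ≤ k, ∀ d ∈ K, d ≠ c → G.Adj (q j) d → j = k := fun j hj d hd hdc h =>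
    (min_rel hq hmin (Nat.zero_le j) hj ⟨hRq1, d, hd, hdc, h⟩).2
  apply hno
  refine theta_itm (m := 1) (k := k) (a := 0) (p := pt2 c' c2) (q := q) (v := c) le_rfl
    (ip2 (hcl c' hc' c2 hc2 hc2c'.symm)) hqip ?_ ?_ ?_ ?_ ?_ ?_ (by omega)
  · exact le1 hc'c.symm hc2c.symm
  · intro i hi hh
    exact hqK i hi (hh ▸ hc)
  · refine le1 ?_ ?_
    · intro j hj hh
      exact hqK j hj (hh ▸ hc')
    · intro j hj hh
      exact hqK j hj (hh ▸ hc2)
  · exact le1 (by simp [pt2, hcl c hc c' hc' hc'c.symm]) (by simp [pt2, hcl c hc c2 hc2 hc2c.symm])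
  · intro i hi
    constructor
    · intro h
      exact (min_rel hq hmin hi le_rfl ⟨h, c', hc', hc'c, hadj'⟩).1
    · rintro rfl
      exact hRq1
  · refine le1 ?_ ?_
    · intro j hj
      constructor
      · intro h
        exact ⟨rfl, onlyk j hj c' hc' hc'c h.symm⟩
      · rintro ⟨_, rfl⟩
        exact hadj'.symm
    · intro j hj
      constructor
      · intro h
        have := onlyk j hj c2 hc2 hc2c h.symm
        subst this
        exact absurd (hone (q j) (hqK j le_rfl) c' hc' c2 hc2 hadj' h.symm) hc2c'.symm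
      · rintro ⟨h, _⟩
        omega

theorem dia_str [Fintype V] (h2 : TwoConn G) (hno : ¬ IsITM diamond G) :
    (∀ v, (univ.filter (fun y => G.Adj v y)).card ≤ 2) ∨ P4Free G univ := by
  by_cases hd : ∀ v, (univ.filter (fun y => G.Adj v y)).card ≤ 2
  · exact Or.inl hd
  right
  push Not at hd
  obtain ⟨v, hd⟩ := hd
  obtain ⟨x, y, hvx, hvy, hxy⟩ := dia_no_triangle h2 hno hd
  exact dia_clique h2 hno hvx hvy hxy

end Pool.Agent.Y394.TM
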