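import Pool.Agent.H175R2.Cut

/-! The truncated wall: a subcubic claw-free family of unbounded clique-width. -/

set_option autoImplicit false

namespace Pool.Agent.Y394.TM

open Pool.Agent.H175R2

/-- vertices of the truncated wall: row, column, side, corner -/
abbrev TV (n : ℕ) := Fin n × Fin n × Bool × Fin 3

/-- the triangle of a vertex -/
def tri {n : ℕ} (x : TV n) : Fin n × Fin n × Bool := (x.1, x.2.1, x.2.2.1)

/-- oriented connecting edges -/
def lnk {n : ℕ} (x y : TV n) : Prop :=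
  (x.1 = y.1 ∧ x.2.1 = y.2.1 ∧ x.2.2.1 = false ∧ y.2.2.1 = true ∧ x.2.2.2 = 2 ∧ y.2.2.2 = 2) ∨
  (x.1 = y.1 ∧ x.2.1.val + 1 = y.2.1.val ∧ x.2.2.1 = true ∧ y.2.2.1 = false ∧ x.2.2.2 = 0 ∧
    y.2.2.2 = 0) ∨
  (x.1.val + 1 = y.1.val ∧ x.2.1 = y.2.1 ∧ x.2.2.1 = true ∧ y.2.2.1 = false ∧ x.2.2.2 = 1 ∧
    y.2.2.2 = 1)

/-- the truncated wall -/
def twall (n : ℕ) : SimpleGraph (TV n) where
  Adj x y := (tri x = tri y ∧ x.2.2.2 ≠ y.2.2.2) ∨ lnk x y ∨ lnk y x
  symm := ⟨by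
    rintro x y (⟨h1, h2⟩ | h | h)
    · exact Or.inl ⟨h1.symm, h2.symm⟩
    · exact Or.inr (Or.inr h)
    · exact Or.inr (Or.inl h)⟩
  loopless := ⟨by
    rintro x (⟨_, h⟩ | h | h)
    · exact h rfl
    · rcases h with h | h | h
      · have := h.2.2.1.symm.trans h.2.2.2.1; simp at this
      · have := h.2.2.1.symm.trans h.2.2.2.1; simp at this
      · have := h.2.2.1.symm.trans h.2.2.2.1; simp at this
    · rcases h with h | h | h
      · have := h.2.2.1.symm.trans h.2.2.2.1; simp at this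
      · have := h.2.2.1.symm.trans h.2.2.2.1; simp at this
      · have := h.2.2.1.symm.trans h.2.2.2.1; simp at this⟩

variable {n : ℕ}

lemma lnk_inj {x y z : TV n} (h : lnk x y ∨ lnk y x) (h' : lnk x z ∨ lnk z x) : y = z := by
  obtain ⟨i, j, s, c⟩ := x
  obtain ⟨i1, j1, s1, c1⟩ := y
  obtain ⟨i2, j2, s2, c2⟩ := z
  simp only [lnk] at h h'
  simp only [Prod.mk.injEq]
  rcases h with (⟨h1, h2, h3, h4, h5, h6⟩ | ⟨h1, h2, h3, h4, h5, h6⟩ | ⟨h1, h2, h3, h4, h5, h6⟩) |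
    (⟨h1, h2, h3, h4, h5, h6⟩ | ⟨h1, h2, h3, h4, h5, h6⟩ | ⟨h1, h2, h3, h4, h5, h6⟩) <;>
  rcases h' with (⟨k1, k2, k3, k4, k5, k6⟩ | ⟨k1, k2, k3, k4, k5, k6⟩ | ⟨k1, k2, k3, k4, k5, k6⟩) |
    (⟨k1, k2, k3, k4, k5, k6⟩ | ⟨k1, k2, k3, k4, k5, k6⟩ | ⟨k1, k2, k3, k4, k5, k6⟩) <;>
  first
  | (subst_vars; simp at *; done)
  | (subst_vars; refine ⟨?_, ?_, ?_, ?_⟩ <;> first | rfl | (apply Fin.ext; omega))

lemma lnk_tri {x y : TV n} (h : lnk x y ∨ lnk y x) : tri x ≠ tri y := by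
  intro ht
  simp only [tri, Prod.mk.injEq] at ht
  obtain ⟨_, _, h3⟩ := ht
  rcases h with h | h
  · rcases h with h | h | h
    · have := h.2.2.1.symm.trans (h3.trans h.2.2.2.1); simp at this
    · have := h.2.2.1.symm.trans (h3.trans h.2.2.2.1); simp at this
    · have := h.2.2.1.symm.trans (h3.trans h.2.2.2.1); simp at this
  · rcases h with h | h | h
    · have := h.2.2.1.symm.trans (h3.symm.trans h.2.2.2.1); simp at this
    · have := h.2.2.1.symm.trans (h3.symm.trans h.2.2.2.1); simp at this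
    · have := h.2.2.1.symm.trans (h3.symm.trans h.2.2.2.1); simp at this

lemma tv_ext {x y : TV n} (h : tri x = tri y) (h' : x.2.2.2 = y.2.2.2) : x = y := by
  obtain ⟨i, j, s, c⟩ := x
  obtain ⟨i1, j1, s1, c1⟩ := y
  simp only [tri, Prod.mk.injEq] at h ⊢
  exact ⟨h.1, h.2.1, h.2.2, h'⟩

lemma tw_adj {x y : TV n} : (twall n).Adj x y ↔ ((tri x = tri y ∧ x.2.2.2 ≠ y.2.2.2) ∨ (lnk x y ∨ lnk y x)) := Iff.rfl

/-- no four vertices in one triangle -/
lemma four_tri {x y z w : TV n} (h1 : tri x = tri y) (h2 : tri x = tri z) (h3 : tri x = tri w)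
    (hxy : x ≠ y) (hxz : x ≠ z) (hxw : x ≠ w) (hyz : y ≠ z) (hyw : y ≠ w) (hzw : z ≠ w) : False := by
  have e1 : x.2.2.2 ≠ y.2.2.2 := fun h => hxy (tv_ext h1 h)
  have e2 : x.2.2.2 ≠ z.2.2.2 := fun h => hxz (tv_ext h2 h)
  have e3 : x.2.2.2 ≠ w.2.2.2 := fun h => hxw (tv_ext h3 h)
  have e4 : y.2.2.2 ≠ z.2.2.2 := fun h => hyz (tv_ext (h1.symm.trans h2) h)
  have e5 : y.2.2.2 ≠ w.2.2.2 := fun h => hyw (tv_ext (h1.symm.trans h3) h)
  have e6 : z.2.2.2 ≠ w.2.2.2 := fun h => hzw (tv_ext (h2.symm.trans h3) h)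
  omega

/-- subcubic -/
lemma tw_deg {v x y z w : TV n} (hx : (twall n).Adj v x) (hy : (twall n).Adj v y)
    (hz : (twall n).Adj v z) (hw : (twall n).Adj v w)
    (hxy : x ≠ y) (hxz : x ≠ z) (hxw : x ≠ w) (hyz : y ≠ z) (hyw : y ≠ w) (hzw : z ≠ w) : False := by
  have nx := hx.ne
  have ny := hy.ne
  have nz := hz.ne
  have nw := hw.ne
  rw [tw_adj] at hx hy hz hw
  rcases hx with ⟨hx, _⟩ | hx
  · rcases hy with ⟨hy, _⟩ | hy
    · rcases hz with ⟨hz, _⟩ | hz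
      · exact four_tri hx hy hz nx ny nz hxy hxz hyz
      · rcases hw with ⟨hw, _⟩ | hw
        · exact four_tri hx hy hw nx ny nw hxy hxw hyw
        · exact hzw (lnk_inj hz hw)
    · rcases hz with ⟨hz, _⟩ | hz
      · rcases hw with ⟨hw, _⟩ | hw
        · exact four_tri hx hz hw nx nz nw hxz hxw hzw
        · exact hyw (lnk_inj hy hw)
      · exact hyz (lnk_inj hy hz)
  · rcases hy with ⟨hy, _⟩ | hy
    · rcases hz with ⟨hz, _⟩ | hz
      · rcases hw with ⟨hw, _⟩ | hw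
        · exact four_tri hy hz hw ny nz nw hyz hyw hzw
        · exact hxw (lnk_inj hx hw)
      · exact hxz (lnk_inj hx hz)
    · exact hxy (lnk_inj hx hy)

/-- claw-free -/
lemma tw_claw {v x y z : TV n} (hx : (twall n).Adj v x) (hy : (twall n).Adj v y)
    (hz : (twall n).Adj v z) (hxy : x ≠ y) (hxz : x ≠ z) (hyz : y ≠ z) :
    (twall n).Adj x y ∨ (twall n).Adj x z ∨ (twall n).Adj y z := by
  have key : ∀ x y : TV n, tri v = tri x → tri v = tri y → x ≠ y → (twall n).Adj x y := by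
    intro x y hx hy hxy
    rw [tw_adj]
    exact Or.inl ⟨hx.symm.trans hy, fun h => hxy (tv_ext (hx.symm.trans hy) h)⟩
  rw [tw_adj] at hx hy hz
  rcases hx with ⟨hx, _⟩ | hx
  · rcases hy with ⟨hy, _⟩ | hy
    · exact Or.inl (key _ _ hx hy hxy)
    · rcases hz with ⟨hz, _⟩ | hz
      · exact Or.inr (Or.inl (key _ _ hx hz hxz))
      · exact absurd (lnk_inj hy hz) hyz
  · rcases hy with ⟨hy, _⟩ | hy
    · rcases hz with ⟨hz, _⟩ | hz
      · exact Or.inr (Or.inr (key _ _ hy hz hyz))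
      · exact absurd (lnk_inj hx hz) hxz
    · exact absurd (lnk_inj hx hy) hxy

/-- triangles -/
lemma tw_tri {x y z : TV n} (hxy : (twall n).Adj x y) (hyz : (twall n).Adj y z)
    (hxz : (twall n).Adj x z) : tri x = tri y := by
  by_contra hne
  have nyz := hyz.ne
  have nxz := hxz.ne
  have h1 : lnk x y ∨ lnk y x := by
    rw [tw_adj] at hxy
    rcases hxy with ⟨h, _⟩ | h
    · exact absurd h hne
    · exact h
  have h2 : tri x = tri z := by
    rw [tw_adj] at hxz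
    rcases hxz with ⟨h, _⟩ | h
    · exact h
    · exact absurd (lnk_inj h1 h) nyz
  have h3 : tri y = tri z := by
    rw [tw_adj] at hyz
    rcases hyz with ⟨h, _⟩ | h
    · exact h
    · exact absurd (lnk_inj h1.symm h) nxz
  exact hne (h2.trans h3.symm)

/-- no two triangles share an edge -/
lemma tw_diamond {x y z w : TV n} (hxy : (twall n).Adj x y) (hxz : (twall n).Adj x z)
    (hyz : (twall n).Adj y z) (hxw : (twall n).Adj x w) (hyw : (twall n).Adj y w) (hzw : z ≠ w) :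
    False :=
  four_tri (tw_tri hxy hyz hxz) (tw_tri hxz hyz.symm hxy) (tw_tri hxw hyw.symm hxy) hxy.ne hxz.ne
    hxw.ne hyz.ne hyw.ne hzw


/-! ### unbounded clique-width -/

open Classical in
/-- the lines met both by `A` and by its complement -/
noncomputable def mix (f : TV n → Fin n) (A : Set (TV n)) : Finset (Fin n) :=
  Finset.univ.filter (fun i => (∃ x ∈ A, f x = i) ∧ ∃ x, x ∉ A ∧ f x = i)

lemma mem_mix {f : TV n → Fin n} {A : Set (TV n)} {i : Fin n} :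
    i ∈ mix f A ↔ (∃ x ∈ A, f x = i) ∧ ∃ x, x ∉ A ∧ f x = i := by
  simp [mix]

lemma mix_le {k : ℕ} (f : TV n → Fin n) (A : Set (TV n)) (h : Types (twall n) A k)
    (hc : ∀ i ∈ mix f A, ∃ x y, x ∈ A ∧ y ∉ A ∧ f x = i ∧ f y = i ∧ (twall n).Adj x y) :
    (mix f A).card ≤ 3 * k := by
  classical
  obtain ⟨l, hl⟩ := h
  choose! x y hx hy hfx hfy hxy using hc
  by_contra hcon
  push Not at hcon
  have hcard : (Finset.univ : Finset (Fin k)).card * 3 < (mix f A).card := by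
    simp; omega
  obtain ⟨t, _, ht⟩ := Finset.exists_lt_card_fiber_of_mul_lt_card_of_maps_to
    (f := fun i => l (x i)) (s := mix f A) (t := Finset.univ) (fun _ _ => Finset.mem_univ _) hcard
  set F := (mix f A).filter (fun i => l (x i) = t) with hF
  obtain ⟨a, ha⟩ : F.Nonempty := Finset.card_pos.1 (by omega)
  have h2 : 2 < (F.erase a).card := by rw [Finset.card_erase_of_mem ha]; omega
  rw [Finset.two_lt_card] at h2
  obtain ⟨b, hb, c, hc, d, hd, hbc, hbd, hcd⟩ := h2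
  obtain ⟨hba, hb⟩ := Finset.mem_erase.1 hb
  obtain ⟨hca, hc⟩ := Finset.mem_erase.1 hc
  obtain ⟨hda, hd⟩ := Finset.mem_erase.1 hd
  rw [hF, Finset.mem_filter] at ha hb hc hd
  have key : ∀ i, i ∈ mix f A → l (x i) = t → (twall n).Adj (y a) (x i) := by
    intro i hi hit
    exact ((hl _ (hx a ha.1) _ (hx i hi) (ha.2.trans hit.symm) _ (hy a ha.1)).1 (hxy a ha.1)).symm
  have hne : ∀ i j, i ∈ mix f A → j ∈ mix f A → i ≠ j → x i ≠ x j := by
    intro i j hi hj hij h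
    apply hij
    rw [← hfx i hi, ← hfx j hj, h]
  exact tw_deg (key a ha.1 ha.2) (key b hb.1 hb.2) (key c hc.1 hc.2) (key d hd.1 hd.2)
    (hne _ _ ha.1 hb.1 (Ne.symm hba)) (hne _ _ ha.1 hc.1 (Ne.symm hca))
    (hne _ _ ha.1 hd.1 (Ne.symm hda)) (hne _ _ hb.1 hc.1 hbc) (hne _ _ hb.1 hd.1 hbd)
    (hne _ _ hc.1 hd.1 hcd)

lemma cross_row (A : Set (TV n)) (i : Fin n) (hi : i ∈ mix (fun x => x.1) A) :
    ∃ x y, x ∈ A ∧ y ∉ A ∧ x.1 = i ∧ y.1 = i ∧ (twall n).Adj x y := by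
  by_contra hcon
  push Not at hcon
  have hc : ∀ x y : TV n, x.1 = i → y.1 = i → (twall n).Adj x y → (x ∈ A ↔ y ∈ A) := by
    intro x y hx hy hxy
    constructor
    · intro h; by_contra h'; exact hcon x y h h' hx hy hxy
    · intro h; by_contra h'; exact hcon y x h h' hy hx hxy.symm
  have h1 : ∀ (j : Fin n) (s : Bool) (c : Fin 3), ((i, j, s, c) : TV n) ∈ A ↔ ((i, j, s, 2) : TV n) ∈ A := by
    intro j s c
    by_cases hc2 : c = 2
    · subst hc2; rfl
    · exact hc _ _ rfl rfl (Or.inl ⟨rfl, hc2⟩)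
  have h2 : ∀ (j : Fin n) (s : Bool) (c : Fin 3), ((i, j, s, c) : TV n) ∈ A ↔
      ((i, j, false, 2) : TV n) ∈ A := by
    intro j s c
    rw [h1]
    cases s
    · rfl
    · exact hc _ _ rfl rfl (Or.inr (Or.inr (Or.inl ⟨rfl, rfl, rfl, rfl, rfl, rfl⟩)))
  obtain ⟨⟨x, hx, hxi⟩, ⟨y, hy, hyi⟩⟩ := mem_mix.1 hi
  obtain ⟨xi, xj, xs, xc⟩ := x
  obtain ⟨yi, yj, ys, yc⟩ := y
  simp only at hxi hyi
  subst hxi
  subst hyi
  obtain ⟨a, b, ha, hb, hab⟩ := CutAux.step_exists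
    (P := fun j => ((yi, j, false, 2) : TV n) ∈ A) ⟨xj, (h2 _ _ _).1 hx⟩
    ⟨yj, fun h => hy ((h2 _ _ _).2 h)⟩
  have hstep : ∀ a b : Fin n, a.val + 1 = b.val →
      (((yi, a, false, 2) : TV n) ∈ A ↔ ((yi, b, false, 2) : TV n) ∈ A) := by
    intro a b hab
    rw [← h2 a true 0, ← h2 b false 0]
    exact hc _ _ rfl rfl (Or.inr (Or.inl (Or.inr (Or.inl ⟨rfl, hab, rfl, rfl, rfl, rfl⟩))))
  rcases hab with h | h
  · exact hb ((hstep a b h).1 ha)
  · exact hb ((hstep b a h).2 ha)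

lemma cross_col (A : Set (TV n)) (j : Fin n) (hj : j ∈ mix (fun x => x.2.1) A) :
    ∃ x y, x ∈ A ∧ y ∉ A ∧ x.2.1 = j ∧ y.2.1 = j ∧ (twall n).Adj x y := by
  by_contra hcon
  push Not at hcon
  have hc : ∀ x y : TV n, x.2.1 = j → y.2.1 = j → (twall n).Adj x y → (x ∈ A ↔ y ∈ A) := by
    intro x y hx hy hxy
    constructor
    · intro h; by_contra h'; exact hcon x y h h' hx hy hxy
    · intro h; by_contra h'; exact hcon y x h h' hy hx hxy.symm
  have h1 : ∀ (i : Fin n) (s : Bool) (c : Fin 3), ((i, j, s, c) : TV n) ∈ A ↔ ((i, j, s, 2) : TV n) ∈ A := by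
    intro i s c
    by_cases hc2 : c = 2
    · subst hc2; rfl
    · exact hc _ _ rfl rfl (Or.inl ⟨rfl, hc2⟩)
  have h2 : ∀ (i : Fin n) (s : Bool) (c : Fin 3), ((i, j, s, c) : TV n) ∈ A ↔
      ((i, j, false, 2) : TV n) ∈ A := by
    intro i s c
    rw [h1]
    cases s
    · rfl
    · exact hc _ _ rfl rfl (Or.inr (Or.inr (Or.inl ⟨rfl, rfl, rfl, rfl, rfl, rfl⟩)))
  obtain ⟨⟨x, hx, hxi⟩, ⟨y, hy, hyi⟩⟩ := mem_mix.1 hj
  obtain ⟨xi, xj, xs, xc⟩ := x
  obtain ⟨yi, yj, ys, yc⟩ := y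
  simp only at hxi hyi
  subst hxi
  subst hyi
  obtain ⟨a, b, ha, hb, hab⟩ := CutAux.step_exists
    (P := fun i => ((i, yj, false, 2) : TV n) ∈ A) ⟨xi, (h2 _ _ _).1 hx⟩
    ⟨yi, fun h => hy ((h2 _ _ _).2 h)⟩
  have hstep : ∀ a b : Fin n, a.val + 1 = b.val →
      (((a, yj, false, 2) : TV n) ∈ A ↔ ((b, yj, false, 2) : TV n) ∈ A) := by
    intro a b hab
    rw [← h2 a true 1, ← h2 b false 1]
    exact hc _ _ rfl rfl (Or.inr (Or.inl (Or.inr (Or.inr ⟨hab, rfl, rfl, rfl, rfl, rfl⟩))))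
  rcases hab with h | h
  · exact hb ((hstep a b h).1 ha)
  · exact hb ((hstep b a h).2 ha)

lemma mix_compl (f : TV n → Fin n) (A : Set (TV n)) : mix f Aᶜ = mix f A := by
  ext i
  rw [mem_mix, mem_mix]
  simp only [Set.mem_compl_iff, not_not]
  tauto

lemma card_le_mix (A : Set (TV n)) (h : ∀ x ∈ A, x.1 ∈ mix (fun x => x.1) A) :
    A.ncard ≤ (mix (fun x => x.1) A).card * (n * 6) := by
  have h1 : A ⊆ ((mix (fun x => x.1) A ×ˢ (Finset.univ : Finset (Fin n × Bool × Fin 3)) : Finset _) :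
      Set (TV n)) := by
    intro x hx
    simp only [Finset.coe_product, Finset.coe_univ, Set.mem_prod, Finset.mem_coe, Set.mem_univ,
      and_true]
    exact h x hx
  have h2 := Set.ncard_le_ncard h1 (Finset.finite_toSet _)
  rw [Set.ncard_coe_finset, Finset.card_product] at h2
  simpa using h2

theorem twall_unbounded : ∀ c N : ℕ, ∃ n ≥ N, ∀ k ≤ c, ¬ CwLE (twall n) k := by
  intro c N
  refine ⟨N + 9 * c + 2, by omega, ?_⟩
  intro k hk hcw
  set n := N + 9 * c + 2 with hn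
  have hcard : (Set.univ : Set (TV n)).ncard = n * (n * 6) := by
    rw [Set.ncard_univ]; simp
  obtain ⟨A, hT, h1, h2⟩ := balanced_cut (twall n) k hcw Set.univ (by rw [hcard]; nlinarith)
  rw [Set.inter_univ, hcard] at h1 h2
  have hcompl : A.ncard + Aᶜ.ncard = n * (n * 6) := by
    rw [Set.ncard_add_ncard_compl]; simp
  have hm := mix_le _ A hT (cross_row A)
  have hm' := mix_le _ A hT (cross_col A)
  have hbig : n ≤ 3 * (mix (fun x => x.1) A).card → False := by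
    intro h; omega
  by_cases hfull : ∃ i : Fin n, ∀ x : TV n, x.1 = i → x ∈ A
  · by_cases hempty : ∃ i : Fin n, ∀ x : TV n, x.1 = i → x ∉ A
    · obtain ⟨i, hi⟩ := hfull
      obtain ⟨i', hi'⟩ := hempty
      have : mix (fun x => x.2.1) A = Finset.univ := by
        ext j
        simp only [mem_mix, Finset.mem_univ, iff_true]
        exact ⟨⟨(i, j, false, 0), hi _ rfl, rfl⟩, ⟨(i', j, false, 0), hi' _ rfl, rfl⟩⟩
      rw [this] at hm'
      simp at hm'
      omega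
    · push Not at hempty
      have h3 : Aᶜ.ncard ≤ (mix (fun x => x.1) Aᶜ).card * (n * 6) := by
        apply card_le_mix
        intro x hx
        rw [mix_compl, mem_mix]
        obtain ⟨y, hy, hyA⟩ := hempty x.1
        exact ⟨⟨y, hyA, hy⟩, ⟨x, hx, rfl⟩⟩
      rw [mix_compl] at h3
      apply hbig
      have : n * (n * 6) ≤ 3 * ((mix (fun x => x.1) A).card * (n * 6)) := by omega
      have : n * (n * 6) ≤ (3 * (mix (fun x => x.1) A).card) * (n * 6) := by linarith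
      exact Nat.le_of_mul_le_mul_right this (by omega)
  · push Not at hfull
    have h3 : A.ncard ≤ (mix (fun x => x.1) A).card * (n * 6) := by
      apply card_le_mix
      intro x hx
      rw [mem_mix]
      obtain ⟨y, hy, hyA⟩ := hfull x.1
      exact ⟨⟨x, hx, rfl⟩, ⟨y, hyA, hy⟩⟩
    apply hbig
    have : n * (n * 6) ≤ (3 * (mix (fun x => x.1) A).card) * (n * 6) := by linarith
    exact Nat.le_of_mul_le_mul_right this (by omega)

end Pool.Agent.Y394.TM
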