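import Pool.Agent.Y394.TM.Dia
import Pool.Agent.Y394.TM.Her
import Pool.Agent.Y394.TM.Cls

/-! The classification. -/

set_option autoImplicit false

namespace Pool.Agent.Y394.TM

open Finset Classical Pool.Agent.H175R2

lemma dt_of_str {V : Type} [Fintype V] {G : SimpleGraph V} (h2 : TwoConn G)
    (h : (∀ v, (univ.filter (fun y => G.Adj v y)).card ≤ 2) ∨ P4Free G univ) :
    DT G 3 univ univ := by
  have hne : Nonempty V := Fintype.card_pos_iff.1 (by have := h2.card; omega)
  have ht : Tame G 0 := by
    refine ⟨∅, by simp, fun x _ => ?_⟩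
    rcases h with h | h
    · left
      intro y _
      refine (card_le_card ?_).trans (h y)
      exact filter_subset_filter _ (subset_univ _)
    · right
      exact h.mono (subset_univ _)
  simpa using dt_of_tame ht

lemma bdd_of_str {H : SimpleGraph (Fin 4)}
    (hs : ∀ (V : Type) [Fintype V] (G : SimpleGraph V), TwoConn G → ¬ IsITM H G →
      (∀ v, (univ.filter (fun y => G.Adj v y)).card ≤ 2) ∨ P4Free G univ) : BddCwITM H := by
  refine ⟨3 * (3 + 1 + 1), fun V _ G hno => ?_⟩
  have : Fintype V := Fintype.ofFinite V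
  rcases isEmpty_or_nonempty V with hV | hV
  · have : cliqueWidth G = 0 := by
      unfold cliqueWidth
      rw [Nat.sInf_eq_zero]
      right
      ext k
      simp only [Set.mem_empty_iff_false, iff_false]
      rintro ⟨W, G', l, hb, ⟨e⟩⟩
      have hW : IsEmpty W := e.symm.toEquiv.isEmpty
      have key : ∀ (U : Type) (K : SimpleGraph U) (l : U → Fin k), CwBuilt k U K l → Nonempty U := by
        intro U K l h
        induction h with
        | single => infer_instance
        | union V W G H l m _ _ h1 h2 => exact ⟨.inl h1.some⟩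
        | join _ _ _ _ _ _ _ h => exact h
        | relabel _ _ _ _ _ _ h => exact h
      exact hW.false (key _ _ _ hb).some
    omega
  · apply cliqueWidth_le_of_dt
    exact dt_of_blocks_all (fun V G => ¬ IsITM H G) (fun U V e G h hh => h hh.of_comap) 3
      (fun V _ G h2 hQ => dt_of_str h2 (hs V G h2 hQ)) V G hno

lemma p4_str (V : Type) [Fintype V] (G : SimpleGraph V)
    (hno : ¬ IsITM (SimpleGraph.pathGraph 4) G) : P4Free G univ := by
  intro a _ b _ c _ d _ hac had hbd hab hbc hcd
  by_contra hcon
  push Not at hcon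
  obtain ⟨n1, n2, n3⟩ := hcon
  apply hno
  have hinj := inj4 hab.ne hac had hbc.ne hbd hcd.ne
  refine isITM_of_embedding ⟨⟨![a, b, c, d], hinj⟩, ?_⟩
  intro i j
  rw [SimpleGraph.pathGraph_adj]
  have n1' : ¬ G.Adj c a := fun h => n1 h.symm
  have n2' : ¬ G.Adj d a := fun h => n2 h.symm
  have n3' : ¬ G.Adj d b := fun h => n3 h.symm
  fin_cases i <;> fin_cases j <;>
    simp [hab, hbc, hcd, hab.symm, hbc.symm, hcd.symm, n1, n2, n3, n1', n2', n3']

lemma bdd_mono {W W' : Type} {H : SimpleGraph W} {H' : SimpleGraph W'}
    (h : H'.IsIndContained H) (hb : BddCwITM H) : BddCwITM H' := by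
  obtain ⟨c, hc⟩ := hb
  obtain ⟨f⟩ := h
  exact ⟨c, fun V _ G hno => hc V G fun hh => hno (hh.mono_left f)⟩

/-- Classification: clique-width is bounded on the graphs without `H` as an induced topological
minor iff `H` is an induced subgraph of `P₄`, of the paw or of the diamond. -/
theorem classification {W : Type} [Finite W] (H : SimpleGraph W) :
    BddCwITM H ↔ (H.IsIndContained (SimpleGraph.pathGraph 4) ∨ H.IsIndContained paw ∨
      H.IsIndContained diamond) := by
  constructor
  · intro hb
    exact three_of_good (good_of_bdd hb)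
  · rintro (h | h | h)
    · exact bdd_mono h (bdd_of_str fun V _ G _ hno => Or.inr (p4_str V G hno))
    · exact bdd_mono h (bdd_of_str fun V _ G h2 hno => paw_str h2 hno)
    · exact bdd_mono h (bdd_of_str fun V _ G h2 hno => dia_str h2 hno)

end Pool.Agent.Y394.TM
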