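import Pool.Agent.Y394.TM.Defs

set_option autoImplicit false

namespace Pool.Agent.Y394.TM

variable {W V U W' : Type}

/-- used vertices of a model -/
def Used (H : SimpleGraph W) (b : W → V) (ℓ : Sym2 W → ℕ) (p : Sym2 W → ℕ → V) (x : V) : Prop :=
  (∃ w, x = b w) ∨ ∃ e ∈ H.edgeSet, ∃ i, 0 < i ∧ i < ℓ e ∧ x = p e i

/-- a model of `H` as an induced topological minor of `G` -/
structure Mdl (H : SimpleGraph W) (G : SimpleGraph V) (b : W → V) (ℓ : Sym2 W → ℕ)
    (p : Sym2 W → ℕ → V) : Prop where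
  inj : Function.Injective b
  ends : ∀ e ∈ H.edgeSet, 1 ≤ ℓ e ∧ s(p e 0, p e (ℓ e)) = e.map b
  new : ∀ e ∈ H.edgeSet, ∀ i, 0 < i → i < ℓ e → ∀ w, p e i ≠ b w
  dis : ∀ e ∈ H.edgeSet, ∀ e' ∈ H.edgeSet, ∀ i j, 0 < i → i < ℓ e → 0 < j → j < ℓ e' →
      p e i = p e' j → e = e' ∧ i = j
  adj : ∀ e ∈ H.edgeSet, ∀ i < ℓ e, G.Adj (p e i) (p e (i + 1))
  ind : ∀ x y, Used H b ℓ p x → Used H b ℓ p y → G.Adj x y →
    ∃ e ∈ H.edgeSet, ∃ i < ℓ e, s(x, y) = s(p e i, p e (i + 1))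

variable {H : SimpleGraph W} {G : SimpleGraph V} {b : W → V} {ℓ : Sym2 W → ℕ}
    {p : Sym2 W → ℕ → V}

lemma Mdl.used_pos (h : Mdl H G b ℓ p) {e : Sym2 W} (he : e ∈ H.edgeSet) {i : ℕ} (hi : i ≤ ℓ e) :
    Used H b ℓ p (p e i) := by
  obtain ⟨h1, h2⟩ := h.ends e he
  induction e using Sym2.ind with
  | _ u v =>
    rw [Sym2.map_mk] at h2
    rcases Nat.eq_zero_or_pos i with h0 | h0
    · subst h0
      rcases Sym2.eq_iff.1 h2 with ⟨h3, _⟩ | ⟨h3, _⟩
      · exact Or.inl ⟨_, h3⟩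
      · exact Or.inl ⟨_, h3⟩
    · rcases Nat.lt_or_ge i (ℓ s(u, v)) with h4 | h4
      · exact Or.inr ⟨_, he, i, h0, h4, rfl⟩
      · have : i = ℓ s(u, v) := le_antisymm hi h4
        subst this
        rcases Sym2.eq_iff.1 h2 with ⟨_, h3⟩ | ⟨_, h3⟩
        · exact Or.inl ⟨_, h3⟩
        · exact Or.inl ⟨_, h3⟩

theorem isITM_iff : IsITM H G ↔ ∃ b ℓ p, Mdl H G b ℓ p := by
  constructor
  · rintro ⟨S, b, ℓ, p, h1, h2, h3, h4, h5, h6⟩
    refine ⟨fun w => (b w).1, ℓ, fun e i => (p e i).1, ?_, ?_, ?_, ?_, ?_, ?_⟩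
    · exact Subtype.val_injective.comp h1
    · intro e he
      obtain ⟨k1, k2⟩ := h2 e he
      refine ⟨k1, ?_⟩
      have := congrArg (Sym2.map Subtype.val) k2
      rw [Sym2.map_mk, Sym2.map_map] at this
      exact this
    · intro e he i hi hi' w hw
      exact h3 e he i hi hi' w (Subtype.ext hw)
    · intro e he e' he' i j hi hi' hj hj' hij
      exact h4 e he e' he' i j hi hi' hj hj' (Subtype.ext hij)
    · intro e he i hi
      exact (h6 (p e i) (p e (i + 1))).2 ⟨e, he, i, hi, rfl⟩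
    · intro x y hx hy hxy
      have hx' : ∃ x' : S, x'.1 = x := by
        rcases hx with ⟨w, rfl⟩ | ⟨e, _, i, _, _, rfl⟩
        · exact ⟨_, rfl⟩
        · exact ⟨_, rfl⟩
      have hy' : ∃ y' : S, y'.1 = y := by
        rcases hy with ⟨w, rfl⟩ | ⟨e, _, i, _, _, rfl⟩
        · exact ⟨_, rfl⟩
        · exact ⟨_, rfl⟩
      obtain ⟨x', rfl⟩ := hx'
      obtain ⟨y', rfl⟩ := hy'
      obtain ⟨e, he, i, hi, hs⟩ := (h6 x' y').1 hxy
      refine ⟨e, he, i, hi, ?_⟩
      have := congrArg (Sym2.map Subtype.val) hs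
      rw [Sym2.map_mk, Sym2.map_mk] at this
      exact this
  · rintro ⟨b, ℓ, p, h⟩
    classical
    let S : Set V := {x | Used H b ℓ p x}
    let b' : W → S := fun w => ⟨b w, Or.inl ⟨w, rfl⟩⟩
    let p' : Sym2 W → ℕ → S := fun e i =>
      if hh : e ∈ H.edgeSet ∧ i ≤ ℓ e then ⟨p e i, h.used_pos hh.1 hh.2⟩ else b' e.out.1
    have hp' : ∀ e ∈ H.edgeSet, ∀ i ≤ ℓ e, (p' e i).1 = p e i := by
      intro e he i hi
      simp only [p']
      rw [dif_pos ⟨he, hi⟩]
    refine ⟨S, b', ℓ, p', ?_, ?_, ?_, ?_, ?_, ?_⟩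
    · intro u v huv
      exact h.inj (congrArg Subtype.val huv)
    · intro e he
      obtain ⟨k1, k2⟩ := h.ends e he
      refine ⟨k1, ?_⟩
      apply Sym2.map.injective (Subtype.val_injective)
      rw [Sym2.map_mk, Sym2.map_map, hp' e he 0 (Nat.zero_le _), hp' e he _ le_rfl]
      exact k2
    · intro e he i hi hi' w hw
      have := congrArg Subtype.val hw
      rw [hp' e he i hi'.le] at this
      exact h.new e he i hi hi' w this
    · intro e he e' he' i j hi hi' hj hj' hij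
      have := congrArg Subtype.val hij
      rw [hp' e he i hi'.le, hp' e' he' j hj'.le] at this
      exact h.dis e he e' he' i j hi hi' hj hj' this
    · rintro ⟨x, hx⟩
      rcases hx with ⟨w, hw⟩ | ⟨e, he, i, hi, hi', hxi⟩
      · exact Or.inl ⟨w, Subtype.ext hw⟩
      · refine Or.inr ⟨e, he, i, hi, hi', Subtype.ext ?_⟩
        rw [hp' e he i hi'.le]; exact hxi
    · rintro ⟨x, hx⟩ ⟨y, hy⟩
      constructor
      · intro hxy
        obtain ⟨e, he, i, hi, hs⟩ := h.ind x y hx hy hxy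
        refine ⟨e, he, i, hi, ?_⟩
        apply Sym2.map.injective (Subtype.val_injective)
        rw [Sym2.map_mk, Sym2.map_mk, hp' e he i hi.le, hp' e he (i + 1) hi]
        exact hs
      · rintro ⟨e, he, i, hi, hs⟩
        have := congrArg (Sym2.map Subtype.val) hs
        rw [Sym2.map_mk, Sym2.map_mk, hp' e he i hi.le, hp' e he (i + 1) hi] at this
        have hadj := h.adj e he i hi
        rw [← SimpleGraph.mem_edgeSet, ← this, SimpleGraph.mem_edgeSet] at hadj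
        exact hadj

lemma IsITM.of_comap {e : U ↪ V} (h : IsITM H (G.comap e)) : IsITM H G := by
  rw [isITM_iff] at h ⊢
  obtain ⟨b, ℓ, p, h⟩ := h
  refine ⟨e ∘ b, ℓ, fun s i => e (p s i), e.injective.comp h.inj, ?_, ?_, ?_, ?_, ?_⟩
  · intro s hs
    obtain ⟨k1, k2⟩ := h.ends s hs
    refine ⟨k1, ?_⟩
    have := congrArg (Sym2.map e) k2
    rw [Sym2.map_mk, Sym2.map_map] at this
    exact this
  · intro s hs i hi hi' w hw
    exact h.new s hs i hi hi' w (e.injective hw)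
  · intro s hs s' hs' i j hi hi' hj hj' hij
    exact h.dis s hs s' hs' i j hi hi' hj hj' (e.injective hij)
  · intro s hs i hi
    exact h.adj s hs i hi
  · intro x y hx hy hxy
    have key : ∀ x, Used H (e ∘ b) ℓ (fun s i => e (p s i)) x → ∃ x', x = e x' ∧ Used H b ℓ p x' := by
      rintro x (⟨w, rfl⟩ | ⟨s, hs, i, hi, hi', rfl⟩)
      · exact ⟨_, rfl, Or.inl ⟨w, rfl⟩⟩
      · exact ⟨_, rfl, Or.inr ⟨s, hs, i, hi, hi', rfl⟩⟩
    obtain ⟨x', rfl, hx'⟩ := key x hx
    obtain ⟨y', rfl, hy'⟩ := key y hy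
    obtain ⟨s, hs, i, hi, hh⟩ := h.ind x' y' hx' hy' hxy
    refine ⟨s, hs, i, hi, ?_⟩
    have := congrArg (Sym2.map e) hh
    rw [Sym2.map_mk, Sym2.map_mk] at this
    exact this

/-- induced subgraphs of `H` -/
lemma IsITM.mono_left {H' : SimpleGraph W'} (f : H' ↪g H) (h : IsITM H G) : IsITM H' G := by
  rw [isITM_iff] at h ⊢
  obtain ⟨b, ℓ, p, h⟩ := h
  have hmem : ∀ e : Sym2 W', e ∈ H'.edgeSet ↔ e.map f ∈ H.edgeSet := by
    intro e
    induction e using Sym2.ind with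
    | _ u v => rw [Sym2.map_mk, SimpleGraph.mem_edgeSet, SimpleGraph.mem_edgeSet, f.map_adj_iff]
  refine ⟨b ∘ f, fun e => ℓ (e.map f), fun e => p (e.map f), h.inj.comp f.injective, ?_, ?_, ?_,
    ?_, ?_⟩
  · intro e he
    obtain ⟨k1, k2⟩ := h.ends _ ((hmem e).1 he)
    refine ⟨k1, ?_⟩
    rw [Sym2.map_map] at k2
    exact k2
  · intro e he i hi hi' w hw
    exact h.new _ ((hmem e).1 he) i hi hi' _ hw
  · intro e he e' he' i j hi hi' hj hj' hij
    obtain ⟨k1, k2⟩ := h.dis _ ((hmem e).1 he) _ ((hmem e').1 he') i j hi hi' hj hj' hij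
    exact ⟨Sym2.map.injective f.injective k1, k2⟩
  · intro e he i hi
    exact h.adj _ ((hmem e).1 he) i hi
  · have hU : ∀ x, Used H' (b ∘ f) (fun e => ℓ (e.map f)) (fun e => p (e.map f)) x →
        Used H b ℓ p x := by
      rintro x (⟨w, rfl⟩ | ⟨s, hs, i, hi, hi', rfl⟩)
      · exact Or.inl ⟨f w, rfl⟩
      · exact Or.inr ⟨_, (hmem s).1 hs, i, hi, hi', rfl⟩
    -- interior vertices determine their edge
    have hint : ∀ x, Used H' (b ∘ f) (fun e => ℓ (e.map f)) (fun e => p (e.map f)) x →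
        ∀ e ∈ H.edgeSet, ∀ i, 0 < i → i < ℓ e → x = p e i → ∃ e' : Sym2 W', e = e'.map f := by
      rintro x (⟨w, rfl⟩ | ⟨s, hs, j, hj, hj', rfl⟩) e he i hi hi' hx
      · exact absurd hx.symm (h.new e he i hi hi' _)
      · obtain ⟨k1, _⟩ := h.dis _ ((hmem s).1 hs) e he j i hj hj' hi hi' hx
        exact ⟨s, k1.symm⟩
    have hbr : ∀ x, Used H' (b ∘ f) (fun e => ℓ (e.map f)) (fun e => p (e.map f)) x →
        ∀ w, x = b w → ∃ w', w = f w' := by
      rintro x (⟨w, rfl⟩ | ⟨s, hs, j, hj, hj', rfl⟩) w' hx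
      · exact ⟨w, (h.inj hx).symm⟩
      · exact absurd hx (h.new _ ((hmem s).1 hs) j hj hj' _)
    intro x y hx hy hxy
    obtain ⟨e, he, i, hi, hs⟩ := h.ind x y (hU x hx) (hU y hy) hxy
    suffices hh : ∃ e' : Sym2 W', e = e'.map f by
      obtain ⟨e', rfl⟩ := hh
      exact ⟨e', (hmem e').2 he, i, hi, hs⟩
    have hxy' : (x = p e i ∧ y = p e (i + 1)) ∨ (x = p e (i + 1) ∧ y = p e i) := Sym2.eq_iff.1 hs
    by_cases h1 : 0 < i
    · rcases hxy' with ⟨h2, _⟩ | ⟨_, h2⟩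
      · exact hint x hx e he i h1 hi h2
      · exact hint y hy e he i h1 hi h2
    · have hi0 : i = 0 := by omega
      by_cases h3 : i + 1 < ℓ e
      · rcases hxy' with ⟨_, h2⟩ | ⟨h2, _⟩
        · exact hint y hy e he _ (by omega) h3 h2
        · exact hint x hx e he _ (by omega) h3 h2
      · have hl : i + 1 = ℓ e := by omega
        rw [hl, hi0] at hxy'
        obtain ⟨_, k2⟩ := h.ends e he
        induction e using Sym2.ind with
        | _ u v =>
          rw [Sym2.map_mk] at k2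
          have : s(x, y) = s(b u, b v) := by
            rw [← k2]; exact Sym2.eq_iff.2 hxy'
          rcases Sym2.eq_iff.1 this with ⟨h4, h5⟩ | ⟨h4, h5⟩
          · obtain ⟨u', rfl⟩ := hbr x hx _ h4
            obtain ⟨v', rfl⟩ := hbr y hy _ h5
            exact ⟨s(u', v'), rfl⟩
          · obtain ⟨u', rfl⟩ := hbr x hx _ h4
            obtain ⟨v', rfl⟩ := hbr y hy _ h5
            exact ⟨s(v', u'), rfl⟩

/-- an induced subgraph is an induced topological minor -/
lemma isITM_of_embedding (f : H ↪g G) : IsITM H G := by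
  rw [isITM_iff]
  refine ⟨f, fun _ => 1, fun e i => if i = 0 then f e.out.1 else f e.out.2, f.injective,
    ?_, ?_, ?_, ?_, ?_⟩
  · intro e he
    refine ⟨le_rfl, ?_⟩
    have : e = s(e.out.1, e.out.2) := (Quot.out_eq e).symm
    conv_rhs => rw [this]
    rfl
  · intro e he i hi hi'; omega
  · intro e he e' he' i j hi hi'; omega
  · intro e he i hi
    have hi0 : i = 0 := by omega
    subst hi0
    have : e = s(e.out.1, e.out.2) := (Quot.out_eq e).symm
    rw [this, SimpleGraph.mem_edgeSet] at he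
    simpa using f.map_adj_iff.2 he
  · intro x y hx hy hxy
    have key : ∀ x, Used H f (fun _ => 1) (fun e i => if i = 0 then f e.out.1 else f e.out.2) x →
        ∃ w, x = f w := by
      rintro x (⟨w, hw⟩ | ⟨e, _, i, hi, hi', _⟩)
      · exact ⟨w, hw⟩
      · have : i < 1 := hi'
        omega
    obtain ⟨u, rfl⟩ := key x hx
    obtain ⟨v, rfl⟩ := key y hy
    rw [f.map_adj_iff] at hxy
    refine ⟨s(u, v), hxy, 0, by omega, ?_⟩
    have : s(u, v) = s((s(u, v)).out.1, (s(u, v)).out.2) := (Quot.out_eq _).symm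
    have h2 := congrArg (Sym2.map f) this
    rw [Sym2.map_mk, Sym2.map_mk] at h2
    simpa using h2

end Pool.Agent.Y394.TM
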