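import Pool.Agent.Y394.TM.Api
import Pool.Agent.Y394.TM.Fam1
import Pool.Agent.H175R2.Fam
import Pool.Agent.H175R2.Cw

/-! What the four unbounded families give. -/

set_option autoImplicit false

namespace Pool.Agent.Y394.TM

open Pool.Agent.H175R2

lemma exists_cwLE' {V : Type} [Finite V] [Nonempty V] (G : SimpleGraph V) : ∃ k, CwLE G k := by
  have : Fintype V := Fintype.ofFinite V
  have ht : Tame G (Fintype.card V) :=
    ⟨Finset.univ, by simp, fun x hx => by simp at hx⟩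
  exact ⟨_, cwLE_of_dt (dt_of_tame ht)⟩

lemma cwLE_cliqueWidth' {V : Type} [Finite V] [Nonempty V] (G : SimpleGraph V) :
    CwLE G (cliqueWidth G) :=
  Nat.sInf_mem (s := {k | CwLE G k}) (exists_cwLE' G)

/-- a bounded class misses members of an unbounded family -/
lemma itm_of_unbounded {W : Type} {H : SimpleGraph W} (hb : BddCwITM H) {V : ℕ → Type}
    [∀ n, Finite (V n)] (hne : ∀ n ≥ 2, Nonempty (V n)) (fam : ∀ n, SimpleGraph (V n))
    (hu : ∀ c N : ℕ, ∃ n ≥ N, ∀ k ≤ c, ¬ CwLE (fam n) k) : ∃ n, IsITM H (fam n) := by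
  obtain ⟨c, hc⟩ := hb
  obtain ⟨n, hn, hk⟩ := hu c 2
  refine ⟨n, ?_⟩
  by_contra hno
  have := hne n hn
  exact hk _ (hc (V n) (fam n) hno) (cwLE_cliqueWidth' (fam n))

/-- the properties of `H` -/
structure Good {W : Type} (H : SimpleGraph W) : Prop where
  alpha : ∀ x y z : W, x ≠ y → x ≠ z → y ≠ z → H.Adj x y ∨ H.Adj x z ∨ H.Adj y z
  k4 : ∀ a b c d : W, H.Adj a b → H.Adj a c → H.Adj a d → H.Adj b c → H.Adj b d → H.Adj c d → False
  deg : ∀ v a b c d : W, H.Adj v a → H.Adj v b → H.Adj v c → H.Adj v d → a ≠ b → a ≠ c → a ≠ d →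
    b ≠ c → b ≠ d → c ≠ d → False
  two : ∀ a b c d : W, H.Adj a b → H.Adj c d → a ≠ c → a ≠ d → b ≠ c → b ≠ d →
    H.Adj a c ∨ H.Adj a d ∨ H.Adj b c ∨ H.Adj b d
  cen : ∀ u v w u' v' w' : W, H.Adj u v → H.Adj u w → v ≠ w → ¬ H.Adj v w → H.Adj u' v' →
    H.Adj u' w' → v' ≠ w' → ¬ H.Adj v' w' → u ≠ u' → H.Adj u u'
  k31 : ∀ z a b c : W, H.Adj a b → H.Adj a c → H.Adj b c → z ≠ a → z ≠ b → z ≠ c →
    H.Adj z a ∨ H.Adj z b ∨ H.Adj z c

variable {W : Type} {H : SimpleGraph W}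

open Mdl

lemma cobip_alpha' {n : ℕ} (h : IsITM H (famCobip n)) (x y z : W) (hxy : x ≠ y) (hxz : x ≠ z)
    (hyz : y ≠ z) : H.Adj x y ∨ H.Adj x z ∨ H.Adj y z := by
  obtain ⟨b, ℓ, p, h⟩ := isITM_iff.1 h
  have hl : ∀ u v : W, u ≠ v → (∃ i, b u = .inl i) → (∃ i, b v = .inl i) → H.Adj u v := by
    rintro u v huv ⟨i, hi⟩ ⟨j, hj⟩
    apply h.adj_bb
    unfold famCobip
    rw [SimpleGraph.fromRel_adj]
    exact ⟨fun hh => huv (h.inj hh), Or.inl (Or.inl ⟨i, j, hi, hj⟩)⟩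
  have hr : ∀ u v : W, u ≠ v → (∃ i, b u = .inr i) → (∃ i, b v = .inr i) → H.Adj u v := by
    rintro u v huv ⟨i, hi⟩ ⟨j, hj⟩
    apply h.adj_bb
    unfold famCobip
    rw [SimpleGraph.fromRel_adj]
    exact ⟨fun hh => huv (h.inj hh), Or.inl (Or.inr (Or.inl ⟨i, j, hi, hj⟩))⟩
  have ht : ∀ u, (∃ i, b u = .inl i) ∨ (∃ i, b u = .inr i) := by
    intro u
    cases b u with
    | inl i => exact Or.inl ⟨i, rfl⟩
    | inr i => exact Or.inr ⟨i, rfl⟩
  rcases ht x with hx | hx <;> rcases ht y with hy | hy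
  · exact Or.inl (hl x y hxy hx hy)
  · rcases ht z with hz | hz
    · exact Or.inr (Or.inl (hl x z hxz hx hz))
    · exact Or.inr (Or.inr (hr y z hyz hy hz))
  · rcases ht z with hz | hz
    · exact Or.inr (Or.inr (hl y z hyz hy hz))
    · exact Or.inr (Or.inl (hr x z hxz hx hz))
  · exact Or.inl (hr x y hxy hx hy)

lemma split_ll {n : ℕ} {x y : Fin n ⊕ (Fin n × Fin n)} (hx : ∃ i, x = .inl i) (hy : ∃ i, y = .inl i)
    (hxy : x ≠ y) : (famSplit n).Adj x y := by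
  obtain ⟨i, hi⟩ := hx
  obtain ⟨j, hj⟩ := hy
  unfold famSplit
  rw [SimpleGraph.fromRel_adj]
  exact ⟨hxy, Or.inl (Or.inl ⟨i, j, hi, hj⟩)⟩

lemma split_edge {n : ℕ} {x y : Fin n ⊕ (Fin n × Fin n)} (h : (famSplit n).Adj x y) :
    (∃ i, x = .inl i) ∨ (∃ i, y = .inl i) := by
  unfold famSplit at h
  rw [SimpleGraph.fromRel_adj] at h
  rcases h with ⟨_, (⟨a, _, h1, _⟩ | ⟨a, _, h1, _⟩) | (⟨_, a, _, h1⟩ | ⟨a, _, h1, _⟩)⟩
  · exact Or.inl ⟨a, h1⟩
  · exact Or.inl ⟨a, h1⟩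
  · exact Or.inl ⟨a, h1⟩
  · exact Or.inr ⟨a, h1⟩

lemma split_two {n : ℕ} (h : IsITM H (famSplit n)) (a b c d : W) (hab : H.Adj a b)
    (hcd : H.Adj c d) (h1 : a ≠ c) (h2 : a ≠ d) (h3 : b ≠ c) (h4 : b ≠ d) :
    H.Adj a c ∨ H.Adj a d ∨ H.Adj b c ∨ H.Adj b d := by
  obtain ⟨B, ℓ, p, h⟩ := isITM_iff.1 h
  by_contra hcon
  push Not at hcon
  obtain ⟨k1, k2, k3, k4⟩ := hcon
  have e1 := h.nx_adj hab
  have e2 := h.nx_adj hcd
  have f1 : B a ≠ B c ∧ ¬ (famSplit n).Adj (B a) (B c) :=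
    ⟨fun hh => h1 (h.inj hh), fun hh => k1 (h.adj_bb hh)⟩
  have f2 := h.far_b hcd h1 h2 k2
  have f3 := h.far_b hab (Ne.symm h1) (Ne.symm h3) (fun hh => k3 hh.symm)
  have f4 := h.far_nx hab hcd h2 h3 h4 k4
  rcases split_edge e1 with g1 | g1 <;> rcases split_edge e2 with g2 | g2
  · exact f1.2 (split_ll g1 g2 f1.1)
  · exact f2.2 (split_ll g1 g2 f2.1)
  · exact f3.2 (split_ll g2 g1 f3.1)
  · exact f4.2 (split_ll g1 g2 f4.1)

lemma split_cen {n : ℕ} (h : IsITM H (famSplit n)) (u v w u' v' w' : W) (huv : H.Adj u v)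
    (huw : H.Adj u w) (hvw : v ≠ w) (hvw' : ¬ H.Adj v w) (huv' : H.Adj u' v')
    (huw' : H.Adj u' w') (hvw2 : v' ≠ w') (hvw2' : ¬ H.Adj v' w') (huu : u ≠ u') : H.Adj u u' := by
  obtain ⟨B, ℓ, p, h⟩ := isITM_iff.1 h
  have key : ∀ u v w : W, H.Adj u v → H.Adj u w → v ≠ w → ¬ H.Adj v w → ∃ i, B u = .inl i := by
    intro u v w huv huw hvw hvw'
    by_contra hno
    have e1 := (split_edge (h.nx_adj huv)).resolve_left hno
    have e2 := (split_edge (h.nx_adj huw)).resolve_left hno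
    have e3 : nx B ℓ p u v ≠ nx B ℓ p u w := fun hh => hvw (h.nx_inj huv huw hh)
    exact hvw' (h.nx_nx_adj huv huw hvw (split_ll e1 e2 e3)).2.2
  exact h.adj_bb (split_ll (key u v w huv huw hvw hvw') (key u' v' w' huv' huw' hvw2 hvw2')
    (fun hh => huu (h.inj hh)))

lemma twall_deg {n : ℕ} (h : IsITM H (twall n)) (v a b c d : W) (ha : H.Adj v a) (hb : H.Adj v b)
    (hc : H.Adj v c) (hd : H.Adj v d) (hab : a ≠ b) (hac : a ≠ c) (had : a ≠ d) (hbc : b ≠ c)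
    (hbd : b ≠ d) (hcd : c ≠ d) : False := by
  obtain ⟨B, ℓ, p, h⟩ := isITM_iff.1 h
  exact tw_deg (h.nx_adj ha) (h.nx_adj hb) (h.nx_adj hc) (h.nx_adj hd)
    (fun hh => hab (h.nx_inj ha hb hh)) (fun hh => hac (h.nx_inj ha hc hh))
    (fun hh => had (h.nx_inj ha hd hh)) (fun hh => hbc (h.nx_inj hb hc hh))
    (fun hh => hbd (h.nx_inj hb hd hh)) (fun hh => hcd (h.nx_inj hc hd hh))

lemma twall_k4 {n : ℕ} (h : IsITM H (twall n)) (a b c d : W) (hab : H.Adj a b) (hac : H.Adj a c)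
    (had : H.Adj a d) (hbc : H.Adj b c) (hbd : H.Adj b d) (hcd : H.Adj c d) : False := by
  obtain ⟨B, ℓ, p, h⟩ := isITM_iff.1 h
  have tr : ∀ u v w : W, H.Adj u v → H.Adj u w → v ≠ w →
      (twall n).Adj (nx B ℓ p u v) (nx B ℓ p u w) →
      (twall n).Adj (B u) (B v) ∧ (twall n).Adj (B u) (B w) ∧ (twall n).Adj (B v) (B w) := by
    intro u v w huv huw hvw hh
    obtain ⟨e1, e2, _⟩ := h.nx_nx_adj huv huw hvw hh
    have f1 := h.nx_adj huv
    have f2 := h.nx_adj huw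
    rw [e1] at f1 hh
    rw [e2] at f2 hh
    exact ⟨f1, f2, hh⟩
  have key : ∀ u v w x : W, H.Adj u v → H.Adj u w → H.Adj u x → v ≠ w → v ≠ x → w ≠ x →
      ((twall n).Adj (B u) (B v) ∧ (twall n).Adj (B u) (B w) ∧ (twall n).Adj (B v) (B w)) ∨
      ((twall n).Adj (B u) (B v) ∧ (twall n).Adj (B u) (B x) ∧ (twall n).Adj (B v) (B x)) ∨
      ((twall n).Adj (B u) (B w) ∧ (twall n).Adj (B u) (B x) ∧ (twall n).Adj (B w) (B x)) := by
    intro u v w x huv huw hux hvw hvx hwx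
    rcases tw_claw (h.nx_adj huv) (h.nx_adj huw) (h.nx_adj hux) (fun hh => hvw (h.nx_inj huv huw hh))
      (fun hh => hvx (h.nx_inj huv hux hh)) (fun hh => hwx (h.nx_inj huw hux hh)) with hh | hh | hh
    · exact Or.inl (tr u v w huv huw hvw hh)
    · exact Or.inr (Or.inl (tr u v x huv hux hvx hh))
    · exact Or.inr (Or.inr (tr u w x huw hux hwx hh))
  -- a triangle and a vertex
  have fin : ∀ u v w x : W, H.Adj u v → H.Adj u w → H.Adj u x → H.Adj v w → H.Adj v x → H.Adj w x →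
      ((twall n).Adj (B u) (B v) ∧ (twall n).Adj (B u) (B w) ∧ (twall n).Adj (B v) (B w)) →
      False := by
    rintro u v w x huv huw hux hvw hvx hwx ⟨t1, t2, t3⟩
    rcases key x u v w hux.symm hvx.symm hwx.symm huv.ne huw.ne hvw.ne with
      ⟨s1, s2, s3⟩ | ⟨s1, s2, s3⟩ | ⟨s1, s2, s3⟩
    · exact tw_diamond t1 t2 t3 s1.symm s2.symm (fun hh => hwx.ne (h.inj hh))
    · exact tw_diamond t2 t1 t3.symm s1.symm s2.symm (fun hh => hvx.ne (h.inj hh))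
    · exact tw_diamond t3 t1.symm t2.symm s1.symm s2.symm (fun hh => hux.ne (h.inj hh))
  rcases key a b c d hab hac had hbc.ne hbd.ne hcd.ne with hh | hh | hh
  · exact fin a b c d hab hac had hbc hbd hcd hh
  · exact fin a b d c hab had hac hbd hbc hcd.symm hh
  · exact fin a c d b hac had hab hcd hbc.symm hbd.symm hh

lemma trunc_k31 {n : ℕ} (h : IsITM H (famTrunc n)) (z a b c : W) (hab : H.Adj a b)
    (hac : H.Adj a c) (hbc : H.Adj b c) (hza : z ≠ a) (hzb : z ≠ b) (hzc : z ≠ c) :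
    H.Adj z a ∨ H.Adj z b ∨ H.Adj z c := by
  obtain ⟨B, ℓ, p, h⟩ := isITM_iff.1 h
  by_contra hcon
  push Not at hcon
  obtain ⟨k1, k2, k3⟩ := hcon
  -- nonneighbours
  have non : ∀ x : {p : Fin n × Fin n // p.1 ≠ p.2}, B z ≠ x → ¬ (famTrunc n).Adj (B z) x →
      x.1.1 = (B z).1.1 ∨ (x.1.1 = (B z).1.2 ∧ x.1.2 = (B z).1.1) := by
    intro x hx hx'
    unfold famTrunc at hx'
    rw [SimpleGraph.fromRel_adj] at hx'
    by_contra hcon
    apply hx'
    exact ⟨hx, Or.inr hcon⟩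
  have adj1 : ∀ x y : {p : Fin n × Fin n // p.1 ≠ p.2}, (famTrunc n).Adj x y → x.1.1 ≠ y.1.1 := by
    intro x y hxy he
    unfold famTrunc at hxy
    rw [SimpleGraph.fromRel_adj] at hxy
    rcases hxy.2 with hh | hh
    · exact hh (Or.inl he)
    · exact hh (Or.inl he.symm)
  have key : ∀ u v w : W, H.Adj u v → H.Adj u w → v ≠ w → z ≠ u → z ≠ v → z ≠ w →
      ¬ H.Adj z u → ¬ H.Adj z v → ¬ H.Adj z w → (B u).1.1 = (B z).1.2 ∧ (B u).1.2 = (B z).1.1 := by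
    intro u v w huv huw hvw hzu hzv hzw nu nv nw
    have f1 := non (B u) (fun hh => hzu (h.inj hh)) (fun hh => nu (h.adj_bb hh))
    have g2 := h.far_b huv hzu hzv nv
    have g3 := h.far_b huw hzu hzw nw
    have f2 := non _ g2.1 g2.2
    have f3 := non _ g3.1 g3.2
    rcases f1 with f1 | f1
    · exfalso
      have a1 := adj1 _ _ (h.nx_adj huv)
      have a2 := adj1 _ _ (h.nx_adj huw)
      have b1 := f2.resolve_left (fun hh => a1 (f1.trans hh.symm))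
      have b2 := f3.resolve_left (fun hh => a2 (f1.trans hh.symm))
      apply hvw
      apply h.nx_inj huv huw
      apply Subtype.ext
      exact Prod.ext (b1.1.trans b2.1.symm) (b1.2.trans b2.2.symm)
    · exact f1
  have e1 := key a b c hab hac hbc.ne hza hzb hzc k1 k2 k3
  have e2 := key b a c hab.symm hbc hac.ne hzb hza hzc k2 k1 k3
  apply hab.ne
  apply h.inj
  apply Subtype.ext
  exact Prod.ext (e1.1.trans e2.1.symm) (e1.2.trans e2.2.symm)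

theorem good_of_bdd (hb : BddCwITM H) : Good H := by
  obtain ⟨n1, h1⟩ := itm_of_unbounded hb (V := fun n => Fin n ⊕ (Fin n × Fin n))
    (fun n hn => ⟨.inl ⟨0, by omega⟩⟩) (fun n => famCobip n) famCobip_unbounded
  obtain ⟨n2, h2⟩ := itm_of_unbounded hb (V := fun n => Fin n ⊕ (Fin n × Fin n))
    (fun n hn => ⟨.inl ⟨0, by omega⟩⟩) (fun n => famSplit n) famSplit_unbounded
  obtain ⟨n3, h3⟩ := itm_of_unbounded hb (V := fun n => {p : Fin n × Fin n // p.1 ≠ p.2})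
    (fun n hn => ⟨⟨(⟨0, by omega⟩, ⟨1, by omega⟩), by simp⟩⟩) (fun n => famTrunc n)
    famTrunc_unbounded
  obtain ⟨n4, h4⟩ := itm_of_unbounded hb (V := fun n => TV n)
    (fun n hn => ⟨(⟨0, by omega⟩, ⟨0, by omega⟩, false, 0)⟩) (fun n => twall n) twall_unbounded
  exact ⟨cobip_alpha' h1, twall_k4 h4, twall_deg h4, split_two h2, split_cen h2, trunc_k31 h3⟩

end Pool.Agent.Y394.TM
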