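import Pool.Agent.Y394.TM.Model
import Pool.Agent.H175R2.Conn

/-! Shortest sequences and the two basic induced topological minors. -/

set_option autoImplicit false

namespace Pool.Agent.Y394.TM

open Pool.Agent.H175R2

variable {V : Type} {G : SimpleGraph V}

/-- a walk `p 0, …, p m` inside `S` -/
structure Sq (G : SimpleGraph V) (S : Set V) (m : ℕ) (p : ℕ → V) : Prop where
  mem : ∀ i ≤ m, p i ∈ S
  adj : ∀ i < m, G.Adj (p i) (p (i + 1))

/-- an induced path `p 0, …, p m` -/
structure IP (G : SimpleGraph V) (m : ℕ) (p : ℕ → V) : Prop where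
  inj : ∀ i ≤ m, ∀ j ≤ m, p i = p j → i = j
  adj : ∀ i ≤ m, ∀ j ≤ m, (G.Adj (p i) (p j) ↔ (i + 1 = j ∨ j + 1 = i))

lemma Sq.sub {S : Set V} {m : ℕ} {p : ℕ → V} (h : Sq G S m p) {i j : ℕ} (hij : i ≤ j)
    (hj : j ≤ m) : Sq G S (j - i) (fun t => p (i + t)) :=
  ⟨fun t ht => h.mem _ (by omega), fun t ht => h.adj _ (by omega)⟩

lemma Sq.skip {S : Set V} {m : ℕ} {p : ℕ → V} (h : Sq G S m p) {i j : ℕ} (hij : i < j)
    (hj : j ≤ m) (ha : G.Adj (p i) (p j)) :
    Sq G S (m - (j - i - 1)) (fun t => if t ≤ i then p t else p (t + (j - i - 1))) := by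
  refine ⟨fun t ht => ?_, fun t ht => ?_⟩
  · split_ifs with h1
    · exact h.mem _ (by omega)
    · exact h.mem _ (by omega)
  · by_cases h1 : t + 1 ≤ i
    · rw [if_pos (by omega), if_pos h1]; exact h.adj _ (by omega)
    · by_cases h2 : t ≤ i
      · rw [if_pos h2, if_neg h1]
        have e1 : t = i := by omega
        have e2 : t + 1 + (j - i - 1) = j := by omega
        rw [e2, e1]; exact ha
      · rw [if_neg h2, if_neg h1]
        have e2 : t + 1 + (j - i - 1) = (t + (j - i - 1)) + 1 := by omega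
        rw [e2]; exact h.adj _ (by omega)

lemma Sq.skipEq {S : Set V} {m : ℕ} {p : ℕ → V} (h : Sq G S m p) {i j : ℕ} (hij : i < j)
    (hj : j ≤ m) (ha : p i = p j) :
    Sq G S (m - (j - i)) (fun t => if t ≤ i then p t else p (t + (j - i))) := by
  refine ⟨fun t ht => ?_, fun t ht => ?_⟩
  · split_ifs with h1
    · exact h.mem _ (by omega)
    · exact h.mem _ (by omega)
  · by_cases h1 : t + 1 ≤ i
    · rw [if_pos (by omega), if_pos h1]; exact h.adj _ (by omega)
    · by_cases h2 : t ≤ i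
      · rw [if_pos h2, if_neg h1]
        have e1 : t = i := by omega
        have e2 : t + 1 + (j - i) = j + 1 := by omega
        rw [e2, e1, ha]; exact h.adj _ (by omega)
      · rw [if_neg h2, if_neg h1]
        have e2 : t + 1 + (j - i) = (t + (j - i)) + 1 := by omega
        rw [e2]; exact h.adj _ (by omega)

lemma Sq.snoc {S : Set V} {m : ℕ} {p : ℕ → V} (h : Sq G S m p) {i : ℕ} (hi : i ≤ m) {z : V}
    (hz : z ∈ S) (ha : G.Adj (p i) z) : Sq G S (i + 1) (fun t => if t ≤ i then p t else z) := by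
  refine ⟨fun t ht => ?_, fun t ht => ?_⟩
  · split_ifs with h1
    · exact h.mem _ (by omega)
    · exact hz
  · rw [if_pos (by omega)]
    by_cases h1 : t + 1 ≤ i
    · rw [if_pos h1]; exact h.adj _ (by omega)
    · rw [if_neg h1]
      have : t = i := by omega
      rw [this]; exact ha

lemma Sq.cons {S : Set V} {m : ℕ} {p : ℕ → V} (h : Sq G S m p) {i : ℕ} (hi : i ≤ m) {z : V}
    (hz : z ∈ S) (ha : G.Adj z (p i)) :
    Sq G S (m - i + 1) (fun t => if t = 0 then z else p (i + t - 1)) := by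
  refine ⟨fun t ht => ?_, fun t ht => ?_⟩
  · split_ifs with h1
    · exact hz
    · exact h.mem _ (by omega)
  · rw [if_neg (by omega : ¬ t + 1 = 0)]
    by_cases h1 : t = 0
    · rw [if_pos h1, h1]
      exact ha
    · rw [if_neg h1]
      have e2 : i + (t + 1) - 1 = (i + t - 1) + 1 := by omega
      rw [e2]; exact h.adj _ (by omega)

lemma cn_sq {S : Finset V} (h : Cn G S) {a b : V} (ha : a ∈ S) (hb : b ∈ S) :
    ∃ m p, Sq G (S : Set V) m p ∧ p 0 = a ∧ p m = b := by
  classical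
  set T := S.filter (fun x => ∃ m p, Sq G (S : Set V) m p ∧ p 0 = a ∧ p m = x) with hT
  by_contra hcon
  obtain ⟨x, hx, y, hy, hxy⟩ := h.2 T (Finset.filter_subset _ _)
    ⟨a, Finset.mem_filter.2 ⟨ha, 0, fun _ => a, ⟨fun _ _ => ha, fun _ hi => absurd hi (by omega)⟩, rfl, rfl⟩⟩
    ⟨b, Finset.mem_sdiff.2 ⟨hb, fun hh => hcon (Finset.mem_filter.1 hh).2⟩⟩
  obtain ⟨hx1, m, p, hp, hp0, hpm⟩ := Finset.mem_filter.1 hx
  obtain ⟨hy1, hy2⟩ := Finset.mem_sdiff.1 hy
  apply hy2
  refine Finset.mem_filter.2 ⟨hy1, m + 1, _, hp.snoc le_rfl (z := y) hy1 (by rw [hpm]; exact hxy), ?_, ?_⟩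
  · simp [hp0]
  · simp

theorem exists_min {S : Set V} (R : V → V → Prop) (h : ∃ m p, Sq G S m p ∧ R (p 0) (p m)) :
    ∃ m p, Sq G S m p ∧ R (p 0) (p m) ∧ ∀ m' p', Sq G S m' p' → R (p' 0) (p' m') → m ≤ m' := by
  classical
  have hex : ∃ m, ∃ p, Sq G S m p ∧ R (p 0) (p m) := h
  obtain ⟨p, hp, hR⟩ := Nat.find_spec hex
  exact ⟨Nat.find hex, p, hp, hR, fun m' p' hp' hR' => Nat.find_min' hex ⟨p', hp', hR'⟩⟩

lemma min_ip {S : Set V} {R : V → V → Prop} {m : ℕ} {p : ℕ → V} (hp : Sq G S m p)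
    (hR : R (p 0) (p m)) (hmin : ∀ m' p', Sq G S m' p' → R (p' 0) (p' m') → m ≤ m') :
    IP G m p := by
  have hinj : ∀ i j, i < j → j ≤ m → p i ≠ p j := by
    intro i j hij hj he
    have := hmin _ _ (hp.skipEq hij hj he) (by
      rw [if_pos (Nat.zero_le _)]
      split_ifs with h1
      · have e1 : j = m := by omega
        have e2 : m - (j - i) = i := by omega
        rw [e2, he, e1]; exact hR
      · have e2 : m - (j - i) + (j - i) = m := by omega
        rw [e2]; exact hR)
    omega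
  have hadj : ∀ i j, i < j → j ≤ m → G.Adj (p i) (p j) → i + 1 = j := by
    intro i j hij hj he
    have := hmin _ _ (hp.skip hij hj he) (by
      rw [if_pos (Nat.zero_le _)]
      rw [if_neg (by omega)]
      have e2 : m - (j - i - 1) + (j - i - 1) = m := by omega
      rw [e2]; exact hR)
    omega
  refine ⟨fun i hi j hj hij => ?_, fun i hi j hj => ⟨fun h => ?_, fun h => ?_⟩⟩
  · rcases lt_trichotomy i j with h1 | h1 | h1
    · exact absurd hij (hinj i j h1 hj)
    · exact h1
    · exact absurd hij.symm (hinj j i h1 hi)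
  · rcases lt_trichotomy i j with h1 | h1 | h1
    · exact Or.inl (hadj i j h1 hj h)
    · subst h1; exact absurd rfl h.ne
    · exact Or.inr (hadj j i h1 hi h.symm)
  · rcases h with h | h
    · subst h; exact hp.adj i (by omega)
    · subst h; exact (hp.adj j (by omega)).symm

lemma min_rel {S : Set V} {R : V → V → Prop} {m : ℕ} {p : ℕ → V} (hp : Sq G S m p)
    (hmin : ∀ m' p', Sq G S m' p' → R (p' 0) (p' m') → m ≤ m') {i j : ℕ} (hij : i ≤ j)
    (hj : j ≤ m) (hR : R (p i) (p j)) : i = 0 ∧ j = m := by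
  have := hmin _ _ (hp.sub hij hj) (by
    have e : i + (j - i) = j := by omega
    rw [e]; exact hR)
  omega

/-! ### the paw -/

lemma inj4 {a b c d : V} (h1 : a ≠ b) (h2 : a ≠ c) (h3 : a ≠ d) (h4 : b ≠ c) (h5 : b ≠ d)
    (h6 : c ≠ d) : Function.Injective ![a, b, c, d] := by
  intro i j hij
  fin_cases i <;> fin_cases j <;> first
    | rfl
    | exact absurd hij h1
    | exact absurd hij h2
    | exact absurd hij h3
    | exact absurd hij h4
    | exact absurd hij h5
    | exact absurd hij h6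
    | exact absurd hij.symm h1
    | exact absurd hij.symm h2
    | exact absurd hij.symm h3
    | exact absurd hij.symm h4
    | exact absurd hij.symm h5
    | exact absurd hij.symm h6

lemma paw_edge {e : Sym2 (Fin 4)} : e ∈ paw.edgeSet ↔
    (e = s(0, 1) ∨ e = s(0, 2) ∨ e = s(0, 3) ∨ e = s(1, 2)) := by
  induction e using Sym2.ind with
  | _ u v =>
    rw [SimpleGraph.mem_edgeSet]
    unfold paw
    rw [SimpleGraph.fromRel_adj]
    revert u v
    decide

/-- a cycle with a pendant vertex -/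
theorem pan_itm {m : ℕ} {p : ℕ → V} (hm : 1 ≤ m) (hp : IP G m p) {v z : V}
    (hv : ∀ i ≤ m, v ≠ p i) (hvp : ∀ i ≤ m, (G.Adj v (p i) ↔ (i = 0 ∨ i = m)))
    (hz : ∀ i ≤ m, z ≠ p i) (hzv : G.Adj v z) (hzp : ∀ i ≤ m, ¬ G.Adj z (p i)) :
    IsITM paw G := by
  rw [isITM_iff]
  refine ⟨![v, p 0, p m, z], fun e => if e = s(1, 2) then m else 1,
    fun e i => if e = s(1, 2) then p i else if i = 0 then v else if e = s(0, 1) then p 0 else
      if e = s(0, 2) then p m else z, ?_, ?_, ?_, ?_, ?_, ?_⟩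
  · exact inj4 (hv 0 (by omega)) (hv m le_rfl) hzv.ne (fun h => by
      have := hp.inj 0 (by omega) m le_rfl h
      omega) (hz 0 (by omega)).symm (hz m le_rfl).symm
  · intro e he
    rw [paw_edge] at he
    rcases he with rfl | rfl | rfl | rfl
    · simp
    · simp
    · simp
    · simp [hm]
  · intro e he i hi hi' w
    rw [paw_edge] at he
    rcases he with rfl | rfl | rfl | rfl
    · simp at hi'; omega
    · simp at hi'; omega
    · simp at hi'; omega
    · simp only [if_true] at hi' ⊢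
      fin_cases w
      · exact fun hh => hv i (by omega) hh.symm
      · intro hh
        have := hp.inj i (by omega) 0 (by omega) hh
        omega
      · intro hh
        have := hp.inj i (by omega) m (by omega) hh
        omega
      · exact fun hh => hz i (by omega) hh.symm
  · intro e he e' he' i j hi hi' hj hj' hij
    have key : ∀ e : Sym2 (Fin 4), e ∈ paw.edgeSet → ∀ i : ℕ, 0 < i → i < (if e = s(1, 2) then m else 1) →
        e = s(1, 2) := by
      intro e _ i hi hi'
      by_contra hne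
      rw [if_neg hne] at hi'; omega
    have e1 := key e he i hi hi'
    have e2 := key e' he' j hj hj'
    subst e1
    subst e2
    simp only [if_true] at hi' hj' hij
    exact ⟨rfl, hp.inj i (by omega) j (by omega) hij⟩
  · intro e he i hi
    rw [paw_edge] at he
    rcases he with rfl | rfl | rfl | rfl
    · have : i = 0 := by simpa using hi
      subst this
      simpa using (hvp 0 (by omega)).2 (Or.inl rfl)
    · have : i = 0 := by simpa using hi
      subst this
      simpa using (hvp m (by omega)).2 (Or.inr rfl)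
    · have : i = 0 := by simpa using hi
      subst this
      simpa using hzv
    · simp only [if_true] at hi ⊢
      exact (hp.adj i (by omega) (i + 1) (by omega)).2 (Or.inl rfl)
  · have hU : ∀ x, Used paw ![v, p 0, p m, z] (fun e => if e = s(1, 2) then m else 1)
        (fun e i => if e = s(1, 2) then p i else if i = 0 then v else if e = s(0, 1) then p 0 else
          if e = s(0, 2) then p m else z) x → x = v ∨ x = z ∨ ∃ i ≤ m, x = p i := by
      rintro x (⟨w, rfl⟩ | ⟨e, he, i, hi, hi', rfl⟩)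
      · fin_cases w
        · exact Or.inl rfl
        · exact Or.inr (Or.inr ⟨0, by omega, rfl⟩)
        · exact Or.inr (Or.inr ⟨m, by omega, rfl⟩)
        · exact Or.inr (Or.inl rfl)
      · by_cases he' : e = s(1, 2)
        · subst he'
          simp only [if_true] at hi'
          exact Or.inr (Or.inr ⟨i, by omega, by simp⟩)
        · simp only [if_neg he'] at hi'; omega
    have fwd : ∀ x y, (x = v ∨ x = z ∨ ∃ i ≤ m, x = p i) → (y = v ∨ y = z ∨ ∃ i ≤ m, y = p i) →
        G.Adj x y → (x = v ∧ y = z) ∨ (x = v ∧ y = p 0) ∨ (x = v ∧ y = p m) ∨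
        (y = v ∧ x = z) ∨ (y = v ∧ x = p 0) ∨ (y = v ∧ x = p m) ∨
        (∃ i < m, (x = p i ∧ y = p (i + 1)) ∨ (x = p (i + 1) ∧ y = p i)) := by
      rintro x y (rfl | rfl | ⟨i, hi, rfl⟩) (rfl | rfl | ⟨j, hj, rfl⟩) hxy
      · exact absurd rfl hxy.ne
      · exact Or.inl ⟨rfl, rfl⟩
      · rcases (hvp j hj).1 hxy with rfl | rfl
        · exact Or.inr (Or.inl ⟨rfl, rfl⟩)
        · exact Or.inr (Or.inr (Or.inl ⟨rfl, rfl⟩))
      · exact Or.inr (Or.inr (Or.inr (Or.inl ⟨rfl, rfl⟩)))
      · exact absurd rfl hxy.ne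
      · exact absurd hxy (hzp j hj)
      · rcases (hvp i hi).1 hxy.symm with rfl | rfl
        · exact Or.inr (Or.inr (Or.inr (Or.inr (Or.inl ⟨rfl, rfl⟩))))
        · exact Or.inr (Or.inr (Or.inr (Or.inr (Or.inr (Or.inl ⟨rfl, rfl⟩)))))
      · exact absurd hxy.symm (hzp i hi)
      · refine Or.inr (Or.inr (Or.inr (Or.inr (Or.inr (Or.inr ?_)))))
        rcases (hp.adj i hi j hj).1 hxy with rfl | rfl
        · exact ⟨i, by omega, Or.inl ⟨rfl, rfl⟩⟩
        · exact ⟨j, by omega, Or.inr ⟨rfl, rfl⟩⟩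
    intro x y hx hy hxy
    rcases fwd x y (hU x hx) (hU y hy) hxy with ⟨rfl, rfl⟩ | ⟨rfl, rfl⟩ | ⟨rfl, rfl⟩ | ⟨rfl, rfl⟩ |
      ⟨rfl, rfl⟩ | ⟨rfl, rfl⟩ | ⟨i, hi, h⟩
    · exact ⟨s(0, 3), paw_edge.2 (by simp), 0, by simp, by simp⟩
    · exact ⟨s(0, 1), paw_edge.2 (by simp), 0, by simp, by simp⟩
    · exact ⟨s(0, 2), paw_edge.2 (by simp), 0, by simp, by simp⟩
    · exact ⟨s(0, 3), paw_edge.2 (by simp), 0, by simp, by simp [Sym2.eq_swap]⟩
    · exact ⟨s(0, 1), paw_edge.2 (by simp), 0, by simp, by simp [Sym2.eq_swap]⟩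
    · exact ⟨s(0, 2), paw_edge.2 (by simp), 0, by simp, by simp [Sym2.eq_swap]⟩
    · refine ⟨s(1, 2), paw_edge.2 (by simp), i, by simpa using hi, ?_⟩
      simp only [if_true]
      rcases h with ⟨rfl, rfl⟩ | ⟨rfl, rfl⟩
      · rfl
      · exact Sym2.eq_swap

end Pool.Agent.Y394.TM
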