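import Pool.Agent.Y394.TM.Theta
import Pool.Agent.H175R2.Blocks

/-! 2-connected graphs without the paw as an induced topological minor. -/

set_option autoImplicit false

namespace Pool.Agent.Y394.TM

open Finset Classical Pool.Agent.H175R2

variable {V : Type} {G : SimpleGraph V}

/-- a path on two vertices -/
def pt2 (y z : V) : ℕ → V := fun i => if i = 0 then y else z

/-- a path on three vertices -/
def pt3 (a b c : V) : ℕ → V := fun i => if i = 0 then a else if i = 1 then b else c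

lemma ip2 {y z : V} (h : G.Adj y z) : IP G 1 (pt2 y z) := by
  refine ⟨fun i hi j hj hij => ?_, fun i hi j hj => ?_⟩
  · interval_cases i <;> interval_cases j <;> simp [pt2] at hij ⊢
    · exact h.ne hij
    · exact h.ne hij.symm
  · interval_cases i <;> interval_cases j <;> simp [pt2, h, h.symm]

lemma ip3 {a b c : V} (h1 : G.Adj a b) (h2 : G.Adj b c) (h3 : ¬ G.Adj a c) (h4 : a ≠ c) :
    IP G 2 (pt3 a b c) := by
  have h3' : ¬ G.Adj c a := fun h => h3 h.symm
  refine ⟨fun i hi j hj hij => ?_, fun i hi j hj => ?_⟩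
  · interval_cases i <;> interval_cases j <;> simp [pt3] at hij ⊢
    · exact h1.ne hij
    · exact h4 hij
    · exact h1.ne hij.symm
    · exact h2.ne hij
    · exact h4 hij.symm
    · exact h2.ne hij.symm
  · interval_cases i <;> interval_cases j <;> simp [pt3, h1, h2, h1.symm, h2.symm, h3, h3']

lemma le1 {P : ℕ → Prop} (h0 : P 0) (h1 : P 1) : ∀ i ≤ 1, P i := by
  intro i hi; interval_cases i <;> assumption

lemma le2 {P : ℕ → Prop} (h0 : P 0) (h1 : P 1) (h2 : P 2) : ∀ i ≤ 2, P i := by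
  intro i hi; interval_cases i <;> assumption

/-- the paw -/
lemma no_paw (hno : ¬ IsITM paw G) {x y z w : V} (hxy : G.Adj x y) (hxz : G.Adj x z)
    (hyz : G.Adj y z) (hxw : G.Adj x w) (hwy : w ≠ y) (hwz : w ≠ z) : G.Adj w y ∨ G.Adj w z := by
  by_contra hcon
  push Not at hcon
  apply hno
  refine pan_itm (m := 1) (p := pt2 y z) le_rfl (ip2 hyz) (v := x) (z := w) ?_ ?_ ?_ hxw ?_
  · exact le1 hxy.ne hxz.ne
  · exact le1 (by simp [pt2, hxy]) (by simp [pt2, hxz])
  · exact le1 hwy hwz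
  · exact le1 hcon.1 hcon.2

/-- a 4-cycle `v a b c` and a neighbour `z` of `v` only -/
lemma no_pan4 (hno : ¬ IsITM paw G) {v a b c z : V} (hva : G.Adj v a) (hvc : G.Adj v c)
    (hvb : ¬ G.Adj v b) (hvb' : v ≠ b) (hab : G.Adj a b) (hbc : G.Adj b c) (hac : ¬ G.Adj a c)
    (hac' : a ≠ c) (hvz : G.Adj v z) (hza : z ≠ a) (hzc : z ≠ c) :
    G.Adj z a ∨ G.Adj z b ∨ G.Adj z c := by
  by_contra hcon
  push Not at hcon
  obtain ⟨h1, h2, h3⟩ := hcon
  have hzb : z ≠ b := by rintro rfl; exact hvb hvz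
  apply hno
  refine pan_itm (m := 2) (p := pt3 a b c) (by omega) (ip3 hab hbc hac hac') (v := v) (z := z)
    ?_ ?_ ?_ hvz ?_
  · exact le2 hva.ne hvb' hvc.ne
  · exact le2 (by simp [pt3, hva]) (by simp [pt3, hvb]) (by simp [pt3, hvc])
  · exact le2 hza hzb hzc
  · exact le2 h1 h2 h3

lemma first_step [Fintype V] (h2 : TwoConn G) {v x y : V} (hx : G.Adj v x) (hy : G.Adj v y)
    (hxy : x ≠ y) :
    ∃ m p, 1 ≤ m ∧ IP G m p ∧ (∀ i ≤ m, v ≠ p i) ∧ (∀ i ≤ m, (G.Adj v (p i) ↔ (i = 0 ∨ i = m))) ∧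
      (∀ z, G.Adj v z → (∀ i ≤ m, z ≠ p i) → ∀ i ≤ m, G.Adj z (p i) → m ≤ i + 1 ∧ i ≤ 1) ∧
      (2 ≤ m → ∀ a b, G.Adj v a → G.Adj v b → ¬ G.Adj a b) := by
  set R : V → V → Prop := fun a b => a ≠ b ∧ G.Adj v a ∧ G.Adj v b with hR
  obtain ⟨n, r, hr, hr0, hrn⟩ := cn_sq (h2.del v) (mem_erase.2 ⟨hx.ne.symm, mem_univ _⟩)
    (mem_erase.2 ⟨hy.ne.symm, mem_univ _⟩)
  have hS : ∀ z, G.Adj v z → z ∈ ((univ.erase v : Finset V) : Set V) := by
    intro z hz
    rw [mem_coe, mem_erase]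
    exact ⟨hz.ne.symm, mem_univ _⟩
  obtain ⟨m, p, hp, hRp, hmin⟩ := exists_min (G := G) (S := ((univ.erase v : Finset V) : Set V)) R
    ⟨n, r, hr, by rw [hr0, hrn]; exact ⟨hxy, hx, hy⟩⟩
  have hip := min_ip hp hRp hmin
  have hm : 1 ≤ m := by
    by_contra h0
    have : m = 0 := by omega
    rw [this] at hRp
    exact hRp.1 rfl
  have hvp : ∀ i ≤ m, v ≠ p i := by
    intro i hi hh
    have := hp.mem i hi
    rw [mem_coe, mem_erase] at this
    exact this.1 hh.symm
  refine ⟨m, p, hm, hip, hvp, ?_, ?_, ?_⟩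
  · intro i hi
    constructor
    · intro h
      by_contra hcon
      push Not at hcon
      have hne : p 0 ≠ p i := fun hh => hcon.1 (hip.inj 0 (by omega) i hi hh).symm
      have := min_rel hp hmin (Nat.zero_le i) hi ⟨hne, hRp.2.1, h⟩
      exact hcon.2 this.2
    · rintro (rfl | rfl)
      · exact hRp.2.1
      · exact hRp.2.2
  · intro z hz hzp i hi hadj
    constructor
    · have := hmin _ _ (hp.snoc hi (hS z hz) hadj.symm) (by
        rw [if_pos (Nat.zero_le _), if_neg (by omega)]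
        exact ⟨(hzp 0 (by omega)).symm, hRp.2.1, hz⟩)
      exact this
    · have := hmin _ _ (hp.cons hi (hS z hz) hadj) (by
        rw [if_pos rfl, if_neg (by omega)]
        have e : i + (m - i + 1) - 1 = m := by omega
        rw [e]
        exact ⟨hzp m le_rfl, hz, hRp.2.2⟩)
      omega
  · intro hm2 a b ha hb hab
    have h1 : Sq G ((univ.erase v : Finset V) : Set V) 1 (pt2 a b) := by
      refine ⟨le1 (hS a ha) (hS b hb), fun i hi => ?_⟩
      have : i = 0 := by omega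
      subst this
      exact hab
    have := hmin 1 _ h1 ⟨hab.ne, ha, hb⟩
    omega

/-- a third neighbour -/
lemma third [Fintype V] {v : V} (hd : 2 < (univ.filter (fun y => G.Adj v y)).card) (a b : V) :
    ∃ z, G.Adj v z ∧ z ≠ a ∧ z ≠ b := by
  have h1 : 0 < (((univ.filter (fun y => G.Adj v y)).erase a).erase b).card := by
    have h2 := pred_card_le_card_erase (s := univ.filter (fun y => G.Adj v y)) (a := a)
    have h3 := pred_card_le_card_erase (s := (univ.filter (fun y => G.Adj v y)).erase a) (a := b)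
    omega
  obtain ⟨z, hz⟩ := card_pos.1 h1
  rw [mem_erase, mem_erase, mem_filter] at hz
  exact ⟨z, hz.2.2.2, hz.2.1, hz.1⟩

lemma tri_case [Fintype V] (hc : Cn G univ) (hno : ¬ IsITM paw G) {x y z : V} (hxy : G.Adj x y)
    (hxz : G.Adj x z) (hyz : G.Adj y z) (w : V) (hwx : w ≠ x) (hwy : w ≠ y) (hwz : w ≠ z) :
    (G.Adj w x ∧ G.Adj w y) ∨ (G.Adj w x ∧ G.Adj w z) ∨ (G.Adj w y ∧ G.Adj w z) := by
  -- one neighbour gives two
  have one : ∀ w, w ≠ x → w ≠ y → w ≠ z → (G.Adj w x ∨ G.Adj w y ∨ G.Adj w z) →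
      (G.Adj w x ∧ G.Adj w y) ∨ (G.Adj w x ∧ G.Adj w z) ∨ (G.Adj w y ∧ G.Adj w z) := by
    rintro w h1 h2 h3 (h | h | h)
    · rcases no_paw hno hxy hxz hyz h.symm h2 h3 with h4 | h4
      · exact Or.inl ⟨h, h4⟩
      · exact Or.inr (Or.inl ⟨h, h4⟩)
    · rcases no_paw hno hxy.symm hyz hxz h.symm h1 h3 with h4 | h4
      · exact Or.inl ⟨h4, h⟩
      · exact Or.inr (Or.inr ⟨h, h4⟩)
    · rcases no_paw hno hxz.symm hyz.symm hxy h.symm h1 h2 with h4 | h4
      · exact Or.inr (Or.inl ⟨h4, h⟩)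
      · exact Or.inr (Or.inr ⟨h4, h⟩)
  by_contra hcon
  have hw : ¬ (G.Adj w x ∨ G.Adj w y ∨ G.Adj w z) := fun h => hcon (one w hwx hwy hwz h)
  set T : Finset V := univ.filter (fun u => u = x ∨ u = y ∨ u = z ∨ G.Adj u x ∨ G.Adj u y ∨
    G.Adj u z) with hT
  have memT : ∀ u, u ∈ T ↔ (u = x ∨ u = y ∨ u = z ∨ G.Adj u x ∨ G.Adj u y ∨ G.Adj u z) := by
    intro u; rw [hT, mem_filter]; simp
  obtain ⟨a, ha, b, hb, hab⟩ := hc.2 T (subset_univ _) ⟨x, (memT x).2 (Or.inl rfl)⟩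
    ⟨w, mem_sdiff.2 ⟨mem_univ _, fun h => by
      rcases (memT w).1 h with h | h | h | h
      · exact hwx h
      · exact hwy h
      · exact hwz h
      · exact hw h⟩⟩
  have hb' : b ∉ T := (mem_sdiff.1 hb).2
  rw [memT] at hb'
  push Not at hb'
  obtain ⟨b1, b2, b3, b4, b5, b6⟩ := hb'
  by_cases hax : a = x
  · subst hax; exact b4 hab.symm
  by_cases hay : a = y
  · subst hay; exact b5 hab.symm
  by_cases haz : a = z
  · subst haz; exact b6 hab.symm
  have ha' : G.Adj a x ∨ G.Adj a y ∨ G.Adj a z := by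
    rcases (memT a).1 ha with h | h | h | h
    · exact absurd h hax
    · exact absurd h hay
    · exact absurd h haz
    · exact h
  rcases one a hax hay haz ha' with ⟨h1, h2⟩ | ⟨h1, h2⟩ | ⟨h1, h2⟩
  · rcases no_paw hno h1 h2 hxy hab b1 b2 with h | h
    · exact b4 h
    · exact b5 h
  · rcases no_paw hno h1 h2 hxz hab b1 b3 with h | h
    · exact b4 h
    · exact b6 h
  · rcases no_paw hno h1 h2 hyz hab b2 b3 with h | h
    · exact b5 h
    · exact b6 h

lemma p4free_of_tri [Fintype V] (hc : Cn G univ) (hno : ¬ IsITM paw G) {x y z : V}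
    (hxy : G.Adj x y) (hxz : G.Adj x z) (hyz : G.Adj y z) : P4Free G univ := by
  -- every vertex is in a triangle
  have h1 : ∀ a, ∃ p q, G.Adj a p ∧ G.Adj a q ∧ G.Adj p q := by
    intro a
    by_cases hax : a = x
    · subst hax; exact ⟨y, z, hxy, hxz, hyz⟩
    by_cases hay : a = y
    · subst hay; exact ⟨x, z, hxy.symm, hyz, hxz⟩
    by_cases haz : a = z
    · subst haz; exact ⟨x, y, hxz.symm, hyz.symm, hxy⟩
    rcases tri_case hc hno hxy hxz hyz a hax hay haz with ⟨h1, h2⟩ | ⟨h1, h2⟩ | ⟨h1, h2⟩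
    · exact ⟨x, y, h1, h2, hxy⟩
    · exact ⟨x, z, h1, h2, hxz⟩
    · exact ⟨y, z, h1, h2, hyz⟩
  -- every edge is in a triangle
  have h2 : ∀ a b, G.Adj a b → ∃ w, G.Adj a w ∧ G.Adj b w := by
    intro a b hab
    obtain ⟨p, q, hap, haq, hpq⟩ := h1 a
    by_cases hbp : b = p
    · subst hbp; exact ⟨q, haq, hpq⟩
    by_cases hbq : b = q
    · subst hbq; exact ⟨p, hap, hpq.symm⟩
    rcases tri_case hc hno hap haq hpq b hab.ne.symm hbp hbq with ⟨_, h2⟩ | ⟨_, h2⟩ | ⟨_, h2⟩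
    · exact ⟨p, hap, h2⟩
    · exact ⟨q, haq, h2⟩
    · exact ⟨q, haq, h2⟩
  intro a _ b _ c _ d _ hac had hbd hab hbc hcd
  by_contra hcon
  push Not at hcon
  obtain ⟨n1, n2, n3⟩ := hcon
  obtain ⟨w, haw, hbw⟩ := h2 a b hab
  have hdw : d ≠ w := by rintro rfl; exact n2 haw
  rcases tri_case hc hno hab haw hbw d had.symm hbd.symm hdw with ⟨h, _⟩ | ⟨h, _⟩ | ⟨h, _⟩
  · exact n2 h.symm
  · exact n2 h.symm
  · exact n3 h.symm

theorem paw_str [Fintype V] (h2 : TwoConn G) (hno : ¬ IsITM paw G) :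
    (∀ v, (univ.filter (fun y => G.Adj v y)).card ≤ 2) ∨ P4Free G univ := by
  by_cases htri : ∃ x y z, G.Adj x y ∧ G.Adj x z ∧ G.Adj y z
  · obtain ⟨x, y, z, hxy, hxz, hyz⟩ := htri
    exact Or.inr (p4free_of_tri h2.conn hno hxy hxz hyz)
  have notri : ∀ x y z, G.Adj x y → G.Adj x z → ¬ G.Adj y z := fun x y z h1 h3 h4 =>
    htri ⟨x, y, z, h1, h3, h4⟩
  by_cases hd : ∀ v, (univ.filter (fun y => G.Adj v y)).card ≤ 2
  · exact Or.inl hd
  right
  push Not at hd
  obtain ⟨v, hd⟩ := hd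
  obtain ⟨x, hx⟩ : (univ.filter (fun y => G.Adj v y)).Nonempty := card_pos.1 (by omega)
  rw [mem_filter] at hx
  obtain ⟨y, hy, hyx, _⟩ := third hd x x
  obtain ⟨m, p, hm, hip, hvp, avp, hz, _⟩ := first_step h2 hx.2 hy hyx.symm
  have hv0 : G.Adj v (p 0) := (avp 0 (by omega)).2 (Or.inl rfl)
  have hvm : G.Adj v (p m) := (avp m le_rfl).2 (Or.inr rfl)
  have hm2 : 2 ≤ m := by
    by_contra h
    have : m = 1 := by omega
    subst this
    exact notri v _ _ hv0 hvm ((hip.adj 0 (by omega) 1 le_rfl).2 (Or.inl rfl))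
  -- every further neighbour sees `p 1`, and `m = 2`
  have key : ∀ z, G.Adj v z → z ≠ p 0 → z ≠ p m → m = 2 ∧ G.Adj z (p 1) := by
    intro z hvz hz0 hzm
    have hzp : ∀ i ≤ m, z ≠ p i := by
      intro i hi hh
      subst hh
      rcases (avp i hi).1 hvz with h | h
      · subst h; exact hz0 rfl
      · subst h; exact hzm rfl
    by_cases hno' : ∀ i ≤ m, ¬ G.Adj z (p i)
    · exact absurd (pan_itm hm hip hvp avp hzp hvz hno') hno
    · push Not at hno'
      obtain ⟨i, hi, hadj⟩ := hno'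
      have := hz z hvz hzp i hi hadj
      have hi1 : i = 1 := by omega
      subst hi1
      exact ⟨by omega, hadj⟩
  obtain ⟨z0, hvz0, hz00, hz0m⟩ := third hd (p 0) (p m)
  have hm2' : m = 2 := (key z0 hvz0 hz00 hz0m).1
  subst hm2'
  set w := p 1 with hw
  have hvw : ¬ G.Adj v w := by
    rw [hw, avp 1 (by omega)]; omega
  have hvw' : v ≠ w := hvp 1 (by omega)
  have h01 : G.Adj (p 0) w := (hip.adj 0 (by omega) 1 (by omega)).2 (Or.inl rfl)
  have h12 : G.Adj w (p 2) := (hip.adj 1 (by omega) 2 (by omega)).2 (Or.inl rfl)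
  have h02 : ¬ G.Adj (p 0) (p 2) := by rw [hip.adj 0 (by omega) 2 (by omega)]; omega
  have h02' : p 0 ≠ p 2 := fun h => by
    have := hip.inj 0 (by omega) 2 (by omega) h
    omega
  have c0 : ∀ z, G.Adj v z → G.Adj w z := by
    intro z hvz
    by_cases hz0 : z = p 0
    · subst hz0; exact h01.symm
    by_cases hz2 : z = p 2
    · subst hz2; exact h12
    exact (key z hvz hz0 hz2).2.symm
  have c1 : ∀ u, G.Adj w u → G.Adj v u := by
    intro u hwu
    by_cases hu0 : u = p 0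
    · subst hu0; exact hv0
    by_cases hu2 : u = p 2
    · subst hu2; exact hvm
    rcases no_pan4 hno h01.symm h12 (fun h => hvw h.symm) hvw'.symm hv0.symm hvm h02 h02' hwu hu0
      hu2 with h | h | h
    · exact absurd h (notri w _ _ hwu h01.symm)
    · exact h.symm
    · exact absurd h (notri w _ _ hwu h12)
  -- all neighbours of `v` have the same neighbours
  have c2 : ∀ x y u, G.Adj v x → G.Adj v y → G.Adj x u → G.Adj y u := by
    intro x y u hvx hvy hxu
    by_cases hxy : x = y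
    · subst hxy; exact hxu
    by_cases huv : u = v
    · subst huv; exact hvy.symm
    by_cases huw : u = w
    · subst huw; exact (c0 y hvy).symm
    rcases no_pan4 hno (v := x) (a := v) (b := y) (c := w) (z := u) hvx.symm (c0 x hvx).symm
      (notri v _ _ hvx hvy) hxy hvy (c0 y hvy).symm hvw hvw' hxu huv huw with h | h | h
    · exact absurd h (notri x _ _ hxu hvx.symm)
    · exact h.symm
    · exact absurd h (notri x _ _ hxu (c0 x hvx).symm)
  have c3 : ∀ u t, G.Adj (p 0) u → G.Adj u t → G.Adj v t := by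
    intro u t h0u hut
    by_cases huv : u = v
    · subst huv; exact hut
    have h2u : G.Adj (p 2) u := c2 _ _ _ hv0 hvm h0u
    by_cases ht0 : t = p 0
    · subst ht0; exact hv0
    by_cases ht2 : t = p 2
    · subst ht2; exact hvm
    rcases no_pan4 hno (v := u) (a := p 0) (b := v) (c := p 2) (z := t) h0u.symm h2u.symm
      (notri (p 0) _ _ h0u hv0.symm) huv hv0.symm hvm h02 h02' hut ht0 ht2 with h | h | h
    · exact absurd h (notri u _ _ hut h0u.symm)
    · exact h.symm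
    · exact absurd h (notri u _ _ hut h2u.symm)
  -- the whole graph
  set T : Finset V := univ.filter (fun u => G.Adj v u ∨ G.Adj (p 0) u) with hT
  have memT : ∀ u, u ∈ T ↔ (G.Adj v u ∨ G.Adj (p 0) u) := by
    intro u; rw [hT, mem_filter]; simp
  have hall : ∀ u, G.Adj v u ∨ G.Adj (p 0) u := by
    intro u
    by_contra hu
    obtain ⟨a, ha, b, hb, hab⟩ := h2.conn.2 T (subset_univ _) ⟨p 0, (memT _).2 (Or.inl hv0)⟩
      ⟨u, mem_sdiff.2 ⟨mem_univ _, fun h => hu ((memT u).1 h)⟩⟩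
    have hb' := (mem_sdiff.1 hb).2
    rw [memT] at hb'
    push Not at hb'
    rcases (memT a).1 ha with h | h
    · exact hb'.2 (c2 _ _ _ h hv0 hab)
    · exact hb'.1 (c3 _ _ h hab)
  intro a _ b _ c _ d _ hac had hbd hab hbc hcd
  right; left
  rcases hall a with h | h
  · -- a in A, b in B, c in A, d in B
    have hb : G.Adj (p 0) b := c2 _ _ _ h hv0 hab
    have hcA : G.Adj v c := c3 _ _ hb hbc
    exact c2 _ _ _ hcA h hcd
  · have hb : G.Adj v b := c3 _ _ h hab
    have hcB : G.Adj (p 0) c := c2 _ _ _ hb hv0 hbc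
    have hdA : G.Adj v d := c3 _ _ hcB hcd
    exact (c2 _ _ _ hv0 hdA h).symm

end Pool.Agent.Y394.TM
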