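import Pool.Agent.Y394.TM.Path

/-! A cycle with an ear is a subdivision of the diamond. -/

set_option autoImplicit false

namespace Pool.Agent.Y394.TM

open Pool.Agent.H175R2

variable {V : Type} {G : SimpleGraph V}

lemma diamond_edge {e : Sym2 (Fin 4)} : e ∈ diamond.edgeSet ↔
    (e = s(0, 1) ∨ e = s(0, 2) ∨ e = s(0, 3) ∨ e = s(1, 2) ∨ e = s(1, 3)) := by
  induction e using Sym2.ind with
  | _ u v =>
    rw [SimpleGraph.mem_edgeSet]
    unfold diamond
    rw [SimpleGraph.fromRel_adj]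
    revert u v
    decide

/-- lengths of the paths of the diamond model -/
def dl (m k a : ℕ) (e : Sym2 (Fin 4)) : ℕ :=
  if e = s(0, 1) then m - a + 1 else if e = s(1, 2) then k + 1 else if e = s(1, 3) then a else 1

/-- paths of the diamond model -/
def dp (m k a : ℕ) (p q : ℕ → V) (v : V) (e : Sym2 (Fin 4)) (i : ℕ) : V :=
  if e = s(0, 1) then (if i = 0 then v else p (m + 1 - i))
  else if e = s(1, 2) then (if i ≤ k then q i else p a)
  else if e = s(1, 3) then p i
  else if i = 0 then v else if e = s(0, 2) then q 0 else p 0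

section
variable (m k a : ℕ) (p q : ℕ → V) (v : V)
lemma dl01 : dl m k a s(0, 1) = m - a + 1 := by simp [dl]
lemma dl12 : dl m k a s(1, 2) = k + 1 := by simp [dl]
lemma dl13 : dl m k a s(1, 3) = a := by simp [dl]
lemma dl02 : dl m k a s(0, 2) = 1 := by simp [dl]
lemma dl03 : dl m k a s(0, 3) = 1 := by simp [dl]
lemma dp01 (i : ℕ) : dp m k a p q v s(0, 1) i = if i = 0 then v else p (m + 1 - i) := by simp [dp]
lemma dp12 (i : ℕ) : dp m k a p q v s(1, 2) i = if i ≤ k then q i else p a := by simp [dp]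
lemma dp13 (i : ℕ) : dp m k a p q v s(1, 3) i = p i := by simp [dp]
lemma dp02 (i : ℕ) : dp m k a p q v s(0, 2) i = if i = 0 then v else q 0 := by simp [dp]
lemma dp03 (i : ℕ) : dp m k a p q v s(0, 3) i = if i = 0 then v else p 0 := by simp [dp]
end

theorem theta_aux {m k a : ℕ} {p q : ℕ → V} {v : V} (hp : IP G m p) (hq : IP G k q)
    (hvp : ∀ i ≤ m, v ≠ p i) (hvq : ∀ i ≤ k, v ≠ q i) (hpq : ∀ i ≤ m, ∀ j ≤ k, p i ≠ q j)
    (avp : ∀ i ≤ m, (G.Adj v (p i) ↔ (i = 0 ∨ i = m)))
    (avq : ∀ i ≤ k, (G.Adj v (q i) ↔ i = 0))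
    (apq : ∀ i ≤ m, ∀ j ≤ k, (G.Adj (p i) (q j) ↔ (i = a ∧ j = k)))
    (ha1 : 1 ≤ a) (ha : a ≤ m) : IsITM diamond G := by
  rw [isITM_iff]
  refine ⟨![v, p a, q 0, p 0], dl m k a, dp m k a p q v, ?_, ?_, ?_, ?_, ?_, ?_⟩
  · exact inj4 (hvp a ha) (hvq 0 (by omega)) (hvp 0 (by omega)) (hpq a ha 0 (by omega))
      (fun h => by have := hp.inj a ha 0 (by omega) h; omega) (hpq 0 (by omega) 0 (by omega)).symm
  · intro e he
    rw [diamond_edge] at he
    rcases he with rfl | rfl | rfl | rfl | rfl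
    · rw [dl01, dp01, dp01, if_pos rfl, if_neg (by omega)]
      refine ⟨by omega, ?_⟩
      have e1 : m + 1 - (m - a + 1) = a := by omega
      rw [e1]; rfl
    · rw [dl02, dp02, dp02, if_pos rfl, if_neg (by omega)]
      exact ⟨by omega, rfl⟩
    · rw [dl03, dp03, dp03, if_pos rfl, if_neg (by omega)]
      exact ⟨by omega, rfl⟩
    · rw [dl12, dp12, dp12, if_pos (by omega), if_neg (by omega)]
      exact ⟨by omega, Sym2.eq_swap⟩
    · rw [dl13, dp13, dp13]
      exact ⟨by omega, Sym2.eq_swap⟩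
  · intro e he i hi hi' w
    rw [diamond_edge] at he
    rcases he with rfl | rfl | rfl | rfl | rfl
    · rw [dl01] at hi'
      rw [dp01, if_neg (by omega)]
      fin_cases w
      · exact (hvp _ (by omega)).symm
      · intro hh
        have := hp.inj _ (by omega) a ha hh
        omega
      · exact hpq _ (by omega) 0 (by omega)
      · intro hh
        have := hp.inj _ (by omega) 0 (by omega) hh
        omega
    · rw [dl02] at hi'; omega
    · rw [dl03] at hi'; omega
    · rw [dl12] at hi'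
      rw [dp12, if_pos (by omega)]
      fin_cases w
      · exact (hvq _ (by omega)).symm
      · exact (hpq a ha _ (by omega)).symm
      · intro hh
        have := hq.inj _ (by omega) 0 (by omega) hh
        omega
      · exact (hpq 0 (by omega) _ (by omega)).symm
    · rw [dl13] at hi'
      rw [dp13]
      fin_cases w
      · exact (hvp _ (by omega)).symm
      · intro hh
        have := hp.inj _ (by omega) a ha hh
        omega
      · exact hpq _ (by omega) 0 (by omega)
      · intro hh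
        have := hp.inj _ (by omega) 0 (by omega) hh
        omega
  · intro e he e' he' i j hi hi' hj hj' hij
    rw [diamond_edge] at he he'
    rcases he with rfl | rfl | rfl | rfl | rfl
    · rw [dl01] at hi'
      rw [dp01, if_neg (by omega)] at hij
      rcases he' with rfl | rfl | rfl | rfl | rfl
      · rw [dl01] at hj'
        rw [dp01, if_neg (by omega)] at hij
        have := hp.inj _ (by omega) _ (by omega) hij
        exact ⟨rfl, by omega⟩
      · rw [dl02] at hj'; omega
      · rw [dl03] at hj'; omega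
      · rw [dl12] at hj'
        rw [dp12, if_pos (by omega)] at hij
        exact absurd hij (hpq _ (by omega) _ (by omega))
      · rw [dl13] at hj'
        rw [dp13] at hij
        have := hp.inj _ (by omega) _ (by omega) hij
        omega
    · rw [dl02] at hi'; omega
    · rw [dl03] at hi'; omega
    · rw [dl12] at hi'
      rw [dp12, if_pos (by omega)] at hij
      rcases he' with rfl | rfl | rfl | rfl | rfl
      · rw [dl01] at hj'
        rw [dp01, if_neg (by omega)] at hij
        exact absurd hij.symm (hpq _ (by omega) _ (by omega))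
      · rw [dl02] at hj'; omega
      · rw [dl03] at hj'; omega
      · rw [dl12] at hj'
        rw [dp12, if_pos (by omega)] at hij
        exact ⟨rfl, hq.inj _ (by omega) _ (by omega) hij⟩
      · rw [dl13] at hj'
        rw [dp13] at hij
        exact absurd hij.symm (hpq _ (by omega) _ (by omega))
    · rw [dl13] at hi'
      rw [dp13] at hij
      rcases he' with rfl | rfl | rfl | rfl | rfl
      · rw [dl01] at hj'
        rw [dp01, if_neg (by omega)] at hij
        have := hp.inj _ (by omega) _ (by omega) hij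
        omega
      · rw [dl02] at hj'; omega
      · rw [dl03] at hj'; omega
      · rw [dl12] at hj'
        rw [dp12, if_pos (by omega)] at hij
        exact absurd hij (hpq _ (by omega) _ (by omega))
      · rw [dl13] at hj'
        rw [dp13] at hij
        exact ⟨rfl, hp.inj _ (by omega) _ (by omega) hij⟩
  · intro e he i hi
    rw [diamond_edge] at he
    rcases he with rfl | rfl | rfl | rfl | rfl
    · rw [dl01] at hi
      rw [dp01, dp01, if_neg (by omega : ¬ i + 1 = 0)]
      by_cases h0 : i = 0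
      · rw [if_pos h0, h0]
        exact (avp _ (by omega)).2 (Or.inr (by omega))
      · rw [if_neg h0]
        exact (hp.adj _ (by omega) _ (by omega)).2 (Or.inr (by omega))
    · rw [dl02] at hi
      have h0 : i = 0 := by omega
      rw [dp02, dp02, if_pos h0, if_neg (by omega)]
      exact (avq 0 (by omega)).2 rfl
    · rw [dl03] at hi
      have h0 : i = 0 := by omega
      rw [dp03, dp03, if_pos h0, if_neg (by omega)]
      exact (avp 0 (by omega)).2 (Or.inl rfl)
    · rw [dl12] at hi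
      rw [dp12, dp12, if_pos (by omega)]
      by_cases h0 : i + 1 ≤ k
      · rw [if_pos h0]
        exact (hq.adj _ (by omega) _ (by omega)).2 (Or.inl rfl)
      · rw [if_neg h0]
        exact ((apq a ha i (by omega)).2 ⟨rfl, by omega⟩).symm
    · rw [dl13] at hi
      rw [dp13, dp13]
      exact (hp.adj _ (by omega) _ (by omega)).2 (Or.inl rfl)
  · have hU : ∀ x, Used diamond ![v, p a, q 0, p 0] (dl m k a) (dp m k a p q v) x →
        x = v ∨ (∃ i ≤ m, x = p i) ∨ ∃ i ≤ k, x = q i := by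
      rintro x (⟨w, rfl⟩ | ⟨e, he, i, hi, hi', rfl⟩)
      · fin_cases w
        · exact Or.inl rfl
        · exact Or.inr (Or.inl ⟨a, ha, rfl⟩)
        · exact Or.inr (Or.inr ⟨0, by omega, rfl⟩)
        · exact Or.inr (Or.inl ⟨0, by omega, rfl⟩)
      · rw [diamond_edge] at he
        rcases he with rfl | rfl | rfl | rfl | rfl
        · rw [dp01, if_neg (by omega)]
          exact Or.inr (Or.inl ⟨_, by omega, rfl⟩)
        · rw [dl02] at hi'; omega
        · rw [dl03] at hi'; omega
        · rw [dl12] at hi'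
          rw [dp12, if_pos (by omega)]
          exact Or.inr (Or.inr ⟨_, by omega, rfl⟩)
        · rw [dl13] at hi'
          rw [dp13]
          exact Or.inr (Or.inl ⟨_, by omega, rfl⟩)
    have E : ∀ x y, G.Adj x y → (x = v ∨ (∃ i ≤ m, x = p i) ∨ ∃ i ≤ k, x = q i) →
        (y = v ∨ (∃ i ≤ m, y = p i) ∨ ∃ i ≤ k, y = q i) →
        (x = v ∧ y = p 0) ∨ (x = v ∧ y = p m) ∨ (x = v ∧ y = q 0) ∨
        (y = v ∧ x = p 0) ∨ (y = v ∧ x = p m) ∨ (y = v ∧ x = q 0) ∨
        (∃ i < m, (x = p i ∧ y = p (i + 1)) ∨ (x = p (i + 1) ∧ y = p i)) ∨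
        (∃ i < k, (x = q i ∧ y = q (i + 1)) ∨ (x = q (i + 1) ∧ y = q i)) ∨
        (x = p a ∧ y = q k) ∨ (y = p a ∧ x = q k) := by
      rintro x y hxy (rfl | ⟨i, hi, rfl⟩ | ⟨i, hi, rfl⟩) (rfl | ⟨j, hj, rfl⟩ | ⟨j, hj, rfl⟩)
      · exact absurd rfl hxy.ne
      · rcases (avp j hj).1 hxy with rfl | rfl
        · exact Or.inl ⟨rfl, rfl⟩
        · exact Or.inr (Or.inl ⟨rfl, rfl⟩)
      · have := (avq j hj).1 hxy
        subst this
        exact Or.inr (Or.inr (Or.inl ⟨rfl, rfl⟩))
      · rcases (avp i hi).1 hxy.symm with rfl | rfl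
        · exact Or.inr (Or.inr (Or.inr (Or.inl ⟨rfl, rfl⟩)))
        · exact Or.inr (Or.inr (Or.inr (Or.inr (Or.inl ⟨rfl, rfl⟩))))
      · iterate 6 apply Or.inr
        apply Or.inl
        rcases (hp.adj i hi j hj).1 hxy with rfl | rfl
        · exact ⟨i, by omega, Or.inl ⟨rfl, rfl⟩⟩
        · exact ⟨j, by omega, Or.inr ⟨rfl, rfl⟩⟩
      · obtain ⟨rfl, rfl⟩ := (apq i hi j hj).1 hxy
        iterate 8 apply Or.inr
        exact Or.inl ⟨rfl, rfl⟩
      · have := (avq i hi).1 hxy.symm
        subst this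
        iterate 5 apply Or.inr
        exact Or.inl ⟨rfl, rfl⟩
      · obtain ⟨rfl, rfl⟩ := (apq j hj i hi).1 hxy.symm
        iterate 9 apply Or.inr
        exact ⟨rfl, rfl⟩
      · iterate 7 apply Or.inr
        apply Or.inl
        rcases (hq.adj i hi j hj).1 hxy with rfl | rfl
        · exact ⟨i, by omega, Or.inl ⟨rfl, rfl⟩⟩
        · exact ⟨j, by omega, Or.inr ⟨rfl, rfl⟩⟩
    have F : ∀ x y, ((x = v ∧ y = p 0) ∨ (x = v ∧ y = p m) ∨ (x = v ∧ y = q 0) ∨
        (∃ i < m, (x = p i ∧ y = p (i + 1))) ∨ (∃ i < k, (x = q i ∧ y = q (i + 1))) ∨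
        (x = p a ∧ y = q k)) → ∃ e ∈ diamond.edgeSet, ∃ i < dl m k a e,
          s(x, y) = s(dp m k a p q v e i, dp m k a p q v e (i + 1)) := by
      rintro x y (⟨rfl, rfl⟩ | ⟨rfl, rfl⟩ | ⟨rfl, rfl⟩ | ⟨i, hi, rfl, rfl⟩ | ⟨i, hi, rfl, rfl⟩ |
        ⟨rfl, rfl⟩)
      · refine ⟨s(0, 3), diamond_edge.2 (by simp), 0, by rw [dl03]; omega, ?_⟩
        rw [dp03, dp03, if_pos rfl, if_neg (by omega)]
      · refine ⟨s(0, 1), diamond_edge.2 (by simp), 0, by rw [dl01]; omega, ?_⟩
        rw [dp01, dp01, if_pos rfl, if_neg (by omega)]; simp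
      · refine ⟨s(0, 2), diamond_edge.2 (by simp), 0, by rw [dl02]; omega, ?_⟩
        rw [dp02, dp02, if_pos rfl, if_neg (by omega)]
      · by_cases h : i + 1 ≤ a
        · refine ⟨s(1, 3), diamond_edge.2 (by simp), i, by rw [dl13]; omega, ?_⟩
          rw [dp13, dp13]
        · refine ⟨s(0, 1), diamond_edge.2 (by simp), m - i, by rw [dl01]; omega, ?_⟩
          rw [dp01, dp01, if_neg (by omega), if_neg (by omega)]
          have e1 : m + 1 - (m - i) = i + 1 := by omega
          have e2 : m + 1 - (m - i + 1) = i := by omega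
          rw [e1, e2]; exact Sym2.eq_swap
      · refine ⟨s(1, 2), diamond_edge.2 (by simp), i, by rw [dl12]; omega, ?_⟩
        rw [dp12, dp12, if_pos (by omega), if_pos (by omega)]
      · refine ⟨s(1, 2), diamond_edge.2 (by simp), k, by rw [dl12]; omega, ?_⟩
        rw [dp12, dp12, if_pos (by omega), if_neg (by omega)]
        exact Sym2.eq_swap
    intro x y hx hy hxy
    have F' : ∀ x y, ((y = v ∧ x = p 0) ∨ (y = v ∧ x = p m) ∨ (y = v ∧ x = q 0) ∨
        (∃ i < m, (y = p i ∧ x = p (i + 1))) ∨ (∃ i < k, (y = q i ∧ x = q (i + 1))) ∨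
        (y = p a ∧ x = q k)) → ∃ e ∈ diamond.edgeSet, ∃ i < dl m k a e,
          s(x, y) = s(dp m k a p q v e i, dp m k a p q v e (i + 1)) := by
      intro x y h
      obtain ⟨e, he, i, hi, hs⟩ := F y x h
      exact ⟨e, he, i, hi, by rw [← hs]; exact Sym2.eq_swap⟩
    rcases E x y hxy (hU x hx) (hU y hy) with h | h | h | h | h | h | ⟨i, hi, h | h⟩ |
      ⟨i, hi, h | h⟩ | h | h
    · exact F x y (Or.inl h)
    · exact F x y (Or.inr (Or.inl h))
    · exact F x y (Or.inr (Or.inr (Or.inl h)))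
    · exact F' x y (Or.inl h)
    · exact F' x y (Or.inr (Or.inl h))
    · exact F' x y (Or.inr (Or.inr (Or.inl h)))
    · exact F x y (Or.inr (Or.inr (Or.inr (Or.inl ⟨i, hi, h⟩))))
    · exact F' x y (Or.inr (Or.inr (Or.inr (Or.inl ⟨i, hi, h.2, h.1⟩))))
    · exact F x y (Or.inr (Or.inr (Or.inr (Or.inr (Or.inl ⟨i, hi, h⟩)))))
    · exact F' x y (Or.inr (Or.inr (Or.inr (Or.inr (Or.inl ⟨i, hi, h.2, h.1⟩)))))
    · exact F x y (Or.inr (Or.inr (Or.inr (Or.inr (Or.inr h)))))
    · exact F' x y (Or.inr (Or.inr (Or.inr (Or.inr (Or.inr h)))))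

lemma IP.rev {m : ℕ} {p : ℕ → V} (hp : IP G m p) : IP G m (fun t => p (m - t)) := by
  refine ⟨fun i hi j hj h => ?_, fun i hi j hj => ?_⟩
  · have := hp.inj _ (by omega) _ (by omega) h
    omega
  · rw [hp.adj _ (by omega) _ (by omega)]
    omega

/-- The cycle `v, p 0, …, p m` with the ear `q 0, …, q k` attached at `v` and `p a`. -/
theorem theta_itm {m k a : ℕ} {p q : ℕ → V} {v : V} (hm : 1 ≤ m) (hp : IP G m p) (hq : IP G k q)
    (hvp : ∀ i ≤ m, v ≠ p i) (hvq : ∀ i ≤ k, v ≠ q i) (hpq : ∀ i ≤ m, ∀ j ≤ k, p i ≠ q j)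
    (avp : ∀ i ≤ m, (G.Adj v (p i) ↔ (i = 0 ∨ i = m)))
    (avq : ∀ i ≤ k, (G.Adj v (q i) ↔ i = 0))
    (apq : ∀ i ≤ m, ∀ j ≤ k, (G.Adj (p i) (q j) ↔ (i = a ∧ j = k))) (ha : a ≤ m) :
    IsITM diamond G := by
  rcases Nat.eq_zero_or_pos a with h0 | h0
  · subst h0
    refine theta_aux (m := m) (k := k) (a := m) hp.rev hq (fun i hi => hvp _ (by omega)) hvq
      (fun i hi j hj => hpq _ (by omega) j hj) (fun i hi => ?_) avq (fun i hi j hj => ?_) hm le_rfl
    · rw [avp _ (by omega)]; omega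
    · rw [apq _ (by omega) j hj]; omega
  · exact theta_aux hp hq hvp hvq hpq avp avq apq h0 ha

end Pool.Agent.Y394.TM
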